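import Pool.Agent.Lib.MP_b2e238_gt.K.Defs

/-! Calculus of diffeomorphisms of subsets, open parts, the circle parameter. -/

open scoped ContDiff Topology
open Set Metric

noncomputable section

namespace Pool.Agent.Lib.MP_b2e238_gt

variable {P Q V W Z : Type} [NormedAddCommGroup P] [NormedSpace ℝ P] [NormedAddCommGroup Q]
  [NormedSpace ℝ Q] [NormedAddCommGroup V] [NormedSpace ℝ V] [NormedAddCommGroup W]
  [NormedSpace ℝ W] [NormedAddCommGroup Z] [NormedSpace ℝ Z]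

section Dif
variable {A A' M : Set V} {B B' M' : Set W} {C : Set Z} {F : V → W} {G : W → V}
theorem ex_add (s t : ℝ) : ex (s + t) = ex s * ex t := by
  rw [ex, ex, ex, ← Complex.exp_add]; congr 1; push_cast; ring
theorem ex_int (k : ℤ) : ex k = 1 := by
  rw [ex, ← Complex.exp_int_mul_two_pi_mul_I k]; congr 1; push_cast; ring
theorem ex_one (t : ℝ) : ex (t + 1) = ex t := by
  simpa [ex_add] using congrArg (ex t * ·) (ex_int 1)
theorem norm_ex (t : ℝ) : ‖ex t‖ = 1 := by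
  rw [ex, ← Complex.norm_exp_ofReal_mul_I (2 * Real.pi * t)]; congr 2; push_cast; ring
theorem ex_eq {s t : ℝ} (h : ex s = ex t) : ∃ k : ℤ, t = s + k := by
  obtain ⟨k, e⟩ := Complex.exp_eq_exp_iff_exists_int.1 h.symm
  have := congrArg Complex.im e
  simp at this
  exact ⟨k, mul_left_cancel₀ Real.two_pi_pos.ne' (by linarith)⟩
theorem ex_arg {w : ℂ} (h : ‖w‖ = 1) : ex (w.arg / (2 * Real.pi)) = w := by
  have := Complex.norm_mul_exp_arg_mul_I w
  rw [h, Complex.ofReal_one, one_mul] at this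
  have p : (Real.pi : ℂ) ≠ 0 := Complex.ofReal_ne_zero.2 Real.pi_ne_zero
  refine Eq.trans (congrArg Complex.exp ?_) this
  push_cast
  field_simp
theorem contDiff_ex : ContDiff ℝ ∞ ex :=
  Complex.contDiff_exp.comp ((contDiff_const.mul Complex.ofRealCLM.contDiff).mul contDiff_const)
theorem hasDerivAt_ex (t : ℝ) : HasDerivAt ex (2 * Real.pi * .I * ex t) t := by
  have := (((hasDerivAt_id (t : ℂ)).const_mul (2 * Real.pi : ℂ)).mul_const .I).cexp.comp_ofReal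
  exact this.congr_deriv (by simp [ex]; ring)
theorem per_int {X : Type} {c : ℝ → X} (h : ∀ t, c (t + 1) = c t) (t : ℝ) (k : ℤ) :
    c (t + k) = c t := by
  simpa using Function.Periodic.int_mul (c := (1 : ℝ)) h k t
theorem S2.norm_le {o : E3} (h : o ∈ S2) : ‖o‖ ≤ 1 ∧ o ≠ 0 := by
  have h' : ‖o.1‖ ^ 2 + o.2 ^ 2 = 1 := h
  refine ⟨max_le (by nlinarith [norm_nonneg o.1]) (abs_le.2 ⟨by nlinarith, by nlinarith⟩), ?_⟩
  rintro rfl
  simp at h'
theorem isCompact_S2 : IsCompact S2 :=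
  isCompact_of_isClosed_isBounded (isClosed_eq (by fun_prop) continuous_const)
    ((isBounded_closedBall (x := (0 : E3)) (r := 1)).subset fun _ h =>
      mem_closedBall_zero_iff.2 (S2.norm_le h).1)
/-- Polar coordinates in `E3`; the norm of `E3` is the maximum norm. -/
theorem ex_polar {x : E3} (h : x ≠ 0) :
    ∃ (ρ : ℝ) (o : E3), 0 < ρ ∧ ρ ≤ 2 * ‖x‖ ∧ o ∈ S2 ∧ x = ρ • o := by
  have n := norm_pos_iff.2 h
  have a := pow_le_pow_left₀ (norm_nonneg _) (norm_fst_le x) 2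
  have b := pow_le_pow_left₀ (norm_nonneg _) (norm_snd_le x) 2
  rw [Real.norm_eq_abs, sq_abs] at b
  have p : 0 < ‖x.1‖ ^ 2 + x.2 ^ 2 := by
    refine lt_of_le_of_ne (by positivity) fun e => h (Prod.ext ?_ ?_)
    · exact norm_eq_zero.1 (by nlinarith [sq_nonneg x.2, norm_nonneg x.1])
    · exact pow_eq_zero_iff two_ne_zero |>.1 (by nlinarith [sq_nonneg x.2, sq_nonneg ‖x.1‖])
  have s := Real.sqrt_pos.2 p
  refine ⟨_, (√(‖x.1‖ ^ 2 + x.2 ^ 2))⁻¹ • x, s, Real.sqrt_le_iff.2 ⟨by linarith, by nlinarith⟩, ?_,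
    (smul_inv_smul₀ s.ne' x).symm⟩
  change ‖(√(‖x.1‖ ^ 2 + x.2 ^ 2))⁻¹ • x.1‖ ^ 2 + ((√(‖x.1‖ ^ 2 + x.2 ^ 2))⁻¹ * x.2) ^ 2 = 1
  rw [norm_smul, mul_pow, mul_pow, Real.norm_eq_abs, sq_abs, ← mul_add, inv_pow,
    Real.sq_sqrt p.le, inv_mul_cancel₀ p.ne']
omit [NormedSpace ℝ V] in
theorem Dif_opn : Opn A M ↔ ∃ O, IsOpen O ∧ A = M ∩ O := by
  refine ⟨fun h => ?_, ?_⟩
  · choose! O h1 h2 h3 using fun a ha => mem_nhdsWithin.1 (h.2 a ha)
    refine ⟨⋃ a ∈ A, O a, isOpen_biUnion h1, subset_antisymm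
      (fun a ha => ⟨h.1 ha, mem_biUnion ha (h2 a ha)⟩) fun x hx => ?_⟩
    obtain ⟨a, ha, k⟩ := mem_iUnion₂.1 hx.2
    exact h3 a ha ⟨k, hx.1⟩
  · rintro ⟨O, hO, rfl⟩
    exact ⟨inter_subset_left, fun a ha => inter_mem_nhdsWithin M (hO.mem_nhds ha.2)⟩
theorem Opn.refl (M : Set V) : Opn M M := ⟨subset_rfl, fun _ _ => self_mem_nhdsWithin⟩
theorem Opn.trans (h : Opn A A') (k : Opn A' M) : Opn A M :=
  ⟨h.1.trans k.1, fun a ha => nhdsWithin_le_of_mem (k.2 a (h.1 ha)) (h.2 a ha)⟩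
theorem opn_iff : Opn A M ↔ ∃ O, IsOpen O ∧ A = M ∩ O := Dif_opn
theorem Opn.inter (h : Opn A M) (k : Opn A' M) : Opn (A ∩ A') M :=
  ⟨inter_subset_left.trans h.1, fun a ha => Filter.inter_mem (h.2 a ha.1) (k.2 a ha.2)⟩
theorem opn_univ : Opn A univ ↔ IsOpen A := by
  simp only [Opn, subset_univ, true_and, nhdsWithin_univ, isOpen_iff_mem_nhds]
theorem Dif.refl (A : Set V) : Dif A A id id :=
  ⟨contDiffOn_id, contDiffOn_id, mapsTo_id _, mapsTo_id _, fun _ _ => rfl, fun _ _ => rfl⟩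
theorem Dif.symm (h : Dif A B F G) : Dif B A G F := ⟨h.cG, h.cF, h.mG, h.mF, h.fg, h.gf⟩
theorem Dif.trans {F' : W → Z} {G' : Z → W} (h : Dif A B F G) (k : Dif B C F' G') :
    Dif A C (F' ∘ F) (G ∘ G') :=
  ⟨k.cF.comp h.cF h.mF, h.cG.comp k.cG k.mG, k.mF.comp h.mF, h.mG.comp k.mG,
    fun a ha => (congrArg G (k.gf _ (h.mF ha))).trans (h.gf a ha),
    fun a ha => (congrArg F' (h.fg _ (k.mG ha))).trans (k.fg a ha)⟩
theorem Dif.image (h : Dif A B F G) : F '' A = B :=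
  subset_antisymm h.mF.image_subset fun b hb => ⟨G b, h.mG hb, h.fg b hb⟩
theorem Dif.injOn (h : Dif A B F G) : InjOn F A := fun a ha b hb e => by
  rw [← h.gf a ha, e, h.gf b hb]
theorem Dif.restrict (h : Dif A B F G) (k : A' ⊆ A) (k' : B' ⊆ B) (m : MapsTo F A' B')
    (m' : MapsTo G B' A') : Dif A' B' F G :=
  ⟨h.cF.mono k, h.cG.mono k', m, m', fun a ha => h.gf a (k ha), fun a ha => h.fg a (k' ha)⟩
theorem Dif.mono (h : Dif A B F G) (k : A' ⊆ A) : Dif A' (F '' A') F G :=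
  h.restrict k (h.image ▸ image_mono k) (mapsTo_image _ _) (by
    rintro _ ⟨a, ha, rfl⟩; rwa [h.gf a (k ha)])
theorem Dif.diff (h : Dif A B F G) (k : A' ⊆ A) : Dif (A \ A') (B \ F '' A') F G :=
  h.restrict sdiff_subset sdiff_subset
    (fun _ ha => ⟨h.mF ha.1, fun ⟨_, hb, e⟩ => ha.2 (h.injOn (k hb) ha.1 e ▸ hb)⟩)
    fun b hb => ⟨h.mG hb.1, fun m => hb.2 ⟨_, m, h.fg b hb.1⟩⟩
theorem Dif.congr {F' : V → W} {G' : W → V} (h : Dif A B F G) (k : EqOn F' F A) (k' : EqOn G' G B) :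
    Dif A B F' G' :=
  ⟨h.cF.congr k, h.cG.congr k', h.mF.congr k.symm, h.mG.congr k'.symm,
    fun a ha => by rw [k ha, k' (h.mF ha), h.gf a ha],
    fun a ha => by rw [k' ha, k (h.mG ha), h.fg a ha]⟩
theorem Dif.prod {F' : P → Q} {G' : Q → P} {U : Set P} {U' : Set Q} (h : Dif A B F G)
    (k : Dif U U' F' G') : Dif (A ×ˢ U) (B ×ˢ U') (Prod.map F F') (Prod.map G G') :=
  ⟨h.cF.prodMap k.cF, h.cG.prodMap k.cG, fun _ ha => ⟨h.mF ha.1, k.mF ha.2⟩,
    fun _ ha => ⟨h.mG ha.1, k.mG ha.2⟩, fun _ ha => Prod.ext (h.gf _ ha.1) (k.gf _ ha.2),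
    fun _ ha => Prod.ext (h.fg _ ha.1) (k.fg _ ha.2)⟩
theorem Dif.opn (h : Dif A B F G) (k : Opn A' A) : Opn (F '' A') B := by
  refine ⟨h.image ▸ image_mono k.1, ?_⟩
  rintro _ ⟨a, ha, rfl⟩
  have m := h.mF (k.1 ha)
  have := (h.cG.continuousOn _ m).tendsto_nhdsWithin h.mG
  rw [h.gf a (k.1 ha)] at this
  filter_upwards [this (k.2 a ha), self_mem_nhdsWithin] with b hb hB
  exact ⟨_, hb, h.fg b hB⟩
/-- Gluing over open covers. -/
theorem Dif.glue {ι : Type} (a : ι → Set V) (b : ι → Set W) (ha : ∀ i, Opn (a i) A)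
    (hb : ∀ i, Opn (b i) B) (ca : A ⊆ ⋃ i, a i) (cb : B ⊆ ⋃ i, b i)
    (h : ∀ i, Dif (a i) (b i) F G) : Dif A B F G := by
  refine ⟨fun x hx => ?_, fun x hx => ?_, fun x hx => ?_, fun x hx => ?_, fun x hx => ?_,
    fun x hx => ?_⟩
  all_goals first | obtain ⟨i, k⟩ := mem_iUnion.1 (ca hx) | obtain ⟨i, k⟩ := mem_iUnion.1 (cb hx)
  exacts [((h i).cF x k).mono_of_mem_nhdsWithin ((ha i).2 x k),
    ((h i).cG x k).mono_of_mem_nhdsWithin ((hb i).2 x k), (hb i).1 ((h i).mF k),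
    (ha i).1 ((h i).mG k), (h i).gf x k, (h i).fg x k]
open Classical in
/-- Extension by the identity. -/
theorem Dif.extend {F G : V → V} {K : Set V} (h : Dif A A F G) (o : Opn A M) (k : K ⊆ A)
    (c : Opn (M \ K) M) (e : ∀ a ∈ A \ K, F a = a) :
    Dif M M (A.piecewise F id) (A.piecewise G id) := by
  have key : ∀ H : V → V, (∀ a ∈ A \ K, H a = a) → EqOn (A.piecewise H id) id (M \ K) :=
    fun H l x hx => by
      by_cases m : x ∈ A
      · rw [piecewise_eq_of_mem _ _ _ m]; exact l x ⟨m, hx.2⟩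
      · exact piecewise_eq_of_notMem _ _ _ m
  have s : M ⊆ ⋃ i : Bool, cond i A (M \ K) := fun x hx => by
    by_cases m : x ∈ K
    exacts [mem_iUnion.2 ⟨true, k m⟩, mem_iUnion.2 ⟨false, hx, m⟩]
  have p : ∀ i : Bool, Opn (cond i A (M \ K)) M := fun | true => o | false => c
  exact .glue _ _ p p s s fun
    | true => h.congr (piecewise_eqOn _ _ _) (piecewise_eqOn _ _ _)
    | false => (Dif.refl _).congr (key F e) (key G fun a ha =>
        (congrArg G (e a ha).symm).trans (h.gf a ha.1))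
end Dif

end Pool.Agent.Lib.MP_b2e238_gt
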