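import Pool.Agent.Lib.MP_b2e238_gt.K.Apx

/-! Winding numbers of loops of period one and loops of invertible matrices. -/

set_option autoImplicit false

open Set Function Complex

namespace Pool.Agent.Lib.MP_b2e238_gt

/-- the loop `a` winds `k` times round the origin -/
def Wn (a : ℝ → ℂ) (k : ℤ) : Prop :=
  ∃ L : ℝ → ℂ, Continuous L ∧ (∀ t, exp (L t) = a t) ∧ ∀ t, L (t + 1) = L t + k * (2 * Real.pi * I)

theorem wn_log {X : Type} [NormedAddCommGroup X] [NormedSpace ℝ X] {a : X → ℂ}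
    (ha : Continuous a) (h0 : ∀ t, a t ≠ 0) : ∃ L : X → ℂ, Continuous L ∧ ∀ t, exp (L t) = a t := by
  obtain ⟨F, ⟨-, hF⟩, -⟩ := isCoveringMap_exp.existsUnique_continuousMap_lifts
    ⟨fun t => ⟨a t, h0 t⟩, ha.subtype_mk _⟩ 0 (log (a 0)) (Subtype.ext (exp_log (h0 0)))
  exact ⟨F, F.continuous, fun t => congrArg Subtype.val (congrFun hF t)⟩

theorem wn_const {X : Type} [TopologicalSpace X] [PreconnectedSpace X] {D : X → ℂ}
    (hD : Continuous D) (h : ∀ x, exp (D x) = 1) (x y : X) : D x = D y :=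
  isCoveringMap_exp.const_of_comp hD (fun a a' => Subtype.ext ((h a).trans (h a').symm)) x y

variable {a b : ℝ → ℂ} {k m : ℤ}

theorem Wn.cont (h : Wn a k) : Continuous a := by
  obtain ⟨L, c, e, -⟩ := h
  rw [← funext e]
  exact c.cexp

theorem Wn.ne (h : Wn a k) (t : ℝ) : a t ≠ 0 := by
  obtain ⟨L, -, e, -⟩ := h
  rw [← e]
  exact exp_ne_zero _

theorem Wn.per (h : Wn a k) (t : ℝ) : a (t + 1) = a t := by
  obtain ⟨L, -, e, p⟩ := h
  rw [← e, p, exp_add, exp_int_mul_two_pi_mul_I, mul_one, e]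

theorem exists_wn (ha : Continuous a) (h0 : ∀ t, a t ≠ 0) (per : ∀ t, a (t + 1) = a t) :
    ∃ k, Wn a k := by
  obtain ⟨L, c, e⟩ := wn_log ha h0
  have h : ∀ t, exp (L (t + 1) - L t) = 1 := fun t => by rw [exp_sub, e, e, per, div_self (h0 t)]
  obtain ⟨k, hk⟩ := exp_eq_one_iff.1 (h 0)
  exact ⟨k, L, c, e, fun t => by
    rw [← hk, ← wn_const (D := fun t => L (t + 1) - L t) (by fun_prop) h t 0, add_sub_cancel]⟩

theorem Wn.unique (h : Wn a k) (h' : Wn a m) : k = m := by
  have h0 := h.ne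
  obtain ⟨L, c, e, p⟩ := h
  obtain ⟨L', c', e', p'⟩ := h'
  have q := wn_const (D := fun t => L t - L' t) (by fun_prop)
    (fun t => by rw [exp_sub, e, e', div_self (h0 t)]) (0 + 1) 0
  rw [p, p'] at q
  exact_mod_cast mul_right_cancel₀ two_pi_I_ne_zero
    (show (k : ℂ) * (2 * Real.pi * I) = m * (2 * Real.pi * I) by linear_combination q)

theorem Wn.congr (h : Wn a k) (e : ∀ t, b t = a t) : Wn b k := by rwa [funext e]

theorem Wn.mul (h : Wn a k) (h' : Wn b m) : Wn (fun t => a t * b t) (k + m) := by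
  obtain ⟨L, c, e, p⟩ := h
  obtain ⟨L', c', e', p'⟩ := h'
  exact ⟨fun t => L t + L' t, c.add c', fun t => by rw [exp_add, e, e'],
    fun t => by simp only [p, p']; push_cast; ring⟩

theorem Wn.zpow (h : Wn a k) (n : ℤ) : Wn (fun t => a t ^ n) (n * k) := by
  obtain ⟨L, c, e, p⟩ := h
  exact ⟨fun t => n * L t, by fun_prop, fun t => by rw [exp_int_mul, e],
    fun t => by simp only [p]; push_cast; ring⟩

theorem Wn.pow (h : Wn a k) (n : ℕ) : Wn (fun t => a t ^ n) (n * k) :=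
  (h.zpow n).congr fun t => (zpow_natCast _ _).symm

theorem Wn.inv (h : Wn a k) : Wn (fun t => (a t)⁻¹) (-k) := by
  simpa using h.zpow (-1)

theorem Wn.div (h : Wn a k) (h' : Wn b m) : Wn (fun t => a t / b t) (k - m) := by
  simpa only [div_eq_mul_inv, sub_eq_add_neg] using h.mul h'.inv

theorem Wn.star (h : Wn a k) : Wn (fun t => (starRingEnd ℂ) (a t)) (-k) := by
  obtain ⟨L, c, e, p⟩ := h
  exact ⟨fun t => (starRingEnd ℂ) (L t), continuous_conj.comp c, fun t => by rw [exp_conj, e],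
    fun t => by simp [p, map_ofNat]⟩

theorem wn_apxE (k : ℤ) : Wn (fun t => apxE (k * t)) k :=
  ⟨fun t => 2 * Real.pi * ((k * t : ℝ) : ℂ) * I, by fun_prop, fun _ => rfl,
    fun t => by push_cast; ring⟩

theorem wn_slit (ha : Continuous a) (h : ∀ t, a t ∈ slitPlane) (per : ∀ t, a (t + 1) = a t) :
    Wn a 0 :=
  ⟨fun t => log (a t), ha.clog h, fun t => exp_log (slitPlane_ne_zero (h t)),
    fun t => by simp [per]⟩

theorem wn_cst {c : ℂ} (hc : c ≠ 0) : Wn (fun _ => c) 0 :=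
  ⟨fun _ => log c, continuous_const, fun _ => exp_log hc, fun _ => by simp⟩

/-- loops that never point in opposite directions -/
theorem Wn.of_slit (h : Wn a k) (hb : Continuous b) (per : ∀ t, b (t + 1) = b t)
    (hs : ∀ t, b t / a t ∈ slitPlane) : Wn b k := by
  have := h.mul (wn_slit (hb.div h.cont h.ne) hs fun t => by simp only [Pi.div_apply, per, h.per])
  rw [add_zero] at this
  exact this.congr fun t => (mul_div_cancel₀ _ (h.ne t)).symm

theorem Wn.htpy {H : ℝ × ℝ → ℂ} (hH : Continuous H) (h0 : ∀ l ∈ Icc (0 : ℝ) 1, ∀ t, H (l, t) ≠ 0)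
    (per : ∀ l ∈ Icc (0 : ℝ) 1, ∀ t, H (l, t + 1) = H (l, t)) (h : Wn (fun t => H (0, t)) k) :
    Wn (fun t => H (1, t)) k := by
  obtain ⟨L, c, e⟩ := wn_log (a := fun q : ℝ × ℝ => H (projIcc (0 : ℝ) 1 zero_le_one q.1, q.2))
    (hH.comp ((continuous_subtype_val.comp (continuous_projIcc.comp continuous_fst)).prodMk
      continuous_snd)) fun q => h0 _ (projIcc _ _ _ q.1).2 _
  have d : ∀ q : ℝ × ℝ, exp (L (q.1, q.2 + 1) - L q) = 1 := fun q => by
    rw [exp_sub, e, e, per _ (projIcc _ _ _ q.1).2, div_self (h0 _ (projIcc _ _ _ q.1).2 _)]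
  obtain ⟨j, hj⟩ := exp_eq_one_iff.1 (d 0)
  have w : ∀ l ∈ Icc (0 : ℝ) 1, Wn (fun t => H (l, t)) j := fun l hl =>
    ⟨fun t => L (l, t), by fun_prop, fun t => by rw [e, projIcc_of_mem _ hl], fun t => by
      rw [← hj, ← wn_const (D := fun q : ℝ × ℝ => L (q.1, q.2 + 1) - L q) (by fun_prop) d (l, t) 0,
        add_sub_cancel]⟩
  rw [h.unique (w 0 ⟨le_rfl, zero_le_one⟩)]
  exact w 1 ⟨zero_le_one, le_rfl⟩

section

variable {V : Type} [NormedAddCommGroup V] [NormedSpace ℝ V] {A B C D : ℝ → V →L[ℝ] V}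

/-- free homotopy of loops of injective linear maps -/
def MH (A B : ℝ → V →L[ℝ] V) : Prop :=
  ∃ H : ℝ → ℝ → V →L[ℝ] V, Continuous H.uncurry ∧
    (∀ l t, H l (t + 1) = H l t ∧ Injective (H l t)) ∧ H 0 = A ∧ H 1 = B

theorem MH.of_Icc {H : ℝ → ℝ → V →L[ℝ] V} (c : Continuous H.uncurry)
    (h : ∀ l ∈ Icc (0 : ℝ) 1, ∀ t, H l (t + 1) = H l t ∧ Injective (H l t)) : MH (H 0) (H 1) :=
  ⟨fun l => H (projIcc (0 : ℝ) 1 zero_le_one l),
    c.comp ((continuous_subtype_val.comp ((continuous_projIcc (h := zero_le_one)).comp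
      continuous_fst)).prodMk continuous_snd), fun l => h _ (projIcc _ _ _ l).2, by simp only [projIcc_left],
    by simp only [projIcc_right]⟩

theorem MH.left (h : MH A B) : Continuous A ∧ ∀ t, A (t + 1) = A t ∧ Injective (A t) := by
  obtain ⟨H, c, k, rfl, -⟩ := h
  exact ⟨c.comp (Continuous.prodMk_right 0), k 0⟩

theorem MH.refl (c : Continuous A) (h : ∀ t, A (t + 1) = A t ∧ Injective (A t)) : MH A A :=
  ⟨fun _ => A, c.comp continuous_snd, fun _ => h, rfl, rfl⟩

theorem MH.symm (h : MH A B) : MH B A := by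
  obtain ⟨H, c, k, e0, e1⟩ := h
  exact ⟨fun l => H (1 - l), c.comp (f := fun q : ℝ × ℝ => (1 - q.1, q.2)) (by fun_prop),
    fun l => k _, by simp only [sub_zero, e1], by simp only [sub_self, e0]⟩

theorem MH.trans (h : MH A B) (h' : MH B C) : MH A C := by
  obtain ⟨H, c, k, e0, e1⟩ := h
  obtain ⟨H', c', k', e0', e1'⟩ := h'
  refine ⟨fun l t => if l ≤ 1 / 2 then H (2 * l) t else H' (2 * l - 1) t,
    Continuous.if_le (f' := fun q : ℝ × ℝ => H (2 * q.1) q.2)
      (g' := fun q : ℝ × ℝ => H' (2 * q.1 - 1) q.2)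
      (c.comp (f := fun q : ℝ × ℝ => (2 * q.1, q.2)) (by fun_prop))
      (c'.comp (f := fun q : ℝ × ℝ => (2 * q.1 - 1, q.2)) (by fun_prop)) continuous_fst
      continuous_const fun q h => by rw [h]; norm_num [e1, e0'], fun l t => ?_, ?_, ?_⟩
  · dsimp only
    split_ifs
    exacts [k _ t, k' _ t]
  · funext t; norm_num [e0]
  · funext t; norm_num [e1']

theorem MH.comp (h : MH A B) (h' : MH C D) :
    MH (fun t => (A t).comp (C t)) fun t => (B t).comp (D t) := by
  obtain ⟨H, c, k, rfl, rfl⟩ := h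
  obtain ⟨H', c', k', rfl, rfl⟩ := h'
  exact ⟨fun l t => (H l t).comp (H' l t), c.clm_comp c',
    fun l t => ⟨by simp only [(k l t).1, (k' l t).1], (k l t).2.comp (k' l t).2⟩, rfl, rfl⟩

end

/-- multiplication by `a` on the plane, the identity on the line -/
noncomputable def matMu (a : ℂ) : ℂ × ℝ →L[ℝ] ℂ × ℝ :=
  (ContinuousLinearMap.mul ℝ ℂ a).prodMap (ContinuousLinearMap.id ℝ ℝ)

theorem matMu_apply (a : ℂ) (x : ℂ × ℝ) : matMu a x = (a * x.1, x.2) := rfl

theorem matMu_cont : Continuous matMu :=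
  continuous_clm_apply.2 fun x => by simp only [matMu_apply]; fun_prop

theorem matMu_inj {a : ℂ} (h : a ≠ 0) : Injective (matMu a) := fun _ _ e =>
  Prod.ext (mul_left_cancel₀ h (congrArg Prod.fst e)) (congrArg Prod.snd e :)

theorem matMu_mul (a b : ℂ) : matMu (a * b) = (matMu a).comp (matMu b) :=
  ContinuousLinearMap.ext fun x => Prod.ext (mul_assoc _ _ _) rfl

theorem Wn.mh (h : Wn a k) : MH (fun t => matMu (a t)) fun t => matMu (apxE (k * t)) := by
  obtain ⟨L, c, e, p⟩ := h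
  refine ⟨fun l t => matMu (exp ((1 - l) * L t + l * (2 * Real.pi * ((k * t : ℝ) : ℂ) * I))),
    matMu_cont.comp (by fun_prop), fun l t => ⟨?_, matMu_inj (exp_ne_zero _)⟩, ?_, ?_⟩
  · dsimp only
    refine congrArg matMu (exp_eq_exp_iff_exists_int.2 ⟨k, ?_⟩)
    rw [p]
    push_cast
    ring
  · funext t; simp [e]
  · funext t; simp [apxE]

/-- a block triangular loop with positive blocks is the multiplication by its first column -/
theorem mh_tri {A : ℝ → ℂ × ℝ →L[ℝ] ℂ × ℝ} (c : Continuous A) (per : ∀ t, A (t + 1) = A t)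
    (tri : ∀ t, (∀ x, (A t (x, 0)).2 = 0) ∨ (A t (0, 1)).1 = 0) (hd : ∀ t, 0 < (A t (0, 1)).2)
    (det : ∀ t, 0 < ((starRingEnd ℂ) (A t (1, 0)).1 * (A t (I, 0)).1).im) :
    MH A fun t => matMu (A t (1, 0)).1 := by
  have := MH.of_Icc (H := fun l t => (1 - l) • A t + l • matMu (A t (1, 0)).1)
    (((continuous_const.sub continuous_fst).smul (c.comp continuous_snd)).add
      (continuous_fst.smul (matMu_cont.comp (by fun_prop)))) fun l hl t => ⟨by simp only [per], ?_⟩
  · convert this using 1 <;> exact funext fun t => ContinuousLinearMap.ext fun x => by simp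
  refine (injective_iff_map_eq_zero _).2 fun x hx => ?_
  have dx : A t x = x.1.re • A t (1, 0) + x.1.im • A t (I, 0) + x.2 • A t (0, 1) := by
    rw [← map_smul, ← map_smul, ← map_smul, ← map_add, ← map_add]
    congr 1
    exact Prod.ext (by simp) (by simp)
  have h1 := congrArg Prod.fst hx
  have h2 := congrArg Prod.snd hx
  simp only [add_apply, smul_apply, matMu_apply, dx,
    Prod.fst_add, Prod.snd_add, Prod.smul_fst, Prod.smul_snd, smul_eq_mul, Prod.fst_zero,
    Prod.snd_zero, real_smul] at h1 h2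
  have hD := det t
  have d0 := hd t
  have l0 := hl.1
  have l1 := sub_nonneg.2 hl.2
  have pos : ∀ u v : ℝ, 0 < u → 0 < v → 0 < (1 - l) * u + l * v := fun u v hu hv => by
    rcases l0.eq_or_lt with h | h
    · rw [← h]; linarith
    · have := mul_nonneg l1 hu.le
      have := mul_pos h hv
      linarith
  have line : x.1.re * (A t (1, 0)).2 + x.1.im * (A t (I, 0)).2 = 0 → x.2 = 0 := fun h =>
    (mul_eq_zero.1 (show ((1 - l) * (A t (0, 1)).2 + l * 1) * x.2 = 0 by
      linear_combination h2 - (1 - l) * h)).resolve_left (pos _ _ d0 one_pos).ne'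
  have plane : (x.2 : ℂ) * (A t (0, 1)).1 = 0 → x.1 = 0 := fun h => by
    rw [h, add_zero] at h1
    have a0 : (A t (1, 0)).1 ≠ 0 := fun e => by simp [e] at hD
    have n0 := normSq_pos.2 a0
    have r := congrArg re h1
    have i := congrArg im h1
    simp only [add_re, add_im, mul_re, mul_im, ofReal_re, ofReal_im, zero_re, zero_im, conj_re,
      conj_im, normSq_apply] at r i hD n0
    have v : x.1.im = 0 := (mul_eq_zero.1 (show (_ : ℝ) * x.1.im = 0 by
      linear_combination (A t (1, 0)).1.re * i - (A t (1, 0)).1.im * r)).resolve_left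
        (pos _ _ hD n0).ne'
    rw [v] at r i
    exact Complex.ext ((mul_eq_zero.1 (show (_ : ℝ) * x.1.re = 0 by
      linear_combination (A t (1, 0)).1.re * r + (A t (1, 0)).1.im * i)).resolve_left n0.ne') v
  rcases tri t with h | h
  · have y := line (by rw [h, h]; ring)
    exact Prod.ext (plane (by rw [y]; simp)) y
  · have y := plane (by rw [h, mul_zero])
    exact Prod.ext y (line (by rw [y]; simp))

theorem mh_tri_wn {A : ℝ → ℂ × ℝ →L[ℝ] ℂ × ℝ} (c : Continuous A) (per : ∀ t, A (t + 1) = A t)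
    (tri : ∀ t, (∀ x, (A t (x, 0)).2 = 0) ∨ (A t (0, 1)).1 = 0) (hd : ∀ t, 0 < (A t (0, 1)).2)
    (det : ∀ t, 0 < ((starRingEnd ℂ) (A t (1, 0)).1 * (A t (I, 0)).1).im)
    (h : Wn (fun t => (A t (1, 0)).1) k) : MH A fun t => matMu (apxE (k * t)) :=
  (mh_tri c per tri hd det).trans h.mh

end Pool.Agent.Lib.MP_b2e238_gt
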