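import Pool.Agent.Lib.MP_b2e238_gt.K.Defs
import Pool.Agent.Lib.MP_b2e238_gt.K.Mat

/-! Homotopies of loops. -/

open scoped ContDiff Topology
open Set Metric

noncomputable section

namespace Pool.Agent.Lib.MP_b2e238_gt

variable {P : Type} [NormedAddCommGroup P] [NormedSpace ℝ P] [FiniteDimensional ℝ P]

section Hl
variable {A B C : Type} [TopologicalSpace A] [TopologicalSpace B] [TopologicalSpace C] {Y : Set A}
  {Y' : Set B} {Y'' : Set C} {γ γ' γ'' : ℝ → A}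

/-- A homotopy may be defined for all times. -/
theorem Hl.glob (h : Hl Y γ γ') : ∃ H : ℝ → ℝ → A, Continuous H.uncurry ∧
    (∀ l t, H l t ∈ Y ∧ H l (t + 1) = H l t) ∧ H 0 = γ ∧ H 1 = γ' := by
  obtain ⟨H, c, k, e0, e1⟩ := h
  exact ⟨fun l => H (projIcc (0 : ℝ) 1 zero_le_one l), c.comp_continuous
    ((continuous_subtype_val.comp ((continuous_projIcc (h := zero_le_one)).comp
      continuous_fst)).prodMk continuous_snd) fun q =>
      ⟨(projIcc (0 : ℝ) 1 zero_le_one q.1).2, mem_univ _⟩,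
    fun l => k _ (projIcc (0 : ℝ) 1 zero_le_one l).2, by simp only [projIcc_left, e0],
    by simp only [projIcc_right, e1]⟩

theorem hl_mk {H : ℝ → ℝ → A} (c : Continuous H.uncurry)
    (k : ∀ l ∈ Icc (0 : ℝ) 1, ∀ t, H l t ∈ Y ∧ H l (t + 1) = H l t) : Hl Y (H 0) (H 1) :=
  ⟨H, c.continuousOn, k, rfl, rfl⟩

theorem Hl.refl (c : Continuous γ) (m : ∀ t, γ t ∈ Y) (p : ∀ t, γ (t + 1) = γ t) : Hl Y γ γ :=
  hl_mk (H := fun _ => γ) (c.comp continuous_snd) fun _ _ t => ⟨m t, p t⟩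

theorem Hl.facts (h : Hl Y γ γ') : Continuous γ ∧ (∀ t, γ t ∈ Y) ∧ ∀ t, γ (t + 1) = γ t := by
  obtain ⟨H, c, k, rfl, -⟩ := h.glob
  exact ⟨c.comp (Continuous.prodMk_right 0), fun t => (k 0 t).1, fun t => (k 0 t).2⟩

theorem Hl.symm (h : Hl Y γ γ') : Hl Y γ' γ := by
  obtain ⟨H, c, k, e0, e1⟩ := h.glob
  exact ⟨fun l => H (1 - l),
    (c.comp (f := fun q : ℝ × ℝ => (1 - q.1, q.2)) (by fun_prop)).continuousOn,
    fun l _ => k _, by simp only [sub_zero, e1], by simp only [sub_self, e0]⟩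

theorem Hl.trans (h : Hl Y γ γ') (k : Hl Y γ' γ'') : Hl Y γ γ'' := by
  obtain ⟨H, c, m, e0, e1⟩ := h.glob
  obtain ⟨H', c', m', e0', e1'⟩ := k.glob
  refine ⟨fun l t => if l ≤ 1 / 2 then H (2 * l) t else H' (2 * l - 1) t,
    (Continuous.if_le (f' := fun q : ℝ × ℝ => H (2 * q.1) q.2)
      (g' := fun q : ℝ × ℝ => H' (2 * q.1 - 1) q.2)
      (c.comp (f := fun q : ℝ × ℝ => (2 * q.1, q.2)) (by fun_prop))
      (c'.comp (f := fun q : ℝ × ℝ => (2 * q.1 - 1, q.2)) (by fun_prop)) continuous_fst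
      continuous_const fun q h => by rw [h]; norm_num [e1, e0']).continuousOn,
    fun l _ t => ?_, ?_, ?_⟩
  · dsimp only
    split_ifs
    exacts [m _ t, m' _ t]
  · funext t; norm_num [e0]
  · funext t; norm_num [e1']

theorem Hl.map {f : A → B} (h : Hl Y γ γ') (c : ContinuousOn f Y) (m : MapsTo f Y Y') :
    Hl Y' (f ∘ γ) (f ∘ γ') := by
  obtain ⟨H, a, k, rfl, rfl⟩ := h.glob
  exact hl_mk (H := fun l => f ∘ H l) (c.comp_continuous a fun q => (k q.1 q.2).1)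
    fun l _ t => ⟨m (k l t).1, congrArg f (k l t).2⟩

theorem Hl.map₂ {f : A → B → C} {δ δ' : ℝ → B} (h : Hl Y γ γ') (k : Hl Y' δ δ')
    (c : ContinuousOn f.uncurry (Y ×ˢ Y')) (m : ∀ a ∈ Y, ∀ b ∈ Y', f a b ∈ Y'') :
    Hl Y'' (fun t => f (γ t) (δ t)) fun t => f (γ' t) (δ' t) := by
  obtain ⟨H, a, p, rfl, rfl⟩ := h.glob
  obtain ⟨H', a', p', rfl, rfl⟩ := k.glob
  exact hl_mk (H := fun l t => f (H l t) (H' l t))
    (c.comp_continuous (a.prodMk a') fun q => ⟨(p q.1 q.2).1, (p' q.1 q.2).1⟩)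
    fun l _ t => ⟨m _ (p l t).1 _ (p' l t).1, by simp only [(p l t).2, (p' l t).2]⟩

/-- Reparametrisations of degree one. -/
theorem Hl.repar (h : Hl Y γ γ') {s : ℝ → ℝ} (c : Continuous s) (p : ∀ t, s (t + 1) = s t + 1) :
    Hl Y γ (γ' ∘ s) := by
  obtain ⟨a, m, q⟩ := h.symm.facts
  refine h.trans ⟨fun l t => γ' ((1 - l) * t + l * s t), (a.comp (by fun_prop)).continuousOn,
    fun l _ t => ⟨m _, ?_⟩, funext fun t => by simp, funext fun t => by simp⟩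
  dsimp only
  rw [p, ← q ((1 - l) * t + l * s t)]
  congr 1
  ring

theorem Hl.shift (h : Hl Y γ γ') (s : ℝ) : Hl Y γ fun t => γ' (t + s) :=
  h.repar (s := fun t => t + s) (by fun_prop) fun t => by ring

theorem Hl.comp {α α' β β' : ℝ → P →L[ℝ] P} (h : Hl (Inj P) α α') (k : Hl (Inj P) β β') :
    Hl (Inj P) (fun t => α t ∘L β t) fun t => α' t ∘L β' t :=
  h.map₂ (f := fun a b : P →L[ℝ] P => a ∘L b) k (continuous_fst.clm_comp continuous_snd).continuousOn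
    fun _ ha _ hb _ _ e => hb (ha e)

theorem Hl.mu {g g' : ℝ → ℂ} (h : Hl {0}ᶜ g g') : Hl (Inj E3) (mu ∘ g) (mu ∘ g') :=
  h.map matMu_cont.continuousOn fun _ ha => matMu_inj ha

/-- A loop of winding number `k`. -/
theorem Wn.hl {g : ℝ → ℂ} {k : ℤ} (h : Wn g k) : Hl {0}ᶜ g fun t => ex (k * t) := by
  obtain ⟨L, c, e, p⟩ := h
  refine ⟨fun l t => Complex.exp ((1 - l) * L t + l * (2 * Real.pi * ((k * t : ℝ) : ℂ) * .I)),
    Continuous.continuousOn (by fun_prop), fun l _ t => ⟨Complex.exp_ne_zero _, ?_⟩, ?_, ?_⟩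
  · refine Complex.exp_eq_exp_iff_exists_int.2 ⟨k, ?_⟩
    rw [p]
    push_cast
    ring
  · funext t; simp [e]
  · funext t; simp [ex]

/-- Winding numbers. -/
theorem hl_wind {g : ℝ → ℂ} (c : Continuous g) (m : ∀ t, g t ≠ 0) (p : ∀ t, g (t + 1) = g t) :
    ∃ k : ℤ, Hl {0}ᶜ g fun t => ex (k * t) :=
  (exists_wn c m p).imp fun _ h => h.hl

theorem Hl.wn {g g' : ℝ → ℂ} {k : ℤ} (h : Hl {0}ᶜ g g') (w : Wn g k) : Wn g' k := by
  obtain ⟨H, c, m, rfl, rfl⟩ := h.glob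
  exact Wn.htpy (H := H.uncurry) c (fun l _ t => (m l t).1) (fun l _ t => (m l t).2) w

omit [FiniteDimensional ℝ P] in
theorem MH.hl {α β : ℝ → P →L[ℝ] P} (h : MH α β) : Hl (Inj P) α β := by
  obtain ⟨H, c, k, rfl, rfl⟩ := h
  exact hl_mk c fun l _ t => ⟨(k l t).2, (k l t).1⟩

/-- Block triangular loops with positive blocks. -/
theorem hl_tri {α : ℝ → E3 →L[ℝ] E3} {k : ℤ} (c : Continuous α) (p : ∀ t, α (t + 1) = α t)
    (tri : ∀ t, (∀ x, (α t (x, 0)).2 = 0) ∨ (α t (0, 1)).1 = 0) (d : ∀ t, 0 < (α t (0, 1)).2)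
    (det : ∀ t, 0 < ((starRingEnd ℂ) (α t (1, 0)).1 * (α t (.I, 0)).1).im)
    (h : Wn (fun t => (α t (1, 0)).1) k) : Hl (Inj E3) α fun t => mu (ex (k * t)) :=
  (mh_tri_wn c p tri d det h).hl

end Hl

end Pool.Agent.Lib.MP_b2e238_gt
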