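import Mathlib

/-! Inverses of injective local diffeomorphisms; retractions onto compact level sets. -/

open scoped ContDiff Topology Manifold
open Set Filter Function

namespace Pool.Agent.Lib.MP_b2e238_gt

variable {E F : Type*} [NormedAddCommGroup E] [NormedSpace ℝ E] [NormedAddCommGroup F]
  [NormedSpace ℝ F]

theorem nb_at [CompleteSpace E] {f : E → F} {a : E} (hf : ContDiffAt ℝ ∞ f a)
    (h : (fderiv ℝ f a).IsInvertible) : map f (𝓝 a) = 𝓝 (f a) ∧ (∃ u ∈ 𝓝 a, InjOn f u) ∧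
      ∀ g : F → E, (∀ᶠ x in 𝓝 a, g (f x) = x) → ContDiffAt ℝ ∞ g (f a) := by
  obtain ⟨e, he⟩ := h
  have d : HasFDerivAt f (e : E →L[ℝ] F) a := he ▸ (hf.differentiableAt (by simp)).hasFDerivAt
  have s := hf.hasStrictFDerivAt' d (by simp)
  refine ⟨s.map_nhds_eq_of_equiv, ⟨_, (s.toOpenPartialHomeomorph f).open_source.mem_nhds
    s.mem_toOpenPartialHomeomorph_source, (s.toOpenPartialHomeomorph f).injOn⟩, fun g k => ?_⟩
  exact (hf.to_localInverse d (by simp)).congr_of_eventuallyEq (s.localInverse_unique k)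

theorem nb_on [CompleteSpace E] {f : E → F} {U : Set E} (hU : IsOpen U)
    (hf : ContDiffOn ℝ ∞ f U) (h : ∀ a ∈ U, (fderiv ℝ f a).IsInvertible) :
    IsOpen (f '' U) ∧ ∀ g : F → E, (∀ x ∈ U, g (f x) = x) → ContDiffOn ℝ ∞ g (f '' U) := by
  have k := fun a (m : a ∈ U) => nb_at (hf.contDiffAt (hU.mem_nhds m)) (h a m)
  refine ⟨isOpen_iff_mem_nhds.2 ?_, fun g e => ?_⟩
  · rintro _ ⟨a, m, rfl⟩
    exact (k a m).1 ▸ image_mem_map (hU.mem_nhds m)
  · rintro _ ⟨a, m, rfl⟩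
    exact ((k a m).2.2 g (mem_of_superset (hU.mem_nhds m) e)).contDiffWithinAt

/-- A map with invertible derivative that is injective on a compact set is a diffeomorphism on a
neighbourhood. -/
theorem nb_inv [CompleteSpace E] {f : E → F} {W K : Set E} (hW : IsOpen W)
    (hf : ContDiffOn ℝ ∞ f W) (hK : IsCompact K) (hKW : K ⊆ W)
    (h : ∀ a ∈ K, (fderiv ℝ f a).IsInvertible) (hi : InjOn f K) :
    ∃ (U : Set E) (g : F → E), IsOpen U ∧ K ⊆ U ∧ U ⊆ W ∧ IsOpen (f '' U) ∧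
      ContDiffOn ℝ ∞ g (f '' U) ∧ (∀ x ∈ U, g (f x) = x) ∧
      ∀ x ∈ U, (fderiv ℝ f x).IsInvertible := by
  have k := fun a (m : a ∈ K) => hf.contDiffAt (hW.mem_nhds (hKW m))
  obtain ⟨T, hT, hKT, j⟩ := hi.exists_isOpen_superset hK (fun a m => (k a m).continuousAt)
    fun a m => (nb_at (k a m) (h a m)).2.1
  have o : IsOpen (W ∩ fderiv ℝ f ⁻¹' range ((↑) : (E ≃L[ℝ] F) → E →L[ℝ] F)) :=
    (hf.continuousOn_fderiv_of_isOpen hW (by simp)).isOpen_inter_preimage hW
      ContinuousLinearEquiv.isOpen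
  have e := nb_on (o.inter hT) (hf.mono fun _ m => m.1.1) fun _ m => m.1.2
  have l : ∀ x ∈ (W ∩ fderiv ℝ f ⁻¹' range ((↑) : (E ≃L[ℝ] F) → E →L[ℝ] F)) ∩ T,
      invFunOn f T (f x) = x := fun x m => j.leftInvOn_invFunOn m.2
  exact ⟨_, invFunOn f T, o.inter hT, fun a m => ⟨⟨hKW m, h a m⟩, hKT m⟩, fun _ m => m.1.1, e.1,
    e.2 _ l, l, fun _ m => m.1.2⟩

theorem isInvertible_of_inj [FiniteDimensional ℝ E] [FiniteDimensional ℝ F]
    (h : Module.finrank ℝ E = Module.finrank ℝ F) {A : E →L[ℝ] F} (k : Injective A) :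
    A.IsInvertible :=
  ⟨(LinearEquiv.ofBijective (A : E →ₗ[ℝ] F) ⟨k, (LinearMap.injective_iff_surjective_of_finrank_eq_finrank
    h).1 k⟩).toContinuousLinearEquiv, ContinuousLinearMap.ext fun _ => rfl⟩

/-- A smooth map near a closed set extends to the whole space. -/
theorem exists_glob [FiniteDimensional ℝ E] {f : E → F} {U K : Set E} (hU : IsOpen U)
    (hf : ContDiffOn ℝ ∞ f U) (hK : IsClosed K) (h : K ⊆ U) :
    ∃ g : E → F, ContDiff ℝ ∞ g ∧ ∀ᶠ x in 𝓝ˢ K, g x = f x := by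
  obtain ⟨χ, a, b, -⟩ := exists_contMDiffMap_zero_one_nhds_of_isClosed (n := ⊤) 𝓘(ℝ, E)
    hU.isClosed_compl hK (disjoint_compl_left_iff_subset.2 h)
  refine ⟨fun x => χ x • f x, contDiff_iff_contDiffAt.2 fun x => ?_, b.mono fun x e => by
    simp [e]⟩
  by_cases m : x ∈ U
  · exact χ.contMDiff.contDiff.contDiffAt.smul (hf.contDiffAt (hU.mem_nhds m))
  · refine (contDiffAt_const (c := 0)).congr_of_eventuallyEq ?_
    exact (a.filter_mono (nhds_le_nhdsSet m)).mono fun y e => by simp [e]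

/-- A transpose that depends linearly on the map. -/
theorem exists_tr [FiniteDimensional ℝ E] [FiniteDimensional ℝ F] :
    ∃ L : (E →L[ℝ] F) →L[ℝ] F →L[ℝ] E, ∀ A : E →L[ℝ] F, Surjective A →
      ∀ w, A (L A w) = 0 → w = 0 := by
  let a := toEuclidean (E := E)
  let b := toEuclidean (E := F)
  let L : (E →L[ℝ] F) →ₗ[ℝ] F →L[ℝ] E :=
    { toFun A := a.symm.toContinuousLinearMap ∘L ContinuousLinearMap.adjoint
        (b.toContinuousLinearMap ∘L A ∘L a.symm.toContinuousLinearMap) ∘L b.toContinuousLinearMap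
      map_add' A B := by simp
      map_smul' r A := by simp }
  refine ⟨LinearMap.toContinuousLinearMap L, fun A s w h => ?_⟩
  set B := b.toContinuousLinearMap ∘L A ∘L a.symm.toContinuousLinearMap
  have e : B (ContinuousLinearMap.adjoint B (b w)) = 0 := (congrArg b h).trans (map_zero _)
  have k : ContinuousLinearMap.adjoint B (b w) = 0 := by
    rw [← inner_self_eq_zero (𝕜 := ℝ), ContinuousLinearMap.adjoint_inner_left, e, inner_zero_right]
  obtain ⟨v, rfl⟩ := s w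
  have l : b (A v) = B (a v) := by simp [B]
  refine b.injective ((inner_self_eq_zero (𝕜 := ℝ)).1 ?_ |>.trans (map_zero _).symm)
  nth_rw 2 [l]
  rw [← ContinuousLinearMap.adjoint_inner_left, k, inner_zero_left]

/-- A smooth retraction onto a compact regular level set. -/
theorem exists_ret_on [FiniteDimensional ℝ E] [FiniteDimensional ℝ F] {g : E → F} {O : Set E}
    (hO : IsOpen O) (hg : ContDiffOn ℝ ∞ g O) (hA : IsCompact {y ∈ O | g y = 0})
    (hs : ∀ y ∈ O, g y = 0 → Surjective (fderiv ℝ g y)) :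
    ∃ (R : E → E) (U : Set E), ContDiff ℝ ∞ R ∧ IsOpen U ∧ (∀ y ∈ O, g y = 0 → y ∈ U) ∧
      (∀ x ∈ U, R x ∈ O ∧ g (R x) = 0) ∧ ∀ y ∈ O, g y = 0 → R y = y ∧
        ∀ v, fderiv ℝ g y v = 0 → fderiv ℝ R y v = v := by
  obtain ⟨L, hL⟩ := exists_tr (E := E) (F := F)
  have c : ContDiffOn ℝ ∞ (fun y => L (fderiv ℝ g y)) O :=
    L.contDiff.comp_contDiffOn (hg.fderiv_of_isOpen (m := ∞) hO (by simp))
  let Ψ : E × F → E × F := fun u => (u.1 + L (fderiv ℝ g u.1) u.2, g u.1)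
  have hΨ : ContDiffOn ℝ ∞ Ψ (O ×ˢ univ) :=
    (contDiffOn_fst.add ((c.comp contDiffOn_fst fun _ m => m.1).clm_apply contDiffOn_snd)).prodMk
      (hg.comp contDiffOn_fst fun _ m => m.1)
  have d : ∀ y ∈ O, ∀ u,
      fderiv ℝ Ψ (y, 0) u = (u.1 + L (fderiv ℝ g y) u.2, fderiv ℝ g y u.1) := by
    intro y m u
    have k : HasFDerivAt (Prod.fst : E × F → E) _ (y, 0) := hasFDerivAt_fst (𝕜 := ℝ)
    have k' := ((c.contDiffAt (hO.mem_nhds m)).differentiableAt (by simp)).hasFDerivAt.comp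
      (y, (0 : F)) k
    have e : HasFDerivAt Ψ _ (y, 0) := (k.add (k'.clm_apply hasFDerivAt_snd)).prodMk
      (((hg.contDiffAt (hO.mem_nhds m)).differentiableAt (by simp)).hasFDerivAt.comp (y, (0 : F)) k)
    rw [e.fderiv]
    simp
  obtain ⟨T, G, hT, hK, w, o, hG, l, -⟩ := nb_inv (hO.prod isOpen_univ) hΨ
    (hA.prod (isCompact_singleton (x := (0 : F)))) (fun _ m => ⟨m.1.1, trivial⟩) (by
      rintro ⟨y, _⟩ ⟨m, rfl⟩
      refine isInvertible_of_inj rfl ((injective_iff_map_eq_zero _).2 fun u e => ?_)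
      obtain ⟨p, q⟩ := Prod.ext_iff.1 ((d y m.1 u).symm.trans e)
      have r := hL _ (hs y m.1 m.2) u.2 (by
        simpa [show fderiv ℝ g y u.1 = 0 from q] using congrArg (fderiv ℝ g y) p)
      exact Prod.ext (by simpa [r] using p) r) (by
      rintro ⟨y, _⟩ ⟨-, rfl⟩ ⟨z, _⟩ ⟨-, rfl⟩ e
      exact Prod.ext (by simpa [Ψ] using congrArg Prod.fst e) rfl)
  have i : ContDiff ℝ ∞ fun x : E => (x, (0 : F)) := contDiff_id.prodMk contDiff_const
  have f : ∀ y, g y = 0 → Ψ (y, 0) = (y, 0) := fun y m => by simp [Ψ, m]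
  have j : ∀ y ∈ O, g y = 0 → (y, 0) ∈ T := fun y m m' => hK ⟨⟨m, m'⟩, rfl⟩
  have t : ∀ y ∈ O, g y = 0 → (y, 0) ∈ Ψ '' T := fun y m m' => ⟨_, j y m m', f y m'⟩
  obtain ⟨R, hR, e⟩ := exists_glob (f := fun x => (G (x, 0)).1) (o.preimage i.continuous)
    (hG.comp i.contDiffOn fun _ m => m).fst hA.isClosed fun y m => t y m.1 m.2
  obtain ⟨U, hU, a, b⟩ := mem_nhdsSet_iff_exists.1 e
  refine ⟨R, U ∩ _, hR, hU.inter (o.preimage i.continuous), fun y m m' => ⟨a ⟨m, m'⟩, t y m m'⟩,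
    ?_, fun y m m' => ⟨?_, fun v n => ?_⟩⟩
  · rintro x ⟨p, u, q, r⟩
    rw [b p, show (x, 0) = Ψ u from r.symm, l u q]
    exact ⟨(w q).1, congrArg Prod.snd r⟩
  · rw [b (a ⟨m, m'⟩), ← f y m', l _ (j y m m')]
  · have p := ((hG.contDiffAt (o.mem_nhds (t y m m'))).differentiableAt (by simp)).hasFDerivAt
    have q : HasFDerivAt (G ∘ Ψ) _ (y, 0) := HasFDerivAt.comp (y, 0) ((f y m').symm ▸ p)
      ((hΨ.contDiffAt ((hO.prod isOpen_univ).mem_nhds ⟨m, trivial⟩)).differentiableAt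
        (by simp)).hasFDerivAt
    have r := q.unique ((hasFDerivAt_id _).congr_of_eventuallyEq
      (mem_of_superset (hT.mem_nhds (j y m m')) l))
    have s := p.comp (f := fun x : E => (x, (0 : F))) y
      ((hasFDerivAt_id y).prodMk (hasFDerivAt_const (0 : F) y))
    have s : HasFDerivAt R _ y := s.fst.congr_of_eventuallyEq
      (mem_of_superset (hU.mem_nhds (a ⟨m, m'⟩)) b)
    rw [s.fderiv]
    simpa [d y m, n, f y m'] using congrArg (fun A => (A (v, 0)).1) r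

/-- The same for a globally smooth map and the level `c`. -/
theorem exists_ret [FiniteDimensional ℝ E] [FiniteDimensional ℝ F] {g : E → F} {c : F}
    (hg : ContDiff ℝ ∞ g) (hA : IsCompact {y | g y = c})
    (hs : ∀ y, g y = c → Surjective (fderiv ℝ g y)) :
    ∃ (R : E → E) (U : Set E), ContDiff ℝ ∞ R ∧ IsOpen U ∧ (∀ y, g y = c → y ∈ U) ∧
      (∀ x ∈ U, g (R x) = c) ∧ ∀ y, g y = c → R y = y ∧
        ∀ v, fderiv ℝ g y v = 0 → fderiv ℝ R y v = v := by
  simpa only [sub_eq_zero, fderiv_sub_const, mem_univ, true_and, forall_const] using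
    exists_ret_on (g := fun y => g y - c) isOpen_univ (hg.sub contDiff_const).contDiffOn
      (by simpa only [sub_eq_zero, mem_univ, true_and] using hA)
      (by simpa only [sub_eq_zero, fderiv_sub_const, mem_univ, forall_const] using hs)

/-- A smooth coframe for a frame of the tangent spaces of a regular level set. -/
theorem exists_co [FiniteDimensional ℝ E] [FiniteDimensional ℝ F] {P : Type*}
    [NormedAddCommGroup P] [NormedSpace ℝ P] [FiniteDimensional ℝ P] {g : E → F} {c : F}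
    (hg : ContDiff ℝ ∞ g) (hs : ∀ y, g y = c → Surjective (fderiv ℝ g y)) {τ : E → P →L[ℝ] E}
    (hτ : ContDiff ℝ ∞ τ) (hi : ∀ y, g y = c → Injective (τ y))
    (h0 : ∀ y, g y = c → ∀ x, fderiv ℝ g y (τ y x) = 0)
    (hd : Module.finrank ℝ P + Module.finrank ℝ F = Module.finrank ℝ E) :
    ∃ κ : E → E →L[ℝ] P, ContDiff ℝ ∞ κ ∧ ∀ y, g y = c → (∀ x, κ y (τ y x) = x) ∧
      ∀ v, fderiv ℝ g y v = 0 → τ y (κ y v) = v := by
  obtain ⟨L, hL⟩ := exists_tr (E := E) (F := F)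
  let M : E → P × F →L[ℝ] E := fun y => τ y ∘L .fst ℝ P F + L (fderiv ℝ g y) ∘L .snd ℝ P F
  have hM : ContDiff ℝ ∞ M := (hτ.clm_comp contDiff_const).add
    ((L.contDiff.comp (hg.fderiv_right (m := ∞) (by simp))).clm_comp contDiff_const)
  have z : ∀ y, g y = c → ∀ u, fderiv ℝ g y (M y u) = 0 → u.2 = 0 := fun y m u e =>
    hL _ (hs y m) _ (by simpa [M, h0 y m] using e)
  have i : ∀ y, g y = c → (M y).IsInvertible := fun y m =>
    isInvertible_of_inj (Module.finrank_prod.trans hd) ((injective_iff_map_eq_zero _).2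
      fun u e => by
        have k := z y m u (by rw [e, map_zero])
        exact Prod.ext (hi y m (by simpa [M, k] using e)) k)
  obtain ⟨κ, hκ, e⟩ := exists_glob (f := fun y => .fst ℝ P F ∘L (M y).inverse)
    (ContinuousLinearEquiv.isOpen.preimage hM.continuous) (fun y m =>
      (contDiffAt_const.clm_comp ((ContinuousLinearMap.IsInvertible.contDiffAt_map_inverse
        m).comp y hM.contDiffAt)).contDiffWithinAt)
    (isClosed_eq hg.continuous continuous_const) i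
  refine ⟨κ, hκ, fun y m => ?_⟩
  have k : ∀ x, κ y (τ y x) = x := fun x => by
    rw [e.self_of_nhdsSet y m]
    exact congrArg Prod.fst (((i y m).inverse_apply_eq (x := (x, 0))).2 (by simp [M]))
  refine ⟨k, fun v n => ?_⟩
  obtain ⟨a, ha⟩ := i y m
  obtain ⟨u, rfl⟩ := a.surjective v
  have l : a u = M y u := congrArg (· u) ha
  have p : a u = τ y u.1 := by simp [l, M, z y m u (l ▸ n)]
  rw [p, k]

theorem surj_prod {A : E →L[ℝ] F} {B : E →L[ℝ] ℝ} (h : Surjective A) {v : E} (a : A v = 0)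
    (b : B v ≠ 0) : Surjective (A.prod B) := fun (w, r) => by
  obtain ⟨u, rfl⟩ := h w
  exact ⟨u + ((r - B u) / B v) • v, by simp [a, b]⟩

end Pool.Agent.Lib.MP_b2e238_gt
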