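import Pool.Agent.Lib.MP_b2e238_gt.K.Defs
import Pool.Agent.Lib.MP_b2e238_gt.K.NbInv

/-! Compact regular level sets. -/

open scoped ContDiff Topology
open Set Metric

noncomputable section

namespace Pool.Agent.Lib.MP_b2e238_gt

variable {P V W : Type} [NormedAddCommGroup P] [NormedSpace ℝ P] [NormedAddCommGroup V]
  [NormedSpace ℝ V] [NormedAddCommGroup W] [NormedSpace ℝ W] [FiniteDimensional ℝ P]
  [FiniteDimensional ℝ V] [FiniteDimensional ℝ W]

/-- Regular level sets are submanifolds. -/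
theorem lev_mf {g : V → W} {M O : Set V} (o : IsOpen O) (c : ContDiffOn ℝ ∞ g O)
    (e : M = {a ∈ O | g a = 0}) (s : ∀ a ∈ M, Function.Surjective (fderiv ℝ g a))
    (d : Module.finrank ℝ P + Module.finrank ℝ W = Module.finrank ℝ V) : Mf P M := by
  subst e
  intro a m
  have n := (fderiv ℝ g a : V →ₗ[ℝ] W).finrank_range_add_finrank_ker
  rw [LinearMap.range_eq_top.2 (s a m), finrank_top] at n
  obtain ⟨π, hπ⟩ := (LinearEquiv.ofFinrankEq (R := ℝ) (fderiv ℝ g a : V →ₗ[ℝ] W).ker P
    (by omega)).toLinearMap.exists_extend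
  let p := LinearMap.toContinuousLinearMap π
  have D := p.hasFDerivAt.prodMk
    ((c.contDiffAt (o.mem_nhds m.1)).differentiableAt (by simp)).hasFDerivAt
  obtain ⟨U, G, hU, hK, w, o', hG, l, -⟩ := nb_inv (f := fun x => (p x, g x)) o
    (p.contDiff.contDiffOn.prodMk c) (isCompact_singleton (x := a)) (singleton_subset_iff.2 m.1)
    (by
      rintro _ rfl
      rw [D.fderiv]
      refine isInvertible_of_inj (d.symm.trans Module.finrank_prod.symm)
        ((injective_iff_map_eq_zero _).2 fun v h => ?_)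
      exact congrArg Subtype.val ((LinearEquiv.map_eq_zero_iff _).1
        ((LinearMap.congr_fun hπ ⟨v, congrArg Prod.snd h⟩).symm.trans (congrArg Prod.fst h))))
    (injOn_singleton _ _)
  have i : ContDiff ℝ ∞ fun x : P => (x, (0 : W)) := contDiff_id.prodMk contDiff_const
  have k : ∀ x, (x, (0 : W)) ∈ (fun x => (p x, g x)) '' U →
      G (x, 0) ∈ U ∧ p (G (x, 0)) = x ∧ g (G (x, 0)) = 0 := by
    rintro x ⟨u, q, r⟩
    rw [← r, l u q]
    exact ⟨q, Prod.ext_iff.1 r⟩
  have z : ∀ x ∈ U, g x = 0 → G (p x, 0) = x := fun x q r => by rw [← r, l x q]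
  have b := hG.comp i.contDiffOn fun _ m => m
  refine ⟨fun x => G (x, 0), _, ⟨o'.preimage i.continuous, b, fun x q y r h => ?_,
    fun x q => ⟨w (k x q).1, (k x q).2.2⟩, fun x q => ⟨?_, fun N hN => ?_⟩⟩, p a,
      ⟨a, hK rfl, Prod.ext rfl m.2⟩, z a (hK rfl) m.2⟩
  · rw [← (k x q).2.1, ← (k y r).2.1]
    exact congrArg p h
  · have t := (o'.preimage i.continuous).mem_nhds q
    have r := (p.hasFDerivAt.comp x ((b.contDiffAt t).differentiableAt (by simp)).hasFDerivAt).unique
      ((hasFDerivAt_id x).congr_of_eventuallyEq (Filter.mem_of_superset t fun y h => (k y h).2.1))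
    exact Function.LeftInverse.injective (g := p) fun v => congrArg (· v) r
  · refine mem_nhdsWithin_iff_exists_mem_nhds_inter.2 ⟨U ∩ p ⁻¹' N, Filter.inter_mem
      (hU.mem_nhds (k x q).1) (p.continuous.continuousAt.preimage_mem_nhds ?_),
        fun y h => ⟨p y, h.1.2, z y h.1.1 h.2.2⟩⟩
    rwa [(k x q).2.1]

theorem level_on {g : V → W} {M O : Set V} (o : IsOpen O) (c : ContDiffOn ℝ ∞ g O)
    (e : M = {a ∈ O | g a = 0}) (k : IsCompact M)
    (s : ∀ a ∈ M, Function.Surjective (fderiv ℝ g a))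
    (d : Module.finrank ℝ P + Module.finrank ℝ W = Module.finrank ℝ V) :
    Mf P M ∧ Rt M ∧ ∀ a ∈ M, Tan M a = {v | fderiv ℝ g a v = 0} := by
  refine ⟨lev_mf o c e s d, ?_⟩
  subst e
  obtain ⟨R, U, a, b, h, i, j⟩ := exists_ret_on o c k fun y m m' => s y ⟨m, m'⟩
  refine ⟨⟨U, R, b, fun y m => h y m.1 m.2, a.contDiffOn, i, fun y m => (j y m.1 m.2).1⟩,
    fun y m => Subset.antisymm ?_ fun v n => ?_⟩
  · rintro v ⟨γ, p, rfl, q⟩
    exact (((c.contDiffAt (o.mem_nhds m.1)).differentiableAt (by simp)).hasFDerivAt.comp_hasDerivAt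
      0 p).unique ((hasDerivAt_const (0 : ℝ) (0 : W)).congr_of_eventuallyEq
        (q.mono fun _ r => r.2))
  · have p : HasDerivAt (fun t : ℝ => y + t • v) v 0 := by
      simpa using ((hasDerivAt_id (0 : ℝ)).smul_const v).const_add y
    have z : y = y + (0 : ℝ) • v := by simp
    refine ⟨fun t => R (y + t • v), ((a.differentiable (by simp) y).hasFDerivAt.comp_hasDerivAt_of_eq
      0 p z).congr_deriv ((j y m.1 m.2).2 v n), (congrArg R z.symm).trans (j y m.1 m.2).1, ?_⟩
    exact Filter.mem_of_superset (p.continuousAt.preimage_mem_nhds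
      (b.mem_nhds (z ▸ h y m.1 m.2))) fun t r => i _ r

theorem level {g : V → W} {M : Set V} {w : W} (c : ContDiff ℝ ∞ g)
    (e : ∀ a, a ∈ M ↔ g a = w) (k : IsCompact M)
    (s : ∀ a ∈ M, Function.Surjective (fderiv ℝ g a))
    (d : Module.finrank ℝ P + Module.finrank ℝ W = Module.finrank ℝ V) :
    Mf P M ∧ Rt M ∧ ∀ a ∈ M, Tan M a = {v | fderiv ℝ g a v = 0} := by
  simpa only [fderiv_sub_const] using level_on (g := fun a => g a - w) isOpen_univ
    (c.sub contDiff_const).contDiffOn (Set.ext fun a => by simp [e, sub_eq_zero]) k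
    (by simpa only [fderiv_sub_const] using s) d

end Pool.Agent.Lib.MP_b2e238_gt
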