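import Pool.Agent.Lib.MP_b2e238_gt.Defs

/-! Inverses of parametrisations, maps near the identity, cut-off. -/

open scoped ContDiff Topology
open Set Function Filter Module

namespace Pool.Agent.Lib.MP_b2e238_gt

variable {P V E Λ : Type} [NormedAddCommGroup P] [NormedSpace ℝ P] [NormedAddCommGroup V]
  [NormedSpace ℝ V] [NormedAddCommGroup E] [NormedSpace ℝ E] [NormedAddCommGroup Λ]
  [NormedSpace ℝ Λ]

/-- An immersion has a smooth local left inverse. -/
theorem left_inv_at [FiniteDimensional ℝ P] [FiniteDimensional ℝ V] {φ : P → V} {u : P}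
    (h : ContDiffAt ℝ ∞ φ u) (hd : Injective (fderiv ℝ φ u)) :
    ∃ g : V → P, ContDiffAt ℝ ∞ g (φ u) ∧ ∀ᶠ x in 𝓝 u, g (φ x) = x := by
  have := FiniteDimensional.complete ℝ P
  obtain ⟨L, hL⟩ := (fderiv ℝ φ u).toLinearMap.exists_leftInverse_of_injective
    (LinearMap.ker_eq_bot.2 hd)
  let M : V →L[ℝ] P := L.toContinuousLinearMap
  have a : ContDiffAt ℝ ∞ (M ∘ φ) u := M.contDiff.contDiffAt.comp u h
  have b : HasFDerivAt (M ∘ φ) ((ContinuousLinearEquiv.refl ℝ P : P ≃L[ℝ] P) : P →L[ℝ] P) u := by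
    convert M.hasFDerivAt.comp u (h.differentiableAt (by simp)).hasFDerivAt
    ext x
    exact (LinearMap.congr_fun hL x).symm
  refine ⟨a.localInverse b (by simp) ∘ M, ContDiffAt.comp _ (a.to_localInverse b (by simp))
    M.contDiff.contDiffAt, ?_⟩
  exact (a.hasStrictFDerivAt' b (by simp)).eventually_left_inverse

/-- The inverse of a parametrisation is smooth on the image. -/
theorem Par.inv [FiniteDimensional ℝ P] [FiniteDimensional ℝ V] {A : Set V} {φ : P → V}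
    {U : Set P} (h : Par A φ U) : ContDiffOn ℝ ∞ (invFunOn φ U) (φ '' U) := by
  rintro _ ⟨u, hu, rfl⟩
  obtain ⟨h1, h2, h3, h4, h5⟩ := h
  have n := h1.mem_nhds hu
  obtain ⟨g, a, b⟩ := left_inv_at (h2.contDiffAt n) (h5 u hu).1
  have e : ∀ᶠ y in 𝓝[φ '' U] φ u, invFunOn φ U y = g y := by
    refine mem_of_superset (nhdsWithin_mono _ h4.image_subset ((h5 u hu).2 _ (inter_mem n b))) ?_
    rintro _ ⟨x, hx, rfl⟩
    exact (h3.leftInvOn_invFunOn hx.1).trans hx.2.symm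
  exact a.contDiffWithinAt.congr_of_eventuallyEq_of_mem e ⟨u, hu, rfl⟩

/-- The image of a parametrisation is relatively open. -/
theorem Par.open {A : Set V} {φ : P → V} {U : Set P} (h : Par A φ U) :
    ∃ O, IsOpen O ∧ φ '' U = O ∩ A := by
  have e (u : U) : ∃ O, IsOpen O ∧ φ u ∈ O ∧ O ∩ A ⊆ φ '' U :=
    mem_nhdsWithin.1 ((h.2.2.2.2 u u.2).2 U (h.1.mem_nhds u.2))
  choose O a b c using e
  refine ⟨⋃ u, O u, isOpen_iUnion a, Subset.antisymm ?_ ?_⟩
  · rintro _ ⟨u, hu, rfl⟩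
    exact ⟨mem_iUnion.2 ⟨⟨u, hu⟩, b _⟩, h.2.2.2.1 hu⟩
  · rintro y ⟨k, l⟩
    obtain ⟨u, k⟩ := mem_iUnion.1 k
    exact c u ⟨k, l⟩

theorem Par.mono {A : Set V} {φ : P → V} {U U' : Set P} (h : Par A φ U) (o : IsOpen U')
    (s : U' ⊆ U) : Par A φ U' :=
  ⟨o, h.2.1.mono s, h.2.2.1.mono s, h.2.2.2.1.mono_left s, fun u a => h.2.2.2.2 u (s a)⟩

/-- An injective immersion between spaces of equal dimension parametrises an open set. -/
theorem par_univ [FiniteDimensional ℝ P] [FiniteDimensional ℝ V] (e : finrank ℝ P = finrank ℝ V)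
    {φ : P → V} {U : Set P} (hU : IsOpen U) (h : ContDiffOn ℝ ∞ φ U) (hi : InjOn φ U)
    (hd : ∀ u ∈ U, Injective (fderiv ℝ φ u)) : Par univ φ U := by
  have := FiniteDimensional.complete ℝ P
  refine ⟨hU, h, hi, mapsTo_univ _ _, fun u hu => ⟨hd u hu, fun N hN => ?_⟩⟩
  have a := h.contDiffAt (hU.mem_nhds hu)
  let L : P ≃L[ℝ] V := (LinearEquiv.ofBijective (fderiv ℝ φ u).toLinearMap ⟨hd u hu,
    (LinearMap.injective_iff_surjective_of_finrank_eq_finrank e).1 (hd u hu)⟩).toContinuousLinearEquiv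
  have b : HasFDerivAt φ (L : P →L[ℝ] V) u := (a.differentiableAt (by simp)).hasFDerivAt
  rw [nhdsWithin_univ, ← (a.hasStrictFDerivAt' b (by simp)).map_nhds_eq_of_equiv]
  exact image_mem_map hN

theorem inv_on [FiniteDimensional ℝ P] [FiniteDimensional ℝ V] (e : finrank ℝ P = finrank ℝ V)
    {φ : P → V} {U : Set P} (hU : IsOpen U) (h : ContDiffOn ℝ ∞ φ U) (hi : InjOn φ U)
    (hd : ∀ u ∈ U, Injective (fderiv ℝ φ u)) :
    IsOpen (φ '' U) ∧ ContDiffOn ℝ ∞ (invFunOn φ U) (φ '' U) := by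
  have p := par_univ e hU h hi hd
  obtain ⟨O, a, b⟩ := p.open
  exact ⟨by rwa [b, inter_univ], p.inv⟩

theorem inj_of_near {L : E →L[ℝ] E} (h : ‖L - 1‖ < 1) : Injective L := by
  refine (injective_iff_map_eq_zero L).2 fun x hx => ?_
  by_contra n
  have := (L - 1).le_opNorm x
  rw [sub_apply, hx, zero_sub, norm_neg, one_apply_eq_self] at this
  exact (this.trans_lt (mul_lt_of_lt_one_left (norm_pos_iff.2 n) h)).false

theorem bij_of_near [FiniteDimensional ℝ E] {f : E → E} (h : Differentiable ℝ f) {c : ℝ}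
    (hc : c < 1) (hd : ∀ x, ‖fderiv ℝ f x - 1‖ ≤ c) : Bijective f := by
  have := FiniteDimensional.complete ℝ E
  lift c to NNReal using (norm_nonneg _).trans (hd 0)
  have a : ApproximatesLinearOn f ((ContinuousLinearEquiv.refl ℝ E : E ≃L[ℝ] E) : E →L[ℝ] E)
      univ c := fun x _ y _ =>
    convex_univ.norm_image_sub_le_of_norm_fderiv_le' (fun x _ => h x) (fun x _ => hd x)
      (mem_univ y) (mem_univ x)
  refine (a.toHomeomorph f ?_).bijective
  rcases subsingleton_or_nontrivial E with s | s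
  · exact Or.inl s
  · refine Or.inr ?_
    simpa using hc

/-- Maps near the identity, with parameters. -/
theorem near_id_par [FiniteDimensional ℝ E] [FiniteDimensional ℝ Λ] {F : Λ × E → E} {O : Set Λ}
    (hO : IsOpen O) (h : ContDiffOn ℝ ∞ F (O ×ˢ univ))
    (hd : ∀ l ∈ O, ∃ c < 1, ∀ x, ‖fderiv ℝ (fun x => F (l, x)) x - 1‖ ≤ c) :
    ∃ G : Λ × E → E, ContDiffOn ℝ ∞ G (O ×ˢ univ) ∧
      ∀ l ∈ O, ∀ x, G (l, F (l, x)) = x ∧ F (l, G (l, x)) = x := by
  have o : IsOpen (O ×ˢ (univ : Set E)) := hO.prod isOpen_univ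
  have d (l) (hl : l ∈ O) (x) : DifferentiableAt ℝ F (l, x) :=
    (h.contDiffAt (o.mem_nhds ⟨hl, trivial⟩)).differentiableAt (by simp)
  have d' (l) (hl : l ∈ O) (x) : HasFDerivAt (fun x => F (l, x))
      ((fderiv ℝ F (l, x)).comp (.inr ℝ Λ E)) x :=
    (d l hl x).hasFDerivAt.comp x (hasFDerivAt_prodMk_right l x)
  have b (l) (hl : l ∈ O) : Bijective fun x => F (l, x) := by
    obtain ⟨c, hc, k⟩ := hd l hl
    exact bij_of_near (fun x => (d' l hl x).differentiableAt) hc k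
  let Φ : Λ × E → Λ × E := fun u => (u.1, F u)
  have i : InjOn Φ (O ×ˢ univ) := fun ⟨l, x⟩ hu ⟨l', x'⟩ _ e => by
    obtain rfl : l = l' := congrArg Prod.fst e
    rw [(b l hu.1).1 (congrArg Prod.snd e)]
  have m : Φ '' (O ×ˢ univ) = O ×ˢ univ := Subset.antisymm
    (by rintro _ ⟨u, hu, rfl⟩; exact ⟨hu.1, trivial⟩) fun ⟨l, y⟩ hu => by
      obtain ⟨x, e⟩ := (b l hu.1).2 y
      exact ⟨(l, x), hu, Prod.ext rfl e⟩
  have s := (inv_on rfl o (contDiffOn_fst.prodMk h) i fun ⟨l, x⟩ hu => by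
    rw [(hasFDerivAt_fst.prodMk (d l hu.1 x).hasFDerivAt).fderiv]
    refine (injective_iff_map_eq_zero _).2 fun ⟨a, w⟩ e => ?_
    obtain rfl : a = 0 := congrArg Prod.fst e
    obtain ⟨c, hc, k⟩ := hd l hu.1
    have := inj_of_near ((k x).trans_lt hc)
    rw [(d' l hu.1 x).fderiv] at this
    rw [this.eq_iff' (map_zero _) |>.1 (congrArg Prod.snd e)]
    rfl).2
  have li (l) (hl : l ∈ O) (x) : invFunOn Φ (O ×ˢ univ) (l, F (l, x)) = (l, x) :=
    i.leftInvOn_invFunOn (show (l, x) ∈ O ×ˢ univ from ⟨hl, trivial⟩)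
  refine ⟨fun u => (invFunOn Φ (O ×ˢ univ) u).2, (m ▸ s).snd, fun l hl x =>
    ⟨congrArg Prod.snd (li l hl x), ?_⟩⟩
  obtain ⟨y, rfl⟩ := (b l hl).2 x
  simp only [li l hl y]

/-- Maps near the identity. -/
theorem near_id [FiniteDimensional ℝ E] {f : E → E} (h : ContDiff ℝ ∞ f) {c : ℝ} (hc : c < 1)
    (hd : ∀ x, ‖fderiv ℝ f x - 1‖ ≤ c) :
    ∃ g : E → E, ContDiff ℝ ∞ g ∧ ∀ x, g (f x) = x ∧ f (g x) = x := by
  obtain ⟨G, a, b⟩ := near_id_par (Λ := ℝ) (F := fun u => f u.2) isOpen_univ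
    (h.comp contDiff_snd).contDiffOn fun _ _ => ⟨c, hc, hd⟩
  rw [univ_prod_univ, contDiffOn_univ] at a
  exact ⟨fun x => G (0, x), a.comp (contDiff_prodMk_right 0), b 0 trivial⟩

/-- Cut-off: a family of maps that is the identity at `l₀` extends, near `l₀`, from a compact set
to a family of diffeomorphisms with support in a given open set. -/
theorem cut_off [FiniteDimensional ℝ E] [FiniteDimensional ℝ Λ] {F : Λ × E → E} {W : Set (Λ × E)}
    (hW : IsOpen W) (h : ContDiffOn ℝ ∞ F W) {l₀ : Λ} {K U : Set E} (hK : IsCompact K)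
    (hU : IsOpen U) (KU : K ⊆ U) (UW : ∀ x ∈ U, (l₀, x) ∈ W) (h0 : ∀ x ∈ U, F (l₀, x) = x) :
    ∃ (O : Set Λ) (N C : Set E) (H G : Λ × E → E), IsOpen O ∧ l₀ ∈ O ∧ IsOpen N ∧ K ⊆ N ∧ N ⊆ C ∧
      IsCompact C ∧ C ⊆ U ∧ O ×ˢ C ⊆ W ∧ ContDiffOn ℝ ∞ H (O ×ˢ univ) ∧
      ContDiffOn ℝ ∞ G (O ×ˢ univ) ∧ (∀ x, H (l₀, x) = x) ∧ ∀ l ∈ O, ∀ x,
        G (l, H (l, x)) = x ∧ H (l, G (l, x)) = x ∧ (x ∈ N → H (l, x) = F (l, x)) ∧
          (x ∉ C → H (l, x) = x) ∧ (F (l, x) = x → H (l, x) = x) := by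
  obtain ⟨C₁, c1, c2, c3⟩ := exists_compact_between hK hU KU
  obtain ⟨C, e1, e2, e3⟩ := exists_compact_between c1 hU c3
  obtain ⟨χ, χ1, -, χ2, χ3⟩ := exists_contMDiff_zero_iff_one_iff_of_isClosed (n := ⊤)
    (modelWithCornersSelf ℝ E) isOpen_interior.isClosed_compl c1.isClosed
    (disjoint_compl_left_iff_subset.2 e2)
  have χ0 : ContDiff ℝ ∞ χ := χ1.contDiff
  let H : Λ × E → E := fun u => u.2 + χ u.2 • (F u - u.2)
  have out (l x) (k : x ∉ C) : H (l, x) = x := by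
    simp [H, (χ2 x).1 fun a => k (interior_subset a)]
  have H0 (x) : H (l₀, x) = x := by
    by_cases k : x ∈ C
    · simp [H, h0 x (e3 k)]
    · exact out _ _ k
  have sm (u) (k : u ∈ W) : ContDiffAt ℝ ∞ H u := contDiffAt_snd.add
    ((χ0.contDiffAt.comp u contDiffAt_snd).smul ((h.contDiffAt (hW.mem_nhds k)).sub contDiffAt_snd))
  have par (l x) (k : (l, x) ∈ W) : fderiv ℝ (fun x => H (l, x)) x =
      (fderiv ℝ H (l, x)).comp (.inr ℝ Λ E) :=
    (((sm _ k).differentiableAt (by simp)).hasFDerivAt.comp x (hasFDerivAt_prodMk_right l x)).fderiv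
  have ev : ∀ᶠ l in 𝓝 l₀, ∀ x ∈ C, (l, x) ∈ W ∧
      ‖(fderiv ℝ H (l, x)).comp (.inr ℝ Λ E) - 1‖ < 1 / 2 := by
    refine e1.eventually_forall_of_forall_eventually fun x k => ?_
    have w := UW x (e3 k)
    have c : ContinuousAt (fun u => ‖(fderiv ℝ H u).comp (.inr ℝ Λ E) - 1‖) (l₀, x) :=
      ((((sm _ w).fderiv_right (m := 0) (by simp)).continuousAt.clm_comp
        continuousAt_const).sub continuousAt_const).norm
    refine Eventually.and (hW.mem_nhds w) (c.eventually_lt continuousAt_const ?_)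
    rw [← par _ _ w, show (fun x => H (l₀, x)) = id from funext H0, fderiv_id]
    simp [ContinuousLinearMap.one_def]
  obtain ⟨O, o1, o2, o3⟩ := eventually_nhds_iff.1 ev
  have oc := e1.isClosed.isOpen_compl
  have sH : ContDiffOn ℝ ∞ H (O ×ˢ univ) := fun ⟨l, x⟩ k => by
    refine ContDiffAt.contDiffWithinAt ?_
    by_cases a : x ∈ C
    · exact sm _ (o1 l k.1 x a).1
    · refine contDiffAt_snd.congr_of_eventuallyEq ?_
      filter_upwards [continuousAt_snd.eventually_mem (oc.mem_nhds a)] with u b using out u.1 u.2 b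
  obtain ⟨G, g1, g2⟩ := near_id_par o2 sH fun l k => ⟨1 / 2, by norm_num, fun x => by
    by_cases a : x ∈ C
    · rw [par _ _ (o1 l k x a).1]
      exact (o1 l k x a).2.le
    · have : (fun x => H (l, x)) =ᶠ[𝓝 x] id := by
        filter_upwards [oc.mem_nhds a] with y b using out l y b
      rw [this.fderiv_eq, fderiv_id]
      simp [ContinuousLinearMap.one_def]⟩
  refine ⟨O, interior C₁, C, H, G, o2, o3, isOpen_interior, c2,
    interior_subset.trans (e2.trans interior_subset), e1, e3, fun u k => (o1 u.1 k.1 u.2 k.2).1,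
    sH, g1, H0, fun l k x => ⟨(g2 l k x).1, (g2 l k x).2, fun a => ?_, out l x, fun a => ?_⟩⟩
  · simp [H, (χ3 x).1 (interior_subset a)]
  · simp [H, a]

end Pool.Agent.Lib.MP_b2e238_gt
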