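import Pool.Agent.Lib.MP_b2e238_gt.K.Dif
import Pool.Agent.Lib.MP_b2e238_gt.K.Inv

/-! Charts of subsets of normed spaces. -/

open scoped ContDiff Topology
open Set Metric Function Filter

noncomputable section

namespace Pool.Agent.Lib.MP_b2e238_gt

variable {P Q V W Z : Type} [NormedAddCommGroup P] [NormedSpace ℝ P] [NormedAddCommGroup Q]
  [NormedSpace ℝ Q] [NormedAddCommGroup V] [NormedSpace ℝ V] [NormedAddCommGroup W]
  [NormedSpace ℝ W] [NormedAddCommGroup Z] [NormedSpace ℝ Z]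

variable {A M : Set V} {B M' : Set W} {F : V → W} {G : W → V} {φ : P → V} {U U' : Set P}

theorem Par.congr {φ' : P → V} (h : Par M φ U) (e : EqOn φ' φ U) : Par M φ' U := by
  obtain ⟨h1, h2, h3, h4, h5⟩ := h
  refine ⟨h1, h2.congr e, h3.congr e.symm, h4.congr e.symm, fun u hu => ⟨?_, fun N hN => ?_⟩⟩
  · rw [(e.eventuallyEq_of_mem (h1.mem_nhds hu)).fderiv_eq]
    exact (h5 u hu).1
  · rw [e hu]
    refine mem_of_superset ((h5 u hu).2 _ (inter_mem hN (h1.mem_nhds hu))) ?_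
    rintro _ ⟨x, hx, rfl⟩
    exact ⟨x, hx.1, e hx.2⟩

theorem Par.opn (h : Par M φ U) : Opn (φ '' U) M := by
  refine ⟨h.2.2.2.1.image_subset, ?_⟩
  rintro _ ⟨u, hu, rfl⟩
  exact (h.2.2.2.2 u hu).2 U (h.1.mem_nhds hu)

theorem Par.up (h : Par A φ U) (o : Opn A M) : Par M φ U :=
  ⟨h.1, h.2.1, h.2.2.1, h.2.2.2.1.mono_right o.1, fun u hu => ⟨(h.2.2.2.2 u hu).1, fun N hN =>
    nhdsWithin_le_of_mem (o.2 _ (h.2.2.2.1 hu)) ((h.2.2.2.2 u hu).2 N hN)⟩⟩

theorem Par.down (h : Par M φ U) (k : A ⊆ M) (m : MapsTo φ U A) : Par A φ U :=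
  ⟨h.1, h.2.1, h.2.2.1, m, fun u hu => ⟨(h.2.2.2.2 u hu).1, fun N hN =>
    nhdsWithin_mono _ k ((h.2.2.2.2 u hu).2 N hN)⟩⟩

theorem Par.dif [FiniteDimensional ℝ P] [FiniteDimensional ℝ V] (h : Par M φ U) :
    ∃ ψ, Dif U (φ '' U) φ ψ :=
  ⟨invFunOn φ U, h.2.1, h.inv, mapsTo_image _ _, fun _ k => invFunOn_mem k,
    fun _ k => h.2.2.1.leftInvOn_invFunOn k, fun _ k => invFunOn_eq k⟩

/-- A map with a smooth left inverse on a set that contains the image is an immersion. -/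
theorem par_imm {ψ : V → P} {u : P} (o : U ∈ 𝓝 u) (c : DifferentiableAt ℝ φ u)
    (m : MapsTo φ U A) (d : DifferentiableWithinAt ℝ ψ A (φ u)) (e : ∀ x ∈ U, ψ (φ x) = x) :
    Injective (fderiv ℝ φ u) := by
  have a := (d.hasFDerivWithinAt.comp u c.hasFDerivAt.hasFDerivWithinAt m).hasFDerivAt o
  have b : HasFDerivAt (ψ ∘ φ) (ContinuousLinearMap.id ℝ P) u :=
    (hasFDerivAt_id u).congr_of_eventuallyEq (mem_of_superset o e)
  exact LeftInverse.injective (g := fderivWithin ℝ ψ A (φ u)) fun x =>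
    congrArg (fun L : P →L[ℝ] P => L x) (a.unique b)

theorem Dif.to_par {ψ : V → P} (h : Dif U A φ ψ) (o : IsOpen U) (k : Opn A M) : Par M φ U := by
  refine Par.up ⟨o, h.cF, h.injOn, h.mF, fun u hu => ⟨?_, fun N hN => ?_⟩⟩ k
  · exact par_imm (o.mem_nhds hu) ((h.cF.contDiffAt (o.mem_nhds hu)).differentiableAt (by simp))
      h.mF ((h.cG _ (h.mF hu)).differentiableWithinAt (by simp)) h.gf
  · have a : ψ ⁻¹' N ∈ 𝓝[A] φ u :=
      (h.cG _ (h.mF hu)).continuousWithinAt (by rwa [h.gf u hu])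
    exact mem_of_superset (inter_mem a self_mem_nhdsWithin) fun y hy => ⟨ψ y, hy.1, h.fg y hy.2⟩

omit [NormedSpace ℝ V] [NormedSpace ℝ W] in
theorem Opn.prod (h : Opn A M) (k : Opn B M') : Opn (A ×ˢ B) (M ×ˢ M') :=
  ⟨prod_mono h.1 k.1, fun a ha => by
    rw [← Prod.mk.eta (p := a), nhdsWithin_prod_eq]
    exact prod_mem_prod (h.2 _ ha.1) (k.2 _ ha.2)⟩

/-- The standard charts of the unit circle. -/
theorem par_ex (s : ℝ) : Par (sphere (0 : ℂ) 1) ex (Ioo s (s + 1)) := by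
  have z (t : ℝ) : ex t ≠ 0 := norm_ne_zero_iff.1 (by simp [norm_ex])
  refine ⟨isOpen_Ioo, contDiff_ex.contDiffOn, fun a ha b hb e => ?_,
    fun a _ => mem_sphere_zero_iff_norm.2 (norm_ex a), fun u _ => ⟨?_, fun N hN => ?_⟩⟩
  · obtain ⟨k, rfl⟩ := ex_eq e
    have a1 : (k : ℝ) < 1 := by linarith [ha.1, hb.2]
    have a2 : (-1 : ℝ) < k := by linarith [ha.2, hb.1]
    have : k = 0 := by
      have := Int.cast_lt (R := ℝ).1 (show (k : ℝ) < (1 : ℤ) by simpa using a1)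
      have := Int.cast_lt (R := ℝ).1 (show ((-1 : ℤ) : ℝ) < k by simpa using a2)
      omega
    simp [this]
  · rw [(hasDerivAt_ex u).hasFDerivAt.fderiv]
    intro a b e
    have n : (2 * Real.pi * .I * ex u : ℂ) ≠ 0 := by simp [z, Real.pi_ne_zero]
    exact smul_left_injective ℝ n e
  · have c : ContinuousAt (fun w : ℂ => u + (w / ex u).arg / (2 * Real.pi)) (ex u) := by
      refine continuousAt_const.add (ContinuousAt.div_const ?_ _)
      refine ContinuousAt.comp (f := fun w : ℂ => w / ex u) (Complex.continuousAt_arg ?_)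
        (continuousAt_id.div_const _)
      simp [div_self (z u)]
    have a := c.preimage_mem_nhds (t := N) (by simpa [div_self (z u)] using hN)
    refine mem_of_superset (inter_mem (mem_nhdsWithin_of_mem_nhds a) self_mem_nhdsWithin) ?_
    intro w hw
    refine ⟨_, hw.1, ?_⟩
    rw [ex_add, ex_arg (by rw [norm_div, mem_sphere_zero_iff_norm.1 hw.2, norm_ex, div_one]),
      mul_div_cancel₀ _ (z u)]

theorem mf_circle : Mf ℝ (sphere (0 : ℂ) 1) := fun a ha =>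
  ⟨ex, _, par_ex (a.arg / (2 * Real.pi) - 1 / 2), a.arg / (2 * Real.pi),
    ⟨by linarith, by linarith⟩, ex_arg (mem_sphere_zero_iff_norm.1 ha)⟩

omit [NormedSpace ℝ V] in
theorem par_pre (c : ContinuousOn φ U) (o : IsOpen U) (k : Opn A M) (m : MapsTo φ U M) :
    IsOpen (U ∩ φ ⁻¹' A) := by
  obtain ⟨O, a, rfl⟩ := Dif_opn.1 k
  convert c.isOpen_inter_preimage o a using 1
  ext x
  exact and_congr_right fun h => and_iff_right (m h)

theorem Mf.opn (h : Mf P M) (o : Opn A M) : Mf P A := fun a ha => by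
  obtain ⟨φ, U, p, u, hu, rfl⟩ := h a (o.1 ha)
  exact ⟨φ, U ∩ φ ⁻¹' A, (p.mono (par_pre p.2.1.continuousOn p.1 o p.2.2.2.1)
    inter_subset_left).down o.1 fun x k => k.2, u, ⟨hu, ha⟩, rfl⟩

theorem Rt.circ {Y : Set V} (h : Rt Y) : Rt (Y ×ˢ sphere (0 : ℂ) 1) := by
  obtain ⟨O, R, a, b, c, d, e⟩ := h
  refine ⟨O ×ˢ {0}ᶜ, fun u => (R u.1, ‖u.2‖⁻¹ • u.2), a.prod isOpen_compl_singleton,
    prod_mono b fun w hw k => ?_, ?_, fun u hu => ⟨d hu.1, ?_⟩, fun u hu => ?_⟩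
  · simp [show w = 0 from k] at hw
  · refine (c.comp contDiffOn_fst fun u hu => hu.1).prodMk fun u hu => ?_
    exact (((contDiffAt_snd.norm ℝ hu.2).inv (norm_ne_zero_iff.2 hu.2)).smul
      contDiffAt_snd).contDiffWithinAt
  · rw [mem_sphere_zero_iff_norm, norm_smul, norm_inv, norm_norm,
      inv_mul_cancel₀ (norm_ne_zero_iff.2 hu.2)]
  · simp only [e _ hu.1, mem_sphere_zero_iff_norm.1 hu.2, inv_one, one_smul]

variable [FiniteDimensional ℝ P] [FiniteDimensional ℝ Q] [FiniteDimensional ℝ V]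
  [FiniteDimensional ℝ W] [FiniteDimensional ℝ Z]

omit [FiniteDimensional ℝ W] in
theorem Dif.par (h : Dif A B F G) (a : Opn A M) (b : Opn B M') (k : Par M φ U)
    (m : MapsTo φ U A) : Par M' (F ∘ φ) U := by
  obtain ⟨ψ, d⟩ := k.dif
  exact (d.trans (h.mono m.image_subset)).to_par k.1 ((h.opn (k.down a.1 m).opn).trans b)

omit [FiniteDimensional ℝ W] in
theorem Dif.mf (h : Dif A B F G) (k : Mf P A) : Mf P B := fun b hb => by
  obtain ⟨φ, U, p, u, hu, e⟩ := k _ (h.mG hb)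
  exact ⟨F ∘ φ, U, h.par (.refl _) (.refl _) p p.2.2.2.1, u, hu, by simp [e, h.fg b hb]⟩

omit [FiniteDimensional ℝ Q] in
/-- Change of parameters. -/
theorem Par.comp {O : Set Q} {f : Q → P} {g : P → Q} (h : Par M φ U) (d : Dif O U f g)
    (o : IsOpen O) : Par M (φ ∘ f) O := by
  obtain ⟨ψ, k⟩ := h.dif
  exact (d.trans k).to_par o h.opn

omit [FiniteDimensional ℝ Q] in
theorem Mf.equiv (h : Mf P M) (e : P ≃L[ℝ] Q) : Mf Q M := fun a ha => by
  obtain ⟨φ, U, p, u, hu, rfl⟩ := h a ha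
  exact ⟨φ ∘ e.symm, e.symm ⁻¹' U, p.comp (g := e) ⟨e.symm.contDiff.contDiffOn,
    e.contDiff.contDiffOn, fun _ k => k, fun _ k => by simpa using k, by simp, by simp⟩
      (p.1.preimage e.symm.continuous), e u, by simpa using hu, by simp⟩

theorem Par.prod {χ : Q → W} {O : Set Q} (h : Par M φ U) (k : Par M' χ O) :
    Par (M ×ˢ M') (Prod.map φ χ) (U ×ˢ O) := by
  obtain ⟨ψ, a⟩ := h.dif
  obtain ⟨ψ', b⟩ := k.dif
  exact (a.prod b).to_par (h.1.prod k.1) (h.opn.prod k.opn)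

theorem Mf.prod (h : Mf P M) (k : Mf Q M') : Mf (P × Q) (M ×ˢ M') := fun a ha => by
  obtain ⟨φ, U, p, u, hu, e⟩ := h _ ha.1
  obtain ⟨χ, O, q, v, hv, e'⟩ := k _ ha.2
  exact ⟨_, _, p.prod q, (u, v), ⟨hu, hv⟩, Prod.ext e e'⟩

/-- Injective immersions of full dimension (inverse function theorem in a chart of `M`). -/
theorem par_of_inj (hM : Mf P M) (o : IsOpen U) (c : ContDiffOn ℝ ∞ φ U) (m : MapsTo φ U M)
    (i : InjOn φ U) (d : ∀ u ∈ U, Function.Injective (fderiv ℝ φ u)) : Par M φ U := by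
  refine ⟨o, c, i, m, fun u hu => ⟨d u hu, fun N hN => ?_⟩⟩
  obtain ⟨χ, O, p, hp⟩ := hM _ (m hu)
  obtain ⟨ψ, k⟩ := p.dif
  have o' := par_pre c.continuousOn o p.opn m
  have c' : ContDiffOn ℝ ∞ (ψ ∘ φ) (U ∩ φ ⁻¹' (χ '' O)) :=
    k.cG.comp (c.mono inter_subset_left) fun x h => h.2
  have q : Par univ (ψ ∘ φ) (U ∩ φ ⁻¹' (χ '' O)) := by
    refine par_univ rfl o' c' (fun x hx y hy e => i hx.1 hy.1 (k.symm.injOn hx.2 hy.2 e))
      fun x hx => ?_
    have a := ((p.2.1.contDiffAt (p.1.mem_nhds (k.mG hx.2))).differentiableAt (by simp))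
    have b := fderiv_comp x (f := ψ ∘ φ) a
      ((c'.contDiffAt (o'.mem_nhds hx)).differentiableAt (by simp))
    have e : χ ∘ ψ ∘ φ =ᶠ[𝓝 x] φ := mem_of_superset (o'.mem_nhds hx) fun y hy => k.fg _ hy.2
    have := d x hx.1
    rw [← e.fderiv_eq, b] at this
    exact Injective.of_comp (f := fderiv ℝ χ ((ψ ∘ φ) x)) this
  have a := (q.2.2.2.2 u ⟨hu, hp⟩).2 _ (inter_mem hN (o'.mem_nhds ⟨hu, hp⟩))
  rw [nhdsWithin_univ] at a
  have b := (p.2.2.2.2 _ (k.mG hp)).2 _ a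
  rw [k.fg _ hp] at b
  refine mem_of_superset b ?_
  rintro _ ⟨_, ⟨x, hx, rfl⟩, rfl⟩
  exact ⟨x, hx.1, (k.fg _ hx.2.2).symm⟩

theorem Par.tan (h : Par M φ U) {u : P} (hu : u ∈ U) : Tan M (φ u) = range (fderiv ℝ φ u) := by
  have n := h.1.mem_nhds hu
  have c := h.2.1.contDiffAt n
  have d := (c.differentiableAt (by simp)).hasFDerivAt
  refine Subset.antisymm ?_ ?_
  · rintro v ⟨γ, a, b, m⟩
    obtain ⟨g, p, q⟩ := left_inv_at c (h.2.2.2.2 u hu).1
    have t : Tendsto γ (𝓝 0) (𝓝[M] φ u) :=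
      tendsto_nhdsWithin_iff.2 ⟨b ▸ a.continuousAt.tendsto, m⟩
    have e : φ ∘ g ∘ γ =ᶠ[𝓝 0] γ := by
      refine mem_of_superset (t ((h.2.2.2.2 u hu).2 _ q)) ?_
      rintro s ⟨x, hx, k⟩
      simp only [mem_ofPred_eq, comp_apply] at hx ⊢
      rw [← k, hx]
    have r := (p.differentiableAt (by simp)).hasFDerivAt.comp_hasDerivAt_of_eq 0 a b.symm
    have s := d.comp_hasDerivAt_of_eq 0 r (by simp only [comp_apply, b, q.self_of_nhds])
    exact ⟨_, s.unique (a.congr_of_eventuallyEq e)⟩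
  · rintro _ ⟨x, rfl⟩
    have a : HasDerivAt (fun t : ℝ => u + t • x) x 0 := by
      simpa using ((hasDerivAt_id (0 : ℝ)).smul_const x).const_add u
    refine ⟨_, d.comp_hasDerivAt_of_eq 0 a (by simp), by simp, ?_⟩
    exact mem_of_superset (a.continuousAt.preimage_mem_nhds (by simpa using n))
      fun t k => h.2.2.2.1 k

theorem Mf.circ {Y : Set V} (h : Mf E3 Y) : Mf (ℝ × E3) (Y ×ˢ sphere (0 : ℂ) 1) :=
  (h.prod mf_circle).equiv (ContinuousLinearEquiv.prodComm ℝ E3 ℝ)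

end Pool.Agent.Lib.MP_b2e238_gt
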