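import Pool.Agent.Lib.MP_b2e238_gt.K.Par

/-! Tubes as charts round the unit circle. -/

open scoped ContDiff Topology
open Set Metric

noncomputable section

namespace Pool.Agent.Lib.MP_b2e238_gt

variable {P Q V W Z : Type} [NormedAddCommGroup P] [NormedSpace ℝ P] [NormedAddCommGroup Q]
  [NormedSpace ℝ Q] [NormedAddCommGroup V] [NormedSpace ℝ V] [NormedAddCommGroup W]
  [NormedSpace ℝ W] [NormedAddCommGroup Z] [NormedSpace ℝ Z]

/-- The local inverse of the polar coordinates near the angle `s`. -/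
def rgI (s : ℝ) (w : ℂ × ℂ) : ℝ × E3 :=
  (s + (w.1 * ex (-s)).arg / (2 * Real.pi), w.2, ‖w.1‖ - 1)

theorem rg_norm {u : ℝ × E3} (h : -1 < u.2.2) : ‖(pol u).1‖ = 1 + u.2.2 := by
  rw [pol, norm_mul, norm_ex, mul_one, Complex.norm_real, Real.norm_of_nonneg (by linarith)]

theorem rg_ne {u : ℝ × E3} (h : -1 < u.2.2) : (pol u).1 ≠ 0 := by
  rw [← norm_pos_iff, rg_norm h]; linarith

theorem rg_lt {u : ℝ × E3} {r : ℝ} (k : r ≤ 1) (h : ‖u.2‖ < r) : -1 < u.2.2 := by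
  have := (abs_lt.1 ((norm_snd_le u.2).trans_lt h)).1
  linarith

theorem rg_neg (s : ℝ) : ex s * ex (-s) = 1 := by
  rw [← ex_add, add_neg_cancel, ← ex_int 0, Int.cast_zero]

theorem pol_rgI (s : ℝ) (w : ℂ × ℂ) : pol (rgI s w) = w := by
  refine Prod.ext ?_ rfl
  have e : ex ((w.1 * ex (-s)).arg / (2 * Real.pi)) = Complex.exp ((w.1 * ex (-s)).arg * .I) := by
    have : (Real.pi : ℂ) ≠ 0 := by exact_mod_cast Real.pi_ne_zero
    unfold ex
    congr 2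
    push_cast
    field_simp
  have k := Complex.norm_mul_exp_arg_mul_I (w.1 * ex (-s))
  rw [norm_mul, norm_ex, mul_one] at k
  simp only [pol, rgI, add_sub_cancel, ex_add, e]
  rw [mul_left_comm, k, mul_left_comm, rg_neg, mul_one]

theorem rg_mul (u : ℝ × E3) : (pol u).1 * ex (-u.1) = (1 + u.2.2 : ℝ) := by
  rw [pol, mul_assoc, rg_neg, mul_one]

theorem rgI_pol {u : ℝ × E3} (h : -1 < u.2.2) : rgI u.1 (pol u) = u := by
  rw [rgI, rg_mul, rg_norm h, Complex.arg_ofReal_of_nonneg (by linarith)]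
  simp [pol]

theorem rgI_smooth {u : ℝ × E3} (h : -1 < u.2.2) : ContDiffAt ℝ ∞ (rgI u.1) (pol u) := by
  have a : (pol u).1 * ex (-u.1) ∈ Complex.slitPlane := by
    rw [rg_mul]; exact Complex.ofReal_mem_slitPlane.2 (by linarith)
  have b : ContDiffAt ℝ ∞ (fun w : ℂ × ℂ => (Complex.log (w.1 * ex (-u.1))).im) (pol u) :=
    Complex.imCLM.contDiff.contDiffAt.comp _ (((Complex.contDiffAt_log a).restrict_scalars ℝ).comp
      (f := fun w : ℂ × ℂ => w.1 * ex (-u.1)) _ (contDiffAt_fst.mul contDiffAt_const))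
  simp only [Complex.log_im] at b
  exact (contDiffAt_const.add (b.div_const _)).prodMk (contDiffAt_snd.prodMk
    ((contDiffAt_fst.norm ℝ (rg_ne h)).sub contDiffAt_const))

theorem pol_eq {u u' : ℝ × E3} (h : -1 < u.2.2) (h' : -1 < u'.2.2) (e : pol u = pol u') :
    u.2 = u'.2 ∧ ∃ n : ℤ, u'.1 = u.1 + n := by
  have a : u.2.2 = u'.2.2 := by
    have := rg_norm h
    rw [e, rg_norm h'] at this
    linarith
  refine ⟨Prod.ext (congrArg Prod.snd e) a, ex_eq (mul_left_cancel₀ (a := ((1 + u.2.2 : ℝ) : ℂ))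
    (Complex.ofReal_ne_zero.2 (by linarith)) ?_)⟩
  simpa only [pol, a] using congrArg Prod.fst e

theorem rg_fin : Module.finrank ℝ (ℝ × E3) = Module.finrank ℝ (ℂ × ℂ) := by
  simp [E3]

variable [FiniteDimensional ℝ P] [FiniteDimensional ℝ Q] [FiniteDimensional ℝ V]
  [FiniteDimensional ℝ W] [FiniteDimensional ℝ Z]

variable {M : Set V} {M' : Set Z} {X : Set W} {T T' : ℝ × E3 → V} {r r' ε : ℝ}

section Ring

theorem contDiff_pol : ContDiff ℝ ∞ pol :=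
  ((Complex.ofRealCLM.contDiff.comp (contDiff_const.add contDiff_snd.snd)).mul
    (contDiff_ex.comp contDiff_fst)).prodMk contDiff_snd.fst

theorem rgI_fd {u : ℝ × E3} (h : -1 < u.2.2) (v : ℂ × ℂ) :
    fderiv ℝ pol u (fderiv ℝ (rgI u.1) (pol u) v) = v := by
  have a := fderiv_comp (pol u) (g := pol) (contDiff_pol.differentiable (by simp) _)
    ((rgI_smooth h).differentiableAt (by simp))
  rw [rgI_pol h, show pol ∘ rgI u.1 = id from funext (pol_rgI _), fderiv_id] at a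
  exact (DFunLike.congr_fun a v).symm

theorem pol_inj {u : ℝ × E3} (h : -1 < u.2.2) : Function.Bijective (fderiv ℝ pol u) := by
  have s : Function.Surjective (fderiv ℝ pol u) := fun v => ⟨_, rgI_fd h v⟩
  exact ⟨(LinearMap.injective_iff_surjective_of_finrank_eq_finrank
    (f := (fderiv ℝ pol u).toLinearMap) rg_fin).2 s, s⟩

theorem pol_mem {u : ℝ × E3} (k : r ≤ 1) (h : ‖u.2‖ < r) : pol u ∈ Ann r :=
  ⟨by rw [rg_norm (rg_lt k h), add_sub_cancel_left]; exact (norm_snd_le u.2).trans_lt h,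
    (norm_fst_le u.2).trans_lt h⟩

theorem pol_surj {w : ℂ × ℂ} (k : r ≤ 1) (h : w ∈ Ann r) : ∃ u : ℝ × E3, ‖u.2‖ < r ∧ pol u = w :=
  ⟨rgI 0 w, max_lt h.2 h.1, pol_rgI 0 w⟩

theorem isOpen_Ann (r : ℝ) : IsOpen (Ann r) :=
  (isOpen_lt (continuous_fst.norm.sub continuous_const).abs continuous_const).and
    (isOpen_lt continuous_snd.norm continuous_const)

/-- Open sets round the circle contain an `Ann r`. -/
theorem ann_sub {O : Set (ℂ × ℂ)} (o : IsOpen O) (h : ∀ t, (ex t, 0) ∈ O) :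
    ∃ r, 0 < r ∧ r ≤ 1 ∧ Ann r ⊆ O := by
  obtain ⟨δ, a, b⟩ := ((isCompact_sphere (0 : ℂ) 1).prod
    (isCompact_singleton (x := (0 : ℂ)))).exists_thickening_subset_open o (by
      rintro ⟨z, _⟩ ⟨c, rfl⟩
      rw [← ex_arg (w := z) (mem_sphere_zero_iff_norm.1 c)]
      exact h _)
  refine ⟨min δ 1, lt_min a one_pos, min_le_right _ _, fun w hw => b ?_⟩
  obtain ⟨u, c, rfl⟩ := pol_surj (min_le_right _ _) hw
  replace c := c.trans_le (min_le_left _ _)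
  refine mem_thickening_iff.2 ⟨(ex u.1, 0), ⟨mem_sphere_zero_iff_norm.2 (norm_ex _), rfl⟩,
    max_lt ?_ ?_⟩
  · rw [dist_eq_norm, show (pol u).1 - ex u.1 = u.2.2 * ex u.1 by simp only [pol]; push_cast; ring,
      norm_mul, norm_ex, mul_one, Complex.norm_real]
    exact (norm_snd_le u.2).trans_lt c
  · rw [dist_zero_right]
    exact (norm_fst_le u.2).trans_lt c

theorem rg_pol (p : ∀ t x, T (t + 1, x) = T (t, x)) {u : ℝ × E3} (h : -1 < u.2.2) :
    rg T (pol u) = T u := by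
  obtain ⟨a, n, b⟩ := pol_eq (u' := rgI 0 (pol u)) h (by
    change -1 < ‖(pol u).1‖ - 1
    linarith [norm_pos_iff.2 (rg_ne h)]) (pol_rgI _ _).symm
  have e : rg T (pol u) = T ((rgI 0 (pol u)).1, (rgI 0 (pol u)).2) := by
    simp [rg, rgI, show ex 0 = 1 by simpa using ex_int 0]
  rw [e, b, ← a]
  exact per_int (c := fun t => T (t, u.2)) (fun t => p t _) _ _

theorem rg_rgI (p : ∀ t x, T (t + 1, x) = T (t, x)) (s : ℝ) {w : ℂ × ℂ} (h : w.1 ≠ 0) :
    rg T w = T (rgI s w) := by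
  rw [← rg_pol p (u := rgI s w) (by
    change -1 < ‖w.1‖ - 1
    linarith [norm_pos_iff.2 h]), pol_rgI]

theorem rg_ev {u : ℝ × E3} (h : -1 < u.2.2) : ∀ᶠ w in 𝓝 (pol u), w.1 ≠ 0 :=
  continuous_fst.continuousAt.eventually_ne (rg_ne h)

theorem rg_ev' {u : ℝ × E3} (h : -1 < u.2.2) : ∀ᶠ v : ℝ × E3 in 𝓝 u, -1 < v.2.2 :=
  (isOpen_lt continuous_const continuous_snd.snd).mem_nhds h

/-- With parameters; near a point of the ring use the local inverse and periodicity. -/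
theorem rg_smooth {S : P → ℝ × E3 → V} {L : Set P} (o : IsOpen L) (k : r ≤ 1)
    (p : ∀ l t x, S l (t + 1, x) = S l (t, x))
    (c : ContDiffOn ℝ ∞ S.uncurry (L ×ˢ univ ×ˢ ball 0 r)) :
    ContDiffOn ℝ ∞ (fun q : P × ℂ × ℂ => rg (S q.1) q.2) (L ×ˢ Ann r) := by
  rintro ⟨l, w⟩ ⟨a, b⟩
  obtain ⟨u, d, rfl⟩ := pol_surj k b
  have h := rg_lt k d
  have e : ContDiffAt ℝ ∞ S.uncurry (l, rgI u.1 (pol u)) := by
    rw [rgI_pol h]
    exact c.contDiffAt ((o.prod (isOpen_univ.prod isOpen_ball)).mem_nhds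
      ⟨a, trivial, mem_ball_zero_iff.2 d⟩)
  refine ((e.comp (f := fun q : P × ℂ × ℂ => (q.1, rgI u.1 q.2)) (l, pol u) (contDiffAt_fst.prodMk
    ((rgI_smooth h).comp (l, pol u) contDiffAt_snd))).congr_of_eventuallyEq ?_).contDiffWithinAt
  exact (continuous_snd.continuousAt.eventually (rg_ev h)).mono fun q hq => rg_rgI (p _) _ hq

theorem rg_smooth' (k : r ≤ 1) (p : ∀ t x, T (t + 1, x) = T (t, x))
    (c : ContDiffOn ℝ ∞ T (univ ×ˢ ball 0 r)) : ContDiffOn ℝ ∞ (rg T) (Ann r) :=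
  (rg_smooth (S := fun _ : ℝ => T) isOpen_univ k (fun _ => p)
    (c.comp contDiff_snd.contDiffOn fun _ h => h.2)).comp (f := fun w => ((0 : ℝ), w))
      (contDiff_const.prodMk contDiff_id).contDiffOn fun _ h => ⟨trivial, h⟩

theorem rg_fd (p : ∀ t x, T (t + 1, x) = T (t, x)) {u : ℝ × E3} (h : -1 < u.2.2)
    (c : DifferentiableAt ℝ T u) (d : Function.Injective (fderiv ℝ T u)) :
    Function.Injective (fderiv ℝ (rg T) (pol u)) := by
  have e : rg T =ᶠ[𝓝 (pol u)] T ∘ rgI u.1 := (rg_ev h).mono fun w hw => rg_rgI p _ hw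
  rw [e.fderiv_eq, fderiv_comp _ (by rwa [rgI_pol h]) ((rgI_smooth h).differentiableAt (by simp)),
    rgI_pol h]
  exact d.comp (Function.LeftInverse.injective (rgI_fd h))

theorem Tb.mono (h : Tb M T r) (p : 0 < r') (k : r' ≤ r) : Tb M T r' :=
  ⟨p, h.2.1, fun s => (h.2.2 s).mono (isOpen_Ioo.prod isOpen_ball)
    (prod_mono_right (ball_subset_ball k))⟩

theorem rg_mem (t : ℝ) {x : E3} (k : ‖x‖ < r) :
    (t, x) ∈ Ioo (t - 1 / 2) (t - 1 / 2 + 1) ×ˢ ball (0 : E3) r :=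
  ⟨⟨by linarith, by linarith⟩, mem_ball_zero_iff.2 k⟩

theorem Tb.smooth (h : Tb M T r) : ContDiffOn ℝ ∞ T (univ ×ˢ ball 0 r) := fun u k =>
  ((h.2.2 _).2.1.contDiffAt ((h.2.2 _).1.mem_nhds
    (rg_mem u.1 (mem_ball_zero_iff.1 k.2)))).contDiffWithinAt

theorem Tb.mem (h : Tb M T r) (t : ℝ) {x : E3} (k : ‖x‖ < r) : T (t, x) ∈ M :=
  (h.2.2 _).2.2.2.1 (rg_mem t k)

theorem Tb.inj (h : Tb M T r) {t t' : ℝ} {x x' : E3} (k : ‖x‖ < r) (k' : ‖x'‖ < r)
    (e : T (t, x) = T (t', x')) : x = x' ∧ ∃ n : ℤ, t' = t + n := by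
  obtain ⟨a, b⟩ := abs_le.1 (abs_sub_round (t' - t))
  have c := per_int (c := fun t => T (t, x')) (fun t => h.2.1 t _) (t' - round (t' - t))
    (round (t' - t))
  rw [sub_add_cancel, ← e] at c
  have := (h.2.2 ((t + (t' - round (t' - t)) - 1) / 2)).2.2.1 (x₁ := (t, x))
    (x₂ := (t' - round (t' - t), x')) ⟨⟨by linarith, by linarith⟩, mem_ball_zero_iff.2 k⟩
    ⟨⟨by linarith, by linarith⟩, mem_ball_zero_iff.2 k'⟩ c
  exact ⟨congrArg Prod.snd this, round (t' - t), by linarith [(Prod.ext_iff.1 this).1]⟩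

theorem Tb.ring (h : Tb M T r) (k : r ≤ 1) : Par M (rg T) (Ann r) := by
  refine ⟨isOpen_Ann r, rg_smooth' k h.2.1 h.smooth, fun w a w' b e => ?_, fun w a => ?_,
    fun w a => ?_⟩
  all_goals obtain ⟨u, c, rfl⟩ := pol_surj k a
  · obtain ⟨u', c', rfl⟩ := pol_surj k b
    rw [rg_pol h.2.1 (rg_lt k c), rg_pol h.2.1 (rg_lt k c')] at e
    obtain ⟨d, n, d'⟩ := h.inj c c' e
    rw [pol, pol, d, d', ex_add, ex_int, mul_one]
  · rw [rg_pol h.2.1 (rg_lt k c)]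
    exact h.mem _ c
  · obtain ⟨d, d'⟩ := (h.2.2 _).2.2.2.2 _ (rg_mem u.1 c)
    refine ⟨rg_fd h.2.1 (rg_lt k c) ((h.smooth.contDiffAt ((isOpen_univ.prod isOpen_ball).mem_nhds
      ⟨trivial, mem_ball_zero_iff.2 c⟩)).differentiableAt (by simp)) d, fun N hN => ?_⟩
    rw [rg_pol h.2.1 (rg_lt k c)]
    refine Filter.mem_of_superset (d' _ (Filter.inter_mem
      (contDiff_pol.continuous.continuousAt.preimage_mem_nhds hN) (rg_ev' (rg_lt k c)))) ?_
    rintro _ ⟨v, ⟨e, e'⟩, rfl⟩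
    exact ⟨_, e, rg_pol h.2.1 e'⟩

theorem tb_of_ring (h : Par M (rg T) (Ann r)) (p : ∀ t x, T (t + 1, x) = T (t, x)) (a : 0 < r)
    (k : r ≤ 1) : Tb M T r := by
  refine ⟨a, p, fun s => ?_⟩
  have m : ∀ u ∈ Ioo s (s + 1) ×ˢ ball (0 : E3) r, ‖u.2‖ < r := fun u c => mem_ball_zero_iff.1 c.2
  refine ⟨isOpen_Ioo.prod isOpen_ball, (h.2.1.comp contDiff_pol.contDiffOn fun u c =>
    pol_mem k (m u c)).congr fun u c => (rg_pol p (rg_lt k (m u c))).symm, fun u c u' c' e => ?_,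
    fun u c => rg_pol p (rg_lt k (m u c)) ▸ h.2.2.2.1 (pol_mem k (m u c)), fun u c => ?_⟩
  · rw [← rg_pol p (rg_lt k (m u c)), ← rg_pol p (rg_lt k (m u' c'))] at e
    obtain ⟨d, n, d'⟩ := pol_eq (rg_lt k (m u c)) (rg_lt k (m u' c'))
      (h.2.2.1 (pol_mem k (m u c)) (pol_mem k (m u' c')) e)
    have n1 : n < 1 := by
      rw [← Int.cast_lt (R := ℝ)]; push_cast; linarith [c.1.1, c'.1.2]
    have n2 : -1 < n := by
      rw [← Int.cast_lt (R := ℝ)]; push_cast; linarith [c.1.2, c'.1.1]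
    obtain rfl : n = 0 := by omega
    exact Prod.ext (by simpa using d'.symm) d
  · have l := rg_lt k (m u c)
    obtain ⟨d, d'⟩ := h.2.2.2.2 _ (pol_mem k (m u c))
    have e : T =ᶠ[𝓝 u] rg T ∘ pol := (rg_ev' l).mono fun v hv => (rg_pol p hv).symm
    refine ⟨?_, fun N hN => ?_⟩
    · rw [e.fderiv_eq, fderiv_comp _ ((h.2.1.contDiffAt (h.1.mem_nhds
        (pol_mem k (m u c)))).differentiableAt (by simp)) (contDiff_pol.differentiable (by simp) _)]
      exact d.comp (pol_inj l).1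
    · rw [← rg_pol p l]
      refine Filter.mem_of_superset (d' _ (Filter.inter_mem
        ((rgI_smooth l).continuousAt.preimage_mem_nhds (by rwa [rgI_pol l])) (rg_ev l))) ?_
      rintro _ ⟨w, ⟨e, e'⟩, rfl⟩
      exact ⟨_, e, (rg_rgI p _ e').symm⟩

theorem rg_loc {f : P → V} {a : P} (c : ContDiffAt ℝ ∞ f a)
    (d : Function.Injective (fderiv ℝ f a)) : ∃ u ∈ 𝓝 a, InjOn f u := by
  obtain ⟨L, hL⟩ := (fderiv ℝ f a).toLinearMap.exists_leftInverse_of_injective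
    (LinearMap.ker_eq_bot.2 d)
  have := FiniteDimensional.complete ℝ P
  have s : HasStrictFDerivAt (L.toContinuousLinearMap ∘ f)
      (ContinuousLinearEquiv.refl ℝ P : P →L[ℝ] P) a := by
    refine (L.toContinuousLinearMap.hasStrictFDerivAt.comp a
      (c.hasStrictFDerivAt (by simp))).congr_fderiv ?_
    ext v
    exact DFunLike.congr_fun hL v
  refine ⟨_, s.eventually_left_inverse, fun x hx y hy e => ?_⟩
  rw [← show _ = x from hx, ← show _ = y from hy, Function.comp_apply, Function.comp_apply, e]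

/-- Germs of tubes. -/
theorem tb_of_germ (hM : Mf (ℝ × E3) M) (a : 0 < ε) (c : ContDiffOn ℝ ∞ T (univ ×ˢ ball 0 ε))
    (m : ∀ t x, ‖x‖ < ε → T (t, x) ∈ M) (p : ∀ t x, T (t + 1, x) = T (t, x))
    (i : ∀ t t', T (t, 0) = T (t', 0) → ∃ n : ℤ, t' = t + n)
    (d : ∀ t, Function.Injective (fderiv ℝ T (t, 0))) : ∃ r, Tb M T r := by
  have k := min_le_right ε 1
  have s := rg_smooth' k p (c.mono (prod_mono_right (ball_subset_ball (min_le_left ε 1))))
  have e0 (t : ℝ) : pol (t, 0) = (ex t, 0) := by simp [pol]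
  have e1 (t : ℝ) : (ex t, 0) ∈ Ann (min ε 1) :=
    e0 t ▸ pol_mem k (by simpa using a)
  have e2 (t : ℝ) : rg T (ex t, 0) = T (t, 0) := e0 t ▸ rg_pol p (by simp)
  have e3 (t : ℝ) : Function.Injective (fderiv ℝ (rg T) (ex t, 0)) :=
    e0 t ▸ rg_fd p (by simp) ((c.contDiffAt ((isOpen_univ.prod isOpen_ball).mem_nhds
      ⟨trivial, mem_ball_self a⟩)).differentiableAt (by simp)) (d t)
  have e4 : ∀ w ∈ sphere (0 : ℂ) 1 ×ˢ {(0 : ℂ)}, ∃ t, w = (ex t, 0) := by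
    rintro ⟨z, _⟩ ⟨b, rfl⟩
    exact ⟨_, by rw [ex_arg (mem_sphere_zero_iff_norm.1 b)]⟩
  have e5 (t : ℝ) : ContDiffAt ℝ ∞ (rg T) (ex t, 0) := s.contDiffAt ((isOpen_Ann _).mem_nhds (e1 t))
  obtain ⟨O, o1, o2, o3⟩ := InjOn.exists_isOpen_superset (f := rg T)
    (s := sphere (0 : ℂ) 1 ×ˢ {(0 : ℂ)}) (fun w b w' b' e => by
      obtain ⟨t, rfl⟩ := e4 w b
      obtain ⟨t', rfl⟩ := e4 w' b'
      obtain ⟨n, rfl⟩ := i t t' (by rwa [e2, e2] at e)
      rw [ex_add, ex_int, mul_one]) ((isCompact_sphere _ _).prod isCompact_singleton)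
    (fun w b => by obtain ⟨t, rfl⟩ := e4 w b; exact (e5 t).continuousAt)
    fun w b => by obtain ⟨t, rfl⟩ := e4 w b; exact rg_loc (e5 t) (e3 t)
  obtain ⟨r, r0, r1, r2⟩ := ann_sub (o1.inter ((s.continuousOn_fderiv_of_isOpen (isOpen_Ann _)
    (by simp)).isOpen_inter_preimage (isOpen_Ann _) ContinuousLinearMap.isOpen_injective))
    fun t => ⟨o2 ⟨mem_sphere_zero_iff_norm.2 (norm_ex t), rfl⟩, e1 t, e3 t⟩
  refine ⟨r, tb_of_ring (par_of_inj (hM.equiv (.ofFinrankEq rg_fin)) (isOpen_Ann r)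
    (s.mono fun w b => (r2 b).2.1) (fun w b => ?_) (o3.mono fun w b => (r2 b).1)
    fun w b => (r2 b).2.2) p r0 r1⟩
  obtain ⟨u, l, rfl⟩ := pol_surj k (r2 b).2.1
  rw [rg_pol p (rg_lt k l)]
  exact m _ _ (l.trans_le (min_le_left _ _))

theorem Tb.dif {A : Set V} {B : Set Z} {Φ : V → Z} {Ψ : Z → V} (h : Tb M T r) (d : Dif A B Φ Ψ)
    (a : Opn A M) (b : Opn B M') (m : ∀ t x, ‖x‖ < r → T (t, x) ∈ A) : Tb M' (Φ ∘ T) r :=
  ⟨h.1, fun t x => congrArg Φ (h.2.1 t x), fun s =>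
    d.par a b (h.2.2 s) fun u k => m u.1 u.2 (mem_ball_zero_iff.1 k.2)⟩

end Ring

end Pool.Agent.Lib.MP_b2e238_gt
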