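import Pool.Agent.Lib.MP_b2e238_gt.K.HT

/-! Fibre preserving tubes and fibre preserving diffeomorphisms. -/

open scoped ContDiff Topology
open Set Metric

noncomputable section

namespace Pool.Agent.Lib.MP_b2e238_gt

variable {P Q V W Z : Type} [NormedAddCommGroup P] [NormedSpace ℝ P] [NormedAddCommGroup Q]
  [NormedSpace ℝ Q] [NormedAddCommGroup V] [NormedSpace ℝ V] [NormedAddCommGroup W]
  [NormedSpace ℝ W] [NormedAddCommGroup Z] [NormedSpace ℝ Z]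

/-- The first part of a tangent vector of a product. -/
theorem hu_tan {A : Set V} {B : Set W} {p v : V × W} (h : v ∈ Tan (A ×ˢ B) p) : v.1 ∈ Tan A p.1 := by
  obtain ⟨c, c1, c2, c3⟩ := h
  exact ⟨fun t => (c t).1, (ContinuousLinearMap.fst ℝ V W).hasFDerivAt.comp_hasDerivAt 0 c1,
    congrArg Prod.fst c2, c3.mono fun _ k => k.1⟩

/-- Derivatives of maps into a set are tangent. -/
theorem hu_der {A : Set V} {f : P → V} (d : DifferentiableAt ℝ f 0) (m : ∀ᶠ x in 𝓝 0, f x ∈ A)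
    (x : P) : fderiv ℝ f 0 x ∈ Tan A (f 0) := by
  have k : HasDerivAt (fun s : ℝ => s • x) x 0 := by simpa using (hasDerivAt_id (0 : ℝ)).smul_const x
  refine ⟨fun s => f (s • x), HasFDerivAt.comp_hasDerivAt_of_eq 0 d.hasFDerivAt k (by simp),
    by simp, ?_⟩
  exact (show Filter.Tendsto (fun s : ℝ => s • x) (𝓝 0) (𝓝 0) by
    simpa using k.continuousAt.tendsto).eventually m

theorem hu_ex (t : ℝ) : ex t ∈ sphere (0 : ℂ) 1 := by simp [norm_ex]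

theorem hu_hl : Hl (sphere (0 : ℂ) 1) ex ex := .refl contDiff_ex.continuous hu_ex ex_one

variable [FiniteDimensional ℝ P] [FiniteDimensional ℝ Q] [FiniteDimensional ℝ V]
  [FiniteDimensional ℝ W] [FiniteDimensional ℝ Z]

variable {M : Set V} {M' : Set Z} {X : Set W} {T T' : ℝ × E3 → V} {r r' ε : ℝ}

section HT
variable {Y : Set V} {om : V → V →L[ℝ] E3} {γ γ' : ℝ → V} {A A' : ℝ → E3 →L[ℝ] E3}

/-- Fibre preserving tubes. -/
theorem gq_iff (h : Cf Y om) (hY : Mf E3 Y) (hR : Rt Y) {c : ℝ → E3 → V} (a : 0 < ε)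
    (s : ContDiffOn ℝ ∞ c.uncurry (univ ×ˢ ball 0 ε)) (m : ∀ t x, ‖x‖ < ε → c t x ∈ Y)
    (p : ∀ t, c (t + 1) = c t) (d : ∀ t, Function.Injective (fderiv ℝ (c t) 0)) :
    Surg (Y ×ˢ sphere (0 : ℂ) 1) (fun u => (c u.1 u.2, ex u.1)) X ↔
      Gq Y om (fun t => c t 0) (fun t => om (c t 0) ∘L fderiv ℝ (c t) 0) X := by
  have s0 (t : ℝ) : ContDiffAt ℝ ∞ c.uncurry (t, 0) :=
    s.contDiffAt ((isOpen_univ.prod isOpen_ball).mem_nhds ⟨trivial, mem_ball_self a⟩)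
  have d0 (t : ℝ) := ((s0 t).differentiableAt (by simp)).hasFDerivAt
  have d1 (t : ℝ) : HasFDerivAt (c t)
      (fderiv ℝ c.uncurry (t, 0) ∘L ContinuousLinearMap.inr ℝ ℝ E3) 0 :=
    (d0 t).comp 0 (hasFDerivAt_prodMk_right t 0)
  have d2 (t : ℝ) : HasFDerivAt (fun u : ℝ × E3 => (c u.1 u.2, ex u.1))
      ((fderiv ℝ c.uncurry (t, 0)).prod ((ContinuousLinearMap.toSpanSingleton ℝ
        (2 * Real.pi * .I * ex t)) ∘L ContinuousLinearMap.fst ℝ ℝ E3)) (t, 0) :=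
    (d0 t).prodMk (HasFDerivAt.comp (t, 0) (g := ex) (hasDerivAt_ex t).hasFDerivAt hasFDerivAt_fst)
  have d3 (t x) : fderiv ℝ (fun u : ℝ × E3 => (c u.1 u.2, ex u.1)) (t, 0) (0, x) =
      ((fderiv ℝ (c t) 0).prod 0) x := by
    rw [(d2 t).fderiv, (d1 t).fderiv]
    simp
  obtain ⟨r, hr⟩ := tb_of_germ (T := fun u : ℝ × E3 => (c u.1 u.2, ex u.1)) hY.circ a
    (s.prodMk (contDiff_ex.comp contDiff_fst).contDiffOn) (fun t x k => ⟨m t x k, hu_ex t⟩)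
    (fun t x => by simp only [p, ex_one]) (fun t t' e => ex_eq (congrArg Prod.snd e)) fun t => by
      refine (injective_iff_map_eq_zero _).2 fun u e => ?_
      have e1 : u.1 = 0 := by
        have := congrArg Prod.snd e
        rw [(d2 t).fderiv] at this
        have k : ex t ≠ 0 := norm_ne_zero_iff.1 (by simp [norm_ex])
        simpa [k] using this
      have e2 : u = (0, u.2) := Prod.ext e1 rfl
      rw [e2, d3] at e
      exact Prod.ext e1 ((injective_iff_map_eq_zero _).1 (d t) _ (congrArg Prod.fst e))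
  refine ⟨fun z => GF.gq ⟨_, fun _ => rfl, _, r, hr, fun _ => rfl, d3, z⟩ h, fun z => ?_⟩
  have g1 : ContDiff ℝ ∞ fun t => c t 0 := contDiff_iff_contDiffAt.2 fun t =>
    (s0 t).comp t (contDiff_prodMk_left (0 : E3)).contDiffAt
  have g2 : ContDiff ℝ ∞ fun t => fderiv ℝ (c t) 0 := contDiff_iff_contDiffAt.2 fun t =>
    ContDiffAt.fderiv (g := fun _ => 0) (s0 t) contDiffAt_const (by simp)
  obtain ⟨N, n1, n2⟩ := z.gf h hY hR g1
    ((h.1.comp_contDiff g1 fun t => m t 0 (by simpa)).clm_comp g2)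
  obtain ⟨τ, -, hτ⟩ := h.frame hY hR
  refine n2.surg hY.circ hr (fun _ => rfl) fun t x => (d3 t x).trans (Prod.ext ?_ rfl)
  have k := (hτ _ (m t 0 (by simpa))).2
  have k1 := k _ (hu_tan (n2.facts.2.2.2.2.2.1 t x))
  have k2 := k _ (hu_der (d1 t).differentiableAt (Filter.eventually_of_mem (ball_mem_nhds 0 a)
    fun y e => m t y (by simpa using e)) x)
  exact k2.symm.trans ((congrArg _ (DFunLike.congr_fun (n1 t) x).symm).trans k1)

/-- Fibre preserving diffeomorphisms (`FL.dif`). -/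
theorem Gq.gauge (z : Gq Y om γ A X) {Y' : Set Z} {om' : Z → Z →L[ℝ] E3} {Φ : V × ℂ → Z}
    {Ψ : Z × ℂ → V} (d : Dif (Y ×ˢ sphere (0 : ℂ) 1) (Y' ×ˢ sphere (0 : ℂ) 1)
      (fun p => (Φ p, p.2)) fun p => (Ψ p, p.2))
    (k : ∀ p ∈ Y ×ˢ sphere (0 : ℂ) 1, DifferentiableAt ℝ Φ p) {B : V × ℂ → E3 →L[ℝ] E3}
    (c : ContinuousOn B (Y ×ˢ sphere (0 : ℂ) 1)) (i : MapsTo B (Y ×ˢ sphere (0 : ℂ) 1) (Inj E3))
    (e : ∀ p ∈ Y ×ˢ sphere (0 : ℂ) 1, ∀ v ∈ Tan Y p.1,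
      om' (Φ p) (fderiv ℝ Φ p (v, 0)) = B p (om p.1 v)) :
    Gq Y' om' (fun t => Φ (γ t, ex t)) (fun t => B (γ t, ex t) ∘L A t) X := by
  obtain ⟨δ, D, h1, h2, N, n1, n2⟩ := z
  have m (t) : (δ t, ex t) ∈ Y ×ˢ sphere (0 : ℂ) 1 := ⟨h1.symm.facts.2.1 t, hu_ex t⟩
  have n3 := n2.dif d fun t => (k _ (m t)).prodMk differentiableAt_snd
  refine ⟨fun t => Φ (δ t, ex t), fun t => B (δ t, ex t) ∘L D t,
    h1.map₂ (f := fun a b => Φ (a, b)) hu_hl d.cF.continuousOn.fst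
      fun a ha b hb => (d.mF (x := (a, b)) ⟨ha, hb⟩).1,
    (h1.map₂ (f := fun a b => B (a, b)) hu_hl c fun a ha b hb => i (x := (a, b)) ⟨ha, hb⟩).comp h2,
    fun t => fderiv ℝ Φ (δ t, ex t) ∘L (N t).prod 0, fun t => ?_, ?_⟩
  · refine ContinuousLinearMap.ext fun x => ?_
    simp only [← n1 t]
    exact e _ (m t) _ (hu_tan (n2.facts.2.2.2.2.2.1 t x))
  · have q : (fun t => fderiv ℝ (fun p : V × ℂ => (Φ p, p.2)) (δ t, ex t) ∘L (N t).prod 0) =
        fun t => (fderiv ℝ Φ (δ t, ex t) ∘L (N t).prod 0).prod 0 := funext fun t => by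
      rw [((k _ (m t)).hasFDerivAt.prodMk hasFDerivAt_snd).fderiv]
      exact ContinuousLinearMap.ext fun x => rfl
    exact q ▸ n3

end HT

end Pool.Agent.Lib.MP_b2e238_gt
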