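import Pool.Agent.Lib.MP_b2e238_gt.K.Defs

/-! Loops of frames: two full turns are trivial; from four-frames to three-frames. -/

open scoped ContDiff Topology Quaternion ComplexConjugate
open Set Metric

noncomputable section

namespace Pool.Agent.Lib.MP_b2e238_gt

/-- Conjugation by the quaternion `a + b j`. -/
def rotQ (a : ℂ) (b : ℝ) : E3 →L[ℝ] E3 := LinearMap.toContinuousLinearMap
  { toFun v := (a ^ 2 * v.1 - b ^ 2 * conj v.1 - 2 * a * b * v.2,
      (Complex.normSq a - b ^ 2) * v.2 + 2 * b * (a * v.1).re)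
    map_add' _ _ := by
      refine Prod.ext ?_ ?_ <;> simp <;> ring
    map_smul' _ _ := by
      refine Prod.ext ?_ ?_ <;> simp <;> ring }

theorem rotQ_apply (a : ℂ) (b : ℝ) (v : E3) : rotQ a b v =
    (a ^ 2 * v.1 - b ^ 2 * conj v.1 - 2 * a * b * v.2,
      (Complex.normSq a - b ^ 2) * v.2 + 2 * b * (a * v.1).re) := rfl

theorem rotQ_inv (a : ℂ) (b : ℝ) (v : E3) :
    rotQ (conj a) (-b) (rotQ a b v) = (Complex.normSq a + b ^ 2) ^ 2 • v := by
  refine Prod.ext (Complex.ext ?_ ?_) ?_ <;>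
    simp [rotQ_apply, Complex.normSq_apply, sq] <;> ring

theorem rotQ_inj {a : ℂ} {b : ℝ} (h : a ≠ 0 ∨ b ≠ 0) : Function.Injective (rotQ a b) := by
  refine (injective_iff_map_eq_zero _).2 fun v e => ?_
  have k := rotQ_inv a b v
  rw [e, map_zero] at k
  refine (smul_eq_zero.1 k.symm).resolve_left (pow_ne_zero 2 (ne_of_gt ?_))
  rcases h with h | h
  · exact add_pos_of_pos_of_nonneg (Complex.normSq_pos.2 h) (sq_nonneg b)
  · exact add_pos_of_nonneg_of_pos (Complex.normSq_nonneg a) (by positivity)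

theorem continuous_rotQ : Continuous fun u : ℂ × ℝ => rotQ u.1 u.2 :=
  continuous_clm_apply.2 fun v => by
    simp only [rotQ_apply]
    have := Complex.continuous_normSq
    fun_prop

theorem rot_mu (g : ℂ) (v : E3) : mu g v = (g * v.1, v.2) := rfl

theorem hl_two (k : ℤ) : Hl (Inj E3) (fun t => mu (ex ((k + 2) * t))) fun t => mu (ex (k * t)) := by
  have c : Continuous ex := by unfold ex; fun_prop
  have n : ∀ t, ex t ≠ 0 := fun _ => Complex.exp_ne_zero _
  have a : ∀ s t, ex (s + t) = ex s * ex t := fun s t => by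
    rw [ex, ex, ex, ← Complex.exp_add]
    congr 1
    push_cast
    ring
  have z : ∀ k : ℤ, ex k = 1 := fun k => by
    rw [← Complex.exp_int_mul_two_pi_mul_I k, ex]
    congr 1
    push_cast
    ring
  have i : ∀ (l : ℝ) (w : ℂ), w ≠ 0 → Function.Injective (rotQ ((1 - l : ℝ) * w) l) := fun l w h =>
    rotQ_inj (by
      by_cases e : l = 0
      · exact .inl (by simpa [e] using h)
      · exact .inr e)
  refine ⟨fun l t => rotQ ((1 - l : ℝ) * ex t) l ∘L rotQ ((1 - l : ℝ) * 1) l ∘L mu (ex (k * t)),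
    Continuous.continuousOn ((continuous_rotQ.comp (f := fun u : ℝ × ℝ =>
      (((1 - u.1 : ℝ) : ℂ) * ex u.2, u.1)) (by fun_prop)).clm_comp ((continuous_rotQ.comp
        (f := fun u : ℝ × ℝ => (((1 - u.1 : ℝ) : ℂ) * 1, u.1)) (by fun_prop)).clm_comp
          (continuous_clm_apply.2 fun v => by simp only [rot_mu]; fun_prop))),
    fun l _ t => ⟨(i l _ (n t)).comp ((i l 1 one_ne_zero).comp fun v w h => Prod.ext
      (mul_left_cancel₀ (n _) (congrArg Prod.fst h)) (congrArg (·.2) h)), ?_⟩,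
    funext fun t => ContinuousLinearMap.ext fun v => ?_,
    funext fun t => ContinuousLinearMap.ext fun v => ?_⟩
  · have := z 1
    simp only [Int.cast_one] at this
    simp only [mul_add, mul_one, a, z, this]
  · have u : Complex.normSq (ex t) = 1 := by
      rw [Complex.normSq_eq_norm_sq, ex, show (2 * Real.pi * t * .I : ℂ) =
        ((2 * Real.pi * t : ℝ) : ℂ) * .I by push_cast; rfl, Complex.norm_exp_ofReal_mul_I, one_pow]
    simp [rotQ_apply, rot_mu, add_mul, two_mul, a, u]
    ring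
  · simp [rotQ_apply, rot_mu]

/-- The quaternion with given coordinates. -/
def rotE (u : ℝ × E3) : ℍ := ⟨u.1, u.2.1.re, u.2.1.im, u.2.2⟩

/-- `v ↦ Im (M v * conj (M 1))`. -/
def rotP (M : ℝ × E3 →L[ℝ] ℝ × E3) : E3 →L[ℝ] E3 := LinearMap.toContinuousLinearMap
  { toFun v := let q := rotE (M (0, v)) * star (rotE (M (1, 0)))
      (q.imI + q.imJ * .I, q.imK)
    map_add' v w := by
      rw [show ((0 : ℝ), v + w) = (0, v) + (0, w) by simp, map_add]
      refine Prod.ext (Complex.ext ?_ ?_) ?_ <;> simp [rotE] <;> ring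
    map_smul' r v := by
      rw [show ((0 : ℝ), r • v) = r • (0, v) by simp, map_smul]
      refine Prod.ext (Complex.ext ?_ ?_) ?_ <;> simp [rotE] <;> ring }

theorem rotP_apply (M : ℝ × E3 →L[ℝ] ℝ × E3) (v : E3) : rotP M v =
    (((rotE (M (0, v)) * star (rotE (M (1, 0)))).imI : ℂ) +
      (rotE (M (0, v)) * star (rotE (M (1, 0)))).imJ * Complex.I,
        (rotE (M (0, v)) * star (rotE (M (1, 0)))).imK) := rfl

theorem continuous_rotP : Continuous rotP := continuous_clm_apply.2 fun v => by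
  simp only [rotP_apply, rotE, Quaternion.imI_mul, Quaternion.imJ_mul, Quaternion.imK_mul,
    Quaternion.re_star, Quaternion.imI_star, Quaternion.imJ_star, Quaternion.imK_star]
  fun_prop

theorem rotP_inj {M : ℝ × E3 →L[ℝ] ℝ × E3} (h : Function.Injective M) :
    Function.Injective (rotP M) := by
  refine (injective_iff_map_eq_zero _).2 fun v e => ?_
  obtain ⟨p, q⟩ := Prod.ext_iff.1 ((rotP_apply M v).symm.trans e)
  set x := rotE (M (0, v)) * star (rotE (M (1, 0))) with hx
  have k : x = (x.re : ℍ) := by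
    ext
    · rfl
    · simpa using congrArg Complex.re p
    · simpa using congrArg Complex.im p
    · exact q
  have j : ∀ u w : ℝ × E3, rotE u = rotE w → u = w := fun u w h => Prod.ext (congrArg (·.re) h)
    (Prod.ext (Complex.ext (congrArg (·.imI) h) (congrArg (·.imJ) h)) (congrArg (·.imK) h))
  have s : ∀ (r : ℝ) u, rotE (r • u) = r • rotE u := fun r u => by ext <;> simp [rotE]
  have n : Quaternion.normSq (rotE (M (1, 0))) ≠ 0 := Quaternion.normSq_ne_zero.2 fun a =>
    one_ne_zero (congrArg Prod.fst (h ((j _ 0 a).trans (map_zero M).symm)))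
  have l : M (Quaternion.normSq (rotE (M (1, 0))) • (0, v)) = M (x.re • (1, 0)) := j _ _ (by
    rw [map_smul, map_smul, s, s, ← Quaternion.mul_coe_eq_smul, ← Quaternion.star_mul_self,
      ← mul_assoc, ← hx, ← Quaternion.coe_mul_eq_smul, ← k])
  exact (smul_eq_zero.1 ((congrArg Prod.snd (h l)).trans (smul_zero _))).resolve_left n

theorem rotP_diag (A : E3 →L[ℝ] E3) : rotP ((ContinuousLinearMap.id ℝ ℝ).prodMap A) = A :=
  ContinuousLinearMap.ext fun v => by
    refine Prod.ext (Complex.ext ?_ ?_) ?_ <;> simp [rotP_apply, rotE]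

theorem hl_stab {α β : ℝ → E3 →L[ℝ] E3} (h : Hl (Inj (ℝ × E3))
    (fun t => (ContinuousLinearMap.id ℝ ℝ).prodMap (α t))
    fun t => (ContinuousLinearMap.id ℝ ℝ).prodMap (β t)) : Hl (Inj E3) α β := by
  obtain ⟨H, c, m, a, b⟩ := h
  exact ⟨fun l t => rotP (H l t), continuous_rotP.comp_continuousOn c, fun l k t =>
    ⟨rotP_inj (m l k t).1, congrArg rotP (m l k t).2⟩, funext fun t => by
      simp only [a, rotP_diag], funext fun t => by simp only [b, rotP_diag]⟩

end Pool.Agent.Lib.MP_b2e238_gt
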