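import Pool.Agent.Lib.MP_b2e238_gt.K.Ring
import Pool.Agent.Lib.MP_b2e238_gt.TL.Emb

/-! Open embeddings of submanifolds. -/

open scoped ContDiff Topology
open Set Metric

noncomputable section

namespace Pool.Agent.Lib.MP_b2e238_gt

variable {P Q U V W : Type} [NormedAddCommGroup P] [NormedSpace ℝ P] [NormedAddCommGroup Q]
  [NormedSpace ℝ Q] [NormedAddCommGroup U] [NormedSpace ℝ U] [NormedAddCommGroup V]
  [NormedSpace ℝ V] [NormedAddCommGroup W] [NormedSpace ℝ W]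
variable {X X' : Set U} {A A' : Set V} {B : Set W} {φ φ' : U → V} {ψ : V → W}

theorem Emb.opn (h : Emb X A φ) : Opn (φ '' X) A := h.1
theorem Emb.refl (X : Set U) : Emb X X id := (Dif.refl X).emb (Opn.refl X)
theorem Opn.emb (h : Opn X' X) : Emb X' X id := (Dif.refl X').emb h
theorem Emb.prod {Y : Set P} {χ : P → W} (h : Emb X A φ) (k : Emb Y B χ) :
    Emb (X ×ˢ Y) (A ×ˢ B) (Prod.map φ χ) := by
  obtain ⟨a, _, d⟩ := h
  obtain ⟨b, _, d'⟩ := k
  exact (d.prod d').emb (a.prod b)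
theorem Opn.of_open {O : Set V} (o : IsOpen O) (A : Set V) : Opn (A ∩ O) A := opn_iff.2 ⟨O, o, rfl⟩

/-- Injective local embeddings. -/
theorem emb_of_loc (i : InjOn φ X) (h : ∀ x ∈ X, ∃ N, Opn N X ∧ x ∈ N ∧ Emb N A φ) :
    Emb X A φ := by
  rcases X.eq_empty_or_nonempty with rfl | ⟨x₀, -⟩
  · exact ⟨⟨by simp, by simp⟩, fun _ => 0, by simp, by simp, by simp, by simp, by simp, by simp⟩
  have : Nonempty U := ⟨x₀⟩
  have o : Opn (φ '' X) A := ⟨by
      rintro _ ⟨x, hx, rfl⟩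
      obtain ⟨N, -, b, c⟩ := h x hx
      exact c.mapsTo b, by
      rintro _ ⟨x, hx, rfl⟩
      obtain ⟨N, a, b, c⟩ := h x hx
      exact Filter.mem_of_superset (c.1.2 _ (mem_image_of_mem _ b)) (image_mono a.1)⟩
  refine ⟨o, Function.invFunOn φ X, fun x hx => ?_, ?_, mapsTo_image _ _,
    fun y hy => Function.invFunOn_mem hy, fun x hx => i.leftInvOn_invFunOn hx,
    fun y hy => Function.invFunOn_eq hy⟩
  · obtain ⟨N, a, b, c⟩ := h x hx
    exact (c.smooth x b).mono_of_mem_nhdsWithin (a.2 x b)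
  · rintro _ ⟨x, hx, rfl⟩
    obtain ⟨N, a, b, c, χ, d⟩ := h x hx
    refine ((d.cG.congr ?_) _ (mem_image_of_mem _ b)).mono_of_mem_nhdsWithin
      (nhdsWithin_mono _ o.1 (c.2 _ (mem_image_of_mem _ b)))
    rintro _ ⟨y, hy, rfl⟩
    rw [d.gf y hy]
    exact i.leftInvOn_invFunOn (a.1 hy)

variable [FiniteDimensional ℝ P] [FiniteDimensional ℝ Q] [FiniteDimensional ℝ U]
  [FiniteDimensional ℝ V] [FiniteDimensional ℝ W]

theorem Par.emb (h : Par A φ X) : Emb X A φ := ⟨h.opn, h.dif⟩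
theorem Emb.par (h : Emb X A φ) (o : IsOpen X) : Par A φ X := h.2.choose_spec.to_par o h.1
theorem Emb.tb {T : ℝ × E3 → V} {r : ℝ} (k : Emb A B ψ) (h : Tb A T r) : Tb B (ψ ∘ T) r :=
  h.dif k.2.choose_spec (Opn.refl A) k.1 fun t _ a => h.mem t a

theorem mf_open (o : IsOpen X) : Mf U X := fun a ha =>
  ⟨id, X, (Emb.refl X).par o, a, ha, rfl⟩
theorem Mf.dim (h : Mf P A) (e : Module.finrank ℝ P = Module.finrank ℝ Q) : Mf Q A :=
  h.equiv (ContinuousLinearEquiv.ofFinrankEq e)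

/-- Injective maps whose expressions in charts are immersions. -/
theorem emb_of_chart (hX : Mf P X) (hA : Mf P A) (c : ContDiffOn ℝ ∞ φ X) (m : MapsTo φ X A)
    (i : InjOn φ X) (d : ∀ (f : P → U) (N : Set P), Par X f N → ∀ u ∈ N,
      Function.Injective (fderiv ℝ (φ ∘ f) u)) : Emb X A φ := by
  refine emb_of_loc i fun x hx => ?_
  obtain ⟨f, N, p, hN⟩ := hX x hx
  obtain ⟨g, e⟩ := p.dif
  have q := par_of_inj hA p.1 (c.comp p.2.1 p.2.2.2.1) (m.comp p.2.2.2.1)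
    (i.comp p.2.2.1 p.2.2.2.1) (d f N p)
  exact ⟨_, p.opn, hN, ((e.symm.emb (Opn.refl N)).comp q.emb).congr fun y hy =>
    congrArg φ (e.fg y hy).symm⟩

/-- A smooth map with a smooth left inverse between manifolds of the same dimension. -/
theorem emb_of_left (hX : Mf P X) (hA : Mf P A) (c : ContDiffOn ℝ ∞ φ X) (m : MapsTo φ X A)
    {χ : V → U} (c' : ContDiffOn ℝ ∞ χ (φ '' X)) (l : ∀ x ∈ X, χ (φ x) = x) : Emb X A φ := by
  refine emb_of_chart hX hA c m (fun x a y b e => by rw [← l x a, e, l y b]) fun f N p u hu => ?_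
  have n := p.1.mem_nhds hu
  have d₁ : HasFDerivAt (φ ∘ f) (fderiv ℝ (φ ∘ f) u) u :=
    (((c.comp p.2.1 p.2.2.2.1).contDiffAt n).differentiableAt (by simp)).hasFDerivAt
  have d₂ := ((c' _ (mem_image_of_mem φ (p.2.2.2.1 hu))).differentiableWithinAt
    (by simp)).hasFDerivWithinAt
  have d₃ := (d₂.comp u (d₁.hasFDerivWithinAt (s := N))
    fun y hy => mem_image_of_mem φ (p.2.2.2.1 hy)).hasFDerivAt n
  have d₄ := (d₃.congr_of_eventuallyEq (f₁ := f)
    (Filter.mem_of_superset n fun y hy => (l _ (p.2.2.2.1 hy)).symm)).fderiv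
  have := (p.2.2.2.2 u hu).1
  rw [d₄] at this
  exact Function.Injective.of_comp this

/-- Injective immersions between manifolds of the same dimension. -/
theorem emb_of_inj (hX : Mf P X) (hA : Mf P A) (c : ContDiffOn ℝ ∞ φ X) (m : MapsTo φ X A)
    (i : InjOn φ X) (d : ∀ x ∈ X, DifferentiableAt ℝ φ x ∧
      ∀ v ∈ Tan X x, fderiv ℝ φ x v = 0 → v = 0) : Emb X A φ := by
  refine emb_of_chart hX hA c m i fun f N p u hu => ?_
  obtain ⟨a, b⟩ := d _ (p.2.2.2.1 hu)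
  rw [fderiv_comp u a ((p.2.1.contDiffAt (p.1.mem_nhds hu)).differentiableAt (by simp))]
  refine (injective_iff_map_eq_zero _).2 fun v e => (p.2.2.2.2 u hu).1 ?_
  rw [map_zero]
  exact b _ (p.tan hu ▸ ⟨v, rfl⟩) e

omit [FiniteDimensional ℝ U] [FiniteDimensional ℝ V] in
/-- A local embedding that is injective on a compact set embeds a neighbourhood. -/
theorem emb_nbhd {K : Set U} (k : IsCompact K) (s : K ⊆ X) (i : InjOn φ K)
    (h : ∀ x ∈ K, ∃ N, Opn N X ∧ x ∈ N ∧ Emb N A φ) : ∃ N, Opn N X ∧ K ⊆ N ∧ Emb N A φ := by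
  have k' : IsCompact ((↑) ⁻¹' K : Set X) :=
    Topology.IsInducing.subtypeVal.isCompact_preimage' k (by simpa using s)
  obtain ⟨t, o, a, b⟩ := InjOn.exists_isOpen_superset (f := fun x : X => φ x)
    (fun x hx y hy e => Subtype.ext (i hx hy e)) k' (fun x hx => by
      obtain ⟨N, p, q, r⟩ := h x hx
      exact (continuousWithinAt_iff_continuousAt_restrict φ x.2).1
        ((r.smooth.continuousOn _ q).mono_of_mem_nhdsWithin (p.2 _ q))) fun x hx => by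
      obtain ⟨N, p, q, r⟩ := h x hx
      exact ⟨(↑) ⁻¹' N, preimage_coe_mem_nhds_subtype.2 (p.2 _ q),
        fun y hy z hz e => Subtype.ext (r.injOn hy hz e)⟩
  obtain ⟨O, hO, rfl⟩ := isOpen_induced_iff.1 o
  choose! N hN using h
  have e : Opn (⋃ x ∈ K, N x ∩ O) X := ⟨iUnion₂_subset fun x hx => inter_subset_left.trans (hN x hx).1.1,
    fun y hy => by
      obtain ⟨x, hx, p, q⟩ := mem_iUnion₂.1 hy
      exact Filter.mem_of_superset (Filter.inter_mem ((hN x hx).1.2 y p)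
        (mem_nhdsWithin_of_mem_nhds (hO.mem_nhds q))) (subset_biUnion_of_mem (u := fun x => N x ∩ O) hx)⟩
  refine ⟨_, e, fun x hx => mem_iUnion₂.2 ⟨x, hx, (hN x hx).2.1, a (a := ⟨x, s hx⟩) hx⟩,
    emb_of_loc (fun y hy z hz r => ?_) fun y hy => ?_⟩
  · obtain ⟨_, -, -, p⟩ := mem_iUnion₂.1 hy
    obtain ⟨_, -, -, q⟩ := mem_iUnion₂.1 hz
    exact congrArg Subtype.val (b (x₁ := ⟨y, e.1 hy⟩) p (x₂ := ⟨z, e.1 hz⟩) q r)
  · obtain ⟨x, hx, p⟩ := mem_iUnion₂.1 hy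
    refine ⟨N x ∩ O, ⟨subset_biUnion_of_mem (u := fun x => N x ∩ O) hx, fun z hz =>
      nhdsWithin_mono z e.1 (((Opn.of_open hO _).trans (hN x hx).1).2 z hz)⟩, p,
      (hN x hx).2.2.mono (Opn.of_open hO _)⟩

omit [FiniteDimensional ℝ U] in
theorem tan_open (o : IsOpen X) {x : U} (h : x ∈ X) (v : U) : v ∈ Tan X x := by
  have l : HasDerivAt (fun t : ℝ => x + t • v) v 0 := by
    simpa using ((hasDerivAt_id (0 : ℝ)).smul_const v).const_add x
  exact ⟨_, l, by simp, l.continuousAt.eventually (o.mem_nhds (by simpa using h))⟩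

omit [FiniteDimensional ℝ V] [FiniteDimensional ℝ W] in
theorem tan_prod {a v : V} {b w : W} : (v, w) ∈ Tan (A ×ˢ B) (a, b) ↔ v ∈ Tan A a ∧ w ∈ Tan B b :=
  ⟨fun ⟨g, h1, h2, h3⟩ =>
    ⟨⟨fun t => (g t).1, (ContinuousLinearMap.fst ℝ V W).hasFDerivAt.comp_hasDerivAt 0 h1,
      congrArg Prod.fst h2, h3.mono fun _ k => k.1⟩,
    fun t => (g t).2, (ContinuousLinearMap.snd ℝ V W).hasFDerivAt.comp_hasDerivAt 0 h1,
      congrArg Prod.snd h2, h3.mono fun _ k => k.2⟩,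
    fun ⟨⟨g, h1, h2, h3⟩, g', k1, k2, k3⟩ =>
      ⟨fun t => (g t, g' t), h1.prodMk k1, Prod.ext h2 k2, h3.and k3⟩⟩

omit [FiniteDimensional ℝ V] [FiniteDimensional ℝ W] in
/-- The derivative of a map into `B` sends tangent vectors to tangent vectors. -/
theorem Tan.map {a v : V} (h : v ∈ Tan A a) (d : DifferentiableAt ℝ ψ a)
    (m : ∀ᶠ x in 𝓝[A] a, ψ x ∈ B) : fderiv ℝ ψ a v ∈ Tan B (ψ a) := by
  obtain ⟨g, h1, rfl, h3⟩ := h
  exact ⟨ψ ∘ g, d.hasFDerivAt.comp_hasDerivAt 0 h1, rfl,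
    (tendsto_nhdsWithin_iff.2 ⟨h1.continuousAt, h3⟩).eventually m⟩

end Pool.Agent.Lib.MP_b2e238_gt
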