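import Pool.Agent.Lib.MP_b2e238_gt.K.Emb
import Pool.Agent.Lib.MP_b2e238_gt.K.Lev

/-! Spheres as submanifolds. -/

open scoped ContDiff Topology
open Set Metric

noncomputable section

namespace Pool.Agent.Lib.MP_b2e238_gt

variable {P V : Type} [NormedAddCommGroup P] [NormedSpace ℝ P] [NormedAddCommGroup V]
  [NormedSpace ℝ V] [FiniteDimensional ℝ P] [FiniteDimensional ℝ V]

/-- Level sets of quadratic functions. -/
theorem level_quad {g : V → ℝ} {M : Set V} (c : ContDiff ℝ ∞ g) (e : ∀ a, a ∈ M ↔ g a = 1)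
    (q : ∀ (t : ℝ) a, g (t • a) = t ^ 2 * g a) (b : ∀ a ∈ M, ‖a‖ ≤ 1)
    (d : Module.finrank ℝ P + 1 = Module.finrank ℝ V) :
    IsCompact M ∧ Mf P M ∧ Rt M ∧ ∀ a ∈ M, Tan M a = {v | fderiv ℝ g a v = 0} := by
  have k : IsCompact M := (isCompact_closedBall (0 : V) 1).of_isClosed_subset
    (by rw [show M = g ⁻¹' {1} from Set.ext e]; exact isClosed_singleton.preimage c.continuous)
    fun a ha => mem_closedBall_zero_iff.2 (b a ha)
  refine ⟨k, level c e k (fun a ha r => ⟨(r / 2) • a, ?_⟩) (by simpa using d)⟩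
  have d₁ : HasDerivAt (fun t : ℝ => g (t • a)) (fderiv ℝ g a a) 1 :=
    (c.differentiable (by simp) a).hasFDerivAt.comp_hasDerivAt_of_eq 1
      (by simpa using (hasDerivAt_id (1 : ℝ)).smul_const a) (by simp)
  have d₂ : HasDerivAt (fun t : ℝ => g (t • a)) 2 1 := by
    simp only [q, (e a).1 ha, mul_one]
    simpa using hasDerivAt_pow 2 (1 : ℝ)
  rw [map_smul, d₁.unique d₂]
  simp

theorem sph_S1 : IsCompact S1 ∧ Mf ℝ S1 ∧ Rt S1 ∧
    ∀ a ∈ S1, Tan S1 a = {v | fderiv ℝ (fun z : ℂ => ‖z‖ ^ 2) a v = 0} :=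
  level_quad (contDiff_norm_sq ℝ) (fun a => by
      rw [mem_sphere_zero_iff_norm, pow_eq_one_iff_of_nonneg (norm_nonneg a) two_ne_zero])
    (fun t a => by rw [norm_smul, mul_pow, Real.norm_eq_abs, sq_abs])
    (fun a ha => (mem_sphere_zero_iff_norm.1 ha).le) (by simp)

theorem mf_S1 : Mf ℝ S1 := sph_S1.2.1

theorem tan_S1 {a v : ℂ} (h : a ∈ S1) : v ∈ Tan S1 a ↔ a.re * v.re + a.im * v.im = 0 := by
  rw [sph_S1.2.2.2 a h, mem_setOf_eq, (hasStrictFDerivAt_norm_sq a).hasFDerivAt.fderiv]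
  simp [Complex.inner, mul_comm, ← add_mul]

theorem sph_S2 : Mf ℂ S2 ∧ Rt S2 :=
  have h := level_quad (P := ℂ) (g := fun a : E3 => ‖a.1‖ ^ 2 + a.2 ^ 2) (M := S2)
    (((contDiff_norm_sq ℝ).comp contDiff_fst).add (contDiff_snd.pow 2)) (fun _ => Iff.rfl)
    (fun t a => by simp [norm_smul, mul_pow, mul_add]) (fun _ ha => (S2.norm_le ha).1) (by simp)
  ⟨h.2.1, h.2.2.1⟩

theorem mf_S2 : Mf ℂ S2 := sph_S2.1

theorem sph_Sph {Z : Type} [NormedAddCommGroup Z] [InnerProductSpace ℝ Z] [FiniteDimensional ℝ Z]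
    (d : Module.finrank ℝ P = Module.finrank ℝ Z + 2) :
    IsCompact (Sph Z) ∧ Mf P (Sph Z) ∧ Rt (Sph Z) :=
  have h := level_quad (P := P) (M := Sph Z)
    (g := fun a : (ℝ × ℂ) × Z => a.1.1 ^ 2 + ‖a.1.2‖ ^ 2 + ‖a.2‖ ^ 2)
    (((contDiff_fst.fst.pow 2).add ((contDiff_norm_sq ℝ).comp contDiff_fst.snd)).add
      ((contDiff_norm_sq ℝ).comp contDiff_snd)) (fun _ => Iff.rfl)
    (fun t a => by simp [norm_smul, mul_pow, mul_add]) (fun a ha => by
      have e : a.1.1 ^ 2 + ‖a.1.2‖ ^ 2 + ‖a.2‖ ^ 2 = 1 := ha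
      have p := sq_nonneg a.1.1
      have q := sq_nonneg ‖a.1.2‖
      have r := sq_nonneg ‖a.2‖
      simp only [Prod.norm_def, max_le_iff, Real.norm_eq_abs]
      exact ⟨⟨abs_le_one_iff_mul_self_le_one.2 (by nlinarith),
        (pow_le_one_iff_of_nonneg (norm_nonneg _) two_ne_zero).1 (by linarith)⟩,
        (pow_le_one_iff_of_nonneg (norm_nonneg _) two_ne_zero).1 (by linarith)⟩)
    (by simp [d]; omega)
  ⟨h.1, h.2.1, h.2.2.1⟩

theorem mf_S3 : Mf E3 (Sph ℝ) := (sph_Sph (by simp)).2.1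

theorem rt_S3 : Rt (Sph ℝ) := (sph_Sph (P := E3) (by simp)).2.2

theorem mf_S4 : Mf (ℝ × E3) S4 := (sph_Sph (by simp)).2.1

end Pool.Agent.Lib.MP_b2e238_gt
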