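import Pool.Agent.Lib.MP_b2e238_gt.K.HU
import Pool.Agent.Lib.MP_b2e238_gt.C.Defs

/-! Tubes round graphs, constant changes of the frame, reversed loops. -/

open scoped ContDiff Topology
open Set Metric

noncomputable section

namespace Pool.Agent.Lib.MP_b2e238_gt

variable {V W : Type} [NormedAddCommGroup V] [NormedSpace ℝ V] [NormedAddCommGroup W]
  [NormedSpace ℝ W] [FiniteDimensional ℝ V] [FiniteDimensional ℝ W] {Y : Set V} {X : Set W}
  {om : V → V →L[ℝ] E3} {γ : ℝ → V} {A : ℝ → E3 →L[ℝ] E3}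

theorem Hl.neg {Z : Type} [TopologicalSpace Z] {S : Set Z} {δ δ' : ℝ → Z} (h : Hl S δ δ') :
    Hl S (fun t => δ (-t)) fun t => δ' (-t) := by
  obtain ⟨H, c, k, rfl, rfl⟩ := h.glob
  exact hl_mk (H := fun l t => H l (-t)) (c.comp (continuous_fst.prodMk continuous_snd.neg))
    fun l _ t => ⟨(k l _).1, by rw [← (k l (-(t + 1))).2]; congr 1; ring⟩

theorem Tb.lin {T : ℝ × E3 → V} {r : ℝ} (h : Tb Y T r) (L : E3 ≃L[ℝ] E3) :
    ∃ r', Tb Y (fun u => T (u.1, L u.2)) r' := by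
  have o : IsOpen (L ⁻¹' ball 0 r) := isOpen_ball.preimage L.continuous
  obtain ⟨r', p, k⟩ := Metric.isOpen_iff.1 o 0 (by simpa using h.1)
  refine ⟨r', p, fun t x => h.2.1 t _, fun s => ?_⟩
  have d : Dif (L ⁻¹' ball 0 r) (ball 0 r) L L.symm := ⟨L.contDiff.contDiffOn,
    L.symm.contDiff.contDiffOn, fun _ m => m, fun _ m => by simpa using m,
    fun _ _ => L.symm_apply_apply _, fun _ _ => L.apply_symm_apply _⟩
  exact ((h.2.2 s).comp ((Dif.refl _).prod d) (isOpen_Ioo.prod o)).mono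
    (isOpen_Ioo.prod isOpen_ball) (prod_mono_right k)

theorem Tb.neg {T : ℝ × E3 → V} {r : ℝ} (h : Tb Y T r) : Tb Y (fun u => T (-u.1, u.2)) r := by
  refine ⟨h.1, fun t x => (h.2.1 _ x).symm.trans (by congr 2; ring), fun s => ?_⟩
  have d : Dif (Ioo s (s + 1)) (Ioo (-s - 1) (-s - 1 + 1)) Neg.neg Neg.neg :=
    ⟨contDiff_neg.contDiffOn, contDiff_neg.contDiffOn, fun _ m => ⟨by linarith [m.2],
      by linarith [m.1]⟩, fun _ m => ⟨by linarith [m.2], by linarith [m.1]⟩,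
      fun _ _ => neg_neg _, fun _ _ => neg_neg _⟩
  exact (h.2.2 _).comp (d.prod (Dif.refl _)) (isOpen_Ioo.prod isOpen_ball)

theorem FL.lin {N : ℝ → E3 →L[ℝ] V} (z : FL Y γ N X) (L : E3 ≃L[ℝ] E3) :
    FL Y γ (fun t => N t ∘L (L : E3 →L[ℝ] E3)) X := by
  obtain ⟨T, r, h, e, d, s⟩ := z
  obtain ⟨r', h'⟩ := h.lin L
  refine ⟨_, r', h', fun t => by simpa using e t, fun t x => ?_, s.lin L⟩
  have k : HasFDerivAt (fun u : ℝ × E3 => T (u.1, L u.2)) (fderiv ℝ T (t, 0) ∘L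
      (ContinuousLinearMap.id ℝ ℝ).prodMap (L : E3 →L[ℝ] E3)) (t, 0) :=
    HasFDerivAt.comp (t, 0) (f := (ContinuousLinearMap.id ℝ ℝ).prodMap (L : E3 →L[ℝ] E3))
      (by simpa using ((h.flAt t).differentiableAt (by simp)).hasFDerivAt)
      (ContinuousLinearMap.hasFDerivAt _)
  rw [k.fderiv]
  exact d t (L x)

theorem FL.neg {N : ℝ → E3 →L[ℝ] V} (z : FL Y γ N X) :
    FL Y (fun t => γ (-t)) (fun t => N (-t)) X := by
  obtain ⟨T, r, h, e, d, s⟩ := z
  refine ⟨_, r, h.neg, fun t => e _, fun t x => ?_, s.flip⟩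
  have k : HasFDerivAt (fun u : ℝ × E3 => T (-u.1, u.2)) (fderiv ℝ T (-t, 0) ∘L
      (-ContinuousLinearMap.id ℝ ℝ).prodMap (ContinuousLinearMap.id ℝ E3)) (t, 0) :=
    HasFDerivAt.comp (t, 0)
      (f := (-ContinuousLinearMap.id ℝ ℝ).prodMap (ContinuousLinearMap.id ℝ E3))
      ((h.flAt (-t)).differentiableAt (by simp)).hasFDerivAt (ContinuousLinearMap.hasFDerivAt _)
  rw [k.fderiv, ← d]
  simp

/-- Tubes round graphs that need not preserve the fibres: `a t x` is the angular part of the normal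
derivative. -/
theorem gq_graph (h : Cf Y om) (hY : Mf E3 Y) (hR : Rt Y) {T : ℝ × E3 → V × ℂ} {r : ℝ}
    (hT : Tb (Y ×ˢ S1) T r) (e : ∀ t, T (t, 0) = (γ t, ex t)) {a : ℝ → E3 → ℝ}
    (ha : ∀ t x, (fderiv ℝ T (t, 0) (0, x)).2 = 2 * Real.pi * .I * ex t * a t x)
    (hA : ∀ t x, A t x = om (γ t) ((fderiv ℝ T (t, 0) (0, x)).1 - a t x • deriv γ t)) :
    Surg (Y ×ˢ S1) T X ↔ Gq Y om γ A X := by
  have i : ContDiff ℝ ∞ fun t : ℝ => ((t, 0) : ℝ × E3) := contDiff_id.prodMk contDiff_const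
  have r0 : ‖(0 : E3)‖ < r := by simpa using hT.1
  have e' : (fun t => T (t, 0)) = fun t => (γ t, ex t) := funext e
  have cc : ContDiff ℝ ∞ fun t => (γ t, ex t) :=
    e' ▸ contDiff_iff_contDiffAt.2 fun t => (hT.flAt t).comp t i.contDiffAt
  have cγ : ContDiff ℝ ∞ γ := cc.fst
  have m (t) : γ t ∈ Y := (e t ▸ hT.mem t r0).1
  have dc (t) : deriv (fun t => (γ t, ex t)) t = (deriv γ t, 2 * Real.pi * .I * ex t) :=
    ((cγ.differentiable (by simp) t).hasDerivAt.prodMk (hasDerivAt_ex t)).deriv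
  set N : ℝ → E3 →L[ℝ] V × ℂ := fun t => fderiv ℝ T (t, 0) ∘L .inr ℝ ℝ E3 with hN
  have cN : ContDiff ℝ ∞ N := contDiff_iff_contDiffAt.2 fun t =>
    (((hT.flAt t).fderiv_right (m := ∞) le_rfl).comp t i.contDiffAt).clm_comp contDiffAt_const
  have pN (t) : N (t + 1) = N t := by
    have : (fun u : ℝ × E3 => T (u + (1, 0))) = T := funext fun ⟨a, x⟩ => by
      simpa using hT.2.1 a x
    have k := fderiv_comp_add_right (𝕜 := ℝ) (f := T) (x := (t, 0)) ((1, 0) : ℝ × E3)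
    rw [this] at k
    simp [hN, k]
  set β : ℝ → E3 →L[ℝ] ℝ := fun t => (Complex.reCLM ∘L ContinuousLinearMap.mul ℝ ℂ
    ((2 * Real.pi * Complex.I)⁻¹ * ex (-t))) ∘L (ContinuousLinearMap.snd ℝ V ℂ ∘L N t) with hβ
  have eβ (t x) : β t x = a t x := by
    have k : (2 * Real.pi * Complex.I)⁻¹ * ex (-t) * (2 * Real.pi * .I * ex t * a t x) =
        (a t x : ℂ) := by
      have := rg_neg t
      have k := inv_mul_cancel₀ Complex.two_pi_I_ne_zero
      linear_combination (ex t * ex (-t) * a t x) * k + (a t x) * this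
    show ((2 * Real.pi * Complex.I)⁻¹ * ex (-t) * (fderiv ℝ T (t, 0) (0, x)).2).re = _
    rw [ha, k, Complex.ofReal_re]
  have cβ : ContDiff ℝ ∞ β := (contDiff_const.clm_comp ((ContinuousLinearMap.mul ℝ ℂ).contDiff.comp
    (contDiff_const.mul (contDiff_ex.comp contDiff_neg)))).clm_comp (contDiff_const.clm_comp cN)
  have pβ (t) : β (t + 1) = β t := by
    simp only [hβ, pN]
    rw [← ex_one (-(t + 1)), neg_add, neg_add_cancel_right]
  set N₁ : ℝ → E3 →L[ℝ] V := fun t =>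
    ContinuousLinearMap.fst ℝ V ℂ ∘L N t - (β t).smulRight (deriv γ t) with hN₁
  have eA : A = fun t => om (γ t) ∘L N₁ t := funext fun t => ContinuousLinearMap.ext fun x => by
    rw [hA, ← eβ]; rfl
  have sh (t x) : ((N₁ t).prod 0) x + β t x • deriv (fun t => (γ t, ex t)) t = N t x := by
    rw [dc]
    refine Prod.ext (sub_add_cancel _ _) ?_
    show 0 + β t x • (2 * Real.pi * .I * ex t) = (fderiv ℝ T (t, 0) (0, x)).2
    rw [ha, eβ, zero_add, Complex.real_smul, mul_comm]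
  refine ⟨fun z => GF.gq ⟨N₁, fun t => by rw [eA], ?_⟩ h, fun z => ?_⟩
  · have := FL.shear ⟨T, r, hT, e, fun t x => (rfl : _ = N t x), z⟩ hY.circ hR.circ cβ.neg
      fun t => by rw [pβ]
    convert this using 2 with t
    refine ContinuousLinearMap.ext fun x => ?_
    rw [ContinuousLinearMap.add_apply, ← sh]
    simp
  · obtain ⟨N₂, n1, n2⟩ := z.gf h hY hR cγ (eA ▸ (h.1.comp_contDiff cγ m).clm_comp
      ((contDiff_const.clm_comp cN).sub (cβ.smulRight (cγ.deriv' (n := ∞)))))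
    obtain ⟨τ, -, hτ⟩ := h.frame hY hR
    refine (n2.shear hY.circ hR.circ cβ pβ).surg hY.circ hT e fun t x => (sh t x).symm.trans ?_
    refine congrArg (· + _) (Prod.ext ?_ rfl)
    have k := (hτ _ (m t)).2
    have k1 := k _ (hu_tan (n2.facts.2.2.2.2.2.1 t x))
    have k2 : N₁ t x ∈ Tan Y (γ t) := by
      have q := hu_tan ((hT.flJet t).2 ▸ mem_range_self (-β t x, x))
      rw [fl_split ((hT.flAt t).differentiableAt (by simp)), e', e, dc] at q
      convert q using 1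
      simp [hN₁, hN, sub_eq_neg_add]
    exact (k _ k2).symm.trans ((congrArg _ ((DFunLike.congr_fun (congrFun eA t) x).symm.trans
      (DFunLike.congr_fun (n1 t) x).symm)).trans k1)

theorem Gq.lin (z : Gq Y om γ A X) {L : E3 →L[ℝ] E3} (hL : L ∈ Inj E3) :
    Gq Y om γ (fun t => A t ∘L L) X := by
  obtain ⟨δ, D, h1, h2, N, n1, n2⟩ := z
  obtain ⟨L, rfl⟩ := ht_inv hL
  refine ⟨δ, _, h1, h2.comp (.refl continuous_const (fun _ => hL) fun _ => rfl),
    fun t => N t ∘L (L : E3 →L[ℝ] E3), fun t => congrArg (· ∘L (L : E3 →L[ℝ] E3)) (n1 t), ?_⟩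
  convert n2.lin L using 2 with t
  exact ContinuousLinearMap.ext fun x => rfl

theorem Gq.rev (z : Gq Y om γ A X) : Gq Y om (fun t => γ (-t)) (fun t => A (-t)) X := by
  obtain ⟨δ, D, h1, h2, N, n1, n2⟩ := z
  refine ⟨_, _, h1.neg, h2.neg, fun t => N (-t), fun t => n1 _, ?_⟩
  set Φ : V × ℂ →L[ℝ] V × ℂ :=
    (ContinuousLinearMap.id ℝ V).prodMap (Complex.conjCLE : ℂ →L[ℝ] ℂ) with hΦ
  have m : MapsTo Φ (Y ×ˢ sphere (0 : ℂ) 1) (Y ×ˢ sphere (0 : ℂ) 1) := fun p k =>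
    ⟨k.1, by simpa [hΦ] using k.2⟩
  have i (p) (_ : p ∈ Y ×ˢ sphere (0 : ℂ) 1) : Φ (Φ p) = p := Prod.ext rfl (star_star p.2)
  convert n2.neg.dif ⟨Φ.contDiff.contDiffOn, Φ.contDiff.contDiffOn, m, m, i, i⟩
    fun _ => Φ.differentiableAt using 2 with t t
  · simp [hΦ, srg_conj]
  · rw [Φ.fderiv]
    exact ContinuousLinearMap.ext fun x => by simp [hΦ]

end Pool.Agent.Lib.MP_b2e238_gt
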