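import Mathlib

/-! Continuous homotopies between smooth maps can be made smooth. -/

set_option autoImplicit false

open scoped ContDiff Topology
open Set Metric Filter

namespace Pool.Agent.Lib.MP_b2e238_gt

variable {P E V : Type} [NormedAddCommGroup P] [NormedSpace ℝ P] [NormedAddCommGroup E]
  [NormedSpace ℝ E] [NormedAddCommGroup V] [NormedSpace ℝ V]

theorem smooth_htpy [FiniteDimensional ℝ E] {K O : Set E} (hK : IsCompact K) (hO : IsOpen O)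
    (KO : K ⊆ O) {U : Set V} (hU : IsOpen U) {H : ℝ × E → V} (hH : ContinuousOn H (Icc 0 1 ×ˢ K))
    (HU : MapsTo H (Icc 0 1 ×ˢ K) U) {g0 g1 : E → V} (c0 : ContDiffOn ℝ ∞ g0 O)
    (c1 : ContDiffOn ℝ ∞ g1 O) (e0 : ∀ w ∈ K, H (0, w) = g0 w) (e1 : ∀ w ∈ K, H (1, w) = g1 w) :
    ∃ G : ℝ × E → V, ContDiff ℝ ∞ G ∧ ∀ l, ∀ w ∈ K, G (l, w) ∈ U ∧ (l ≤ 0 → G (l, w) = g0 w) ∧
      (1 ≤ l → G (l, w) = g1 w) := by
  obtain ⟨ε, ε0, hε⟩ := ((isCompact_Icc.prod hK).image_of_continuousOn hH).exists_thickening_subset_open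
    hU HU.image_subset
  obtain ⟨F, hF⟩ : ∃ F : ℝ × E → V, ∀ p, F p = H (max 0 (min p.1 1), p.2) := ⟨_, fun _ => rfl⟩
  have mem : ∀ l : ℝ, max 0 (min l 1) ∈ Icc (0 : ℝ) 1 := fun l =>
    ⟨le_max_left _ _, max_le zero_le_one (min_le_right _ _)⟩
  have cF : ContinuousOn F (univ ×ˢ K) := by
    rw [funext hF]
    exact hH.comp (by fun_prop) fun p hp => ⟨mem _, hp.2⟩
  have F0 : ∀ p : ℝ × E, p.2 ∈ K → p.1 ≤ 0 → F p = g0 p.2 := fun p k h => by
    rw [hF, max_eq_left ((min_le_left _ _).trans h), e0 _ k]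
  have F1 : ∀ p : ℝ × E, p.2 ∈ K → 1 ≤ p.1 → F p = g1 p.2 := fun p k h => by
    rw [hF, min_eq_right h, max_eq_right zero_le_one, e1 _ k]
  have near : ∀ p : ℝ × E, p.2 ∈ K → ∀ g : ℝ × E → V, ContinuousAt g p → g p = F p →
      ∀ᶠ q in 𝓝 p, q.2 ∈ K → dist (g q) (F q) < ε := fun p k g cg e => by
    have t : Tendsto (fun q => dist (g q) (F q)) (𝓝[univ ×ˢ K] p) (𝓝 (dist (g p) (F p))) :=
      (cg.continuousWithinAt.tendsto).dist (cF p ⟨mem_univ _, k⟩)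
    rw [e, dist_self] at t
    filter_upwards [eventually_nhdsWithin_iff.1 (t.eventually (gt_mem_nhds ε0))] with q h k
    exact h ⟨mem_univ _, k⟩
  obtain ⟨G, hG⟩ := exists_contMDiffMap_forall_mem_convex_of_local (n := ⊤)
    (modelWithCornersSelf ℝ (ℝ × E)) (t := fun p : ℝ × E => {y : V | p.2 ∈ K →
      dist y (F p) < ε ∧ (p.1 ≤ 0 → y = g0 p.2) ∧ (1 ≤ p.1 → y = g1 p.2)})
    (fun p y hy z hz a b ha hb hab k => ⟨convex_ball (F p) ε (hy k).1 (hz k).1 ha hb hab,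
      fun h => by rw [(hy k).2.1 h, (hz k).2.1 h, ← add_smul, hab, one_smul],
      fun h => by rw [(hy k).2.2 h, (hz k).2.2 h, ← add_smul, hab, one_smul]⟩) fun p => by
    by_cases k : p.2 ∈ K
    swap
    · exact ⟨{q | q.2 ∉ K}, (hK.isClosed.isOpen_compl.preimage continuous_snd).mem_nhds k,
        fun _ => 0, contMDiffOn_const, fun q h k => (h k).elim⟩
    have oO : ∀ᶠ q : ℝ × E in 𝓝 p, q.2 ∈ O := (hO.preimage continuous_snd).mem_nhds (KO k)
    rcases le_or_gt p.1 0 with h | h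
    · refine ⟨_, (oO.and (near p k (fun q => g0 q.2) ((c0.continuousOn.continuousAt
        (hO.mem_nhds (KO k))).comp continuousAt_snd) (F0 p k h).symm)).and
        (continuousAt_fst.eventually (gt_mem_nhds (h.trans_lt one_pos))), fun q => g0 q.2,
        (c0.comp contDiffOn_snd fun q hq => hq.1.1).contMDiffOn,
        fun q hq k => ⟨hq.1.2 k, fun _ => rfl, fun h => absurd hq.2 h.not_gt⟩⟩
    rcases le_or_gt 1 p.1 with h' | h'
    · refine ⟨_, (oO.and (near p k (fun q => g1 q.2) ((c1.continuousOn.continuousAt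
        (hO.mem_nhds (KO k))).comp continuousAt_snd) (F1 p k h').symm)).and
        (continuousAt_fst.eventually (lt_mem_nhds h)), fun q => g1 q.2,
        (c1.comp contDiffOn_snd fun q hq => hq.1.1).contMDiffOn,
        fun q hq k => ⟨hq.1.2 k, fun h => absurd hq.2 h.not_gt, fun _ => rfl⟩⟩
    · exact ⟨_, ((near p k (fun _ => F p) continuousAt_const rfl).and
        (continuousAt_fst.eventually (lt_mem_nhds h))).and
        (continuousAt_fst.eventually (gt_mem_nhds h')), fun _ => F p, contMDiffOn_const,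
        fun q hq k => ⟨hq.1.1 k, fun h => absurd hq.1.2 h.not_gt, fun h => absurd hq.2 h.not_gt⟩⟩
  refine ⟨G, G.contMDiff.contDiff, fun l w k => ⟨hε (mem_thickening_iff.2
    ⟨F (l, w), ⟨_, ⟨mem l, k⟩, (hF _).symm⟩, (hG (l, w) k).1⟩), (hG (l, w) k).2⟩⟩

/-- the point of the unit circle at the time `t` -/
noncomputable def apxE (t : ℝ) : ℂ := Complex.exp (2 * Real.pi * t * .I)

/-- the time of a point of the plane -/
noncomputable def apxT (w : ℂ) : ℝ := w.arg / (2 * Real.pi)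

theorem apxE_norm (t : ℝ) : ‖apxE t‖ = 1 := by
  have := Complex.norm_exp_ofReal_mul_I (2 * Real.pi * t)
  push_cast at this
  exact this

theorem apxE_smooth : ContDiff ℝ ∞ apxE :=
  (Complex.contDiff_exp (𝕜 := ℝ)).comp
    ((contDiff_const.mul Complex.ofRealCLM.contDiff).mul contDiff_const)

theorem apxE_add_one (t : ℝ) : apxE (t + 1) = apxE t := by
  rw [apxE, apxE, ← Complex.exp_periodic (2 * Real.pi * t * .I)]
  congr 1
  push_cast
  ring

theorem apxT_E (t : ℝ) : ∃ n : ℤ, apxT (apxE t) = t + n := by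
  have h := Complex.arg_exp_mul_I (2 * Real.pi * t)
  push_cast at h
  refine ⟨-toIocDiv Real.two_pi_pos (-Real.pi) (2 * Real.pi * t), ?_⟩
  have := Real.pi_pos
  rw [apxT, apxE, h, toIocMod, zsmul_eq_mul]
  push_cast
  field_simp
  ring

theorem apxT_mul {x y : ℂ} (hx : x ≠ 0) (hy : y ≠ 0) :
    ∃ n : ℤ, apxT (x * y) = apxT x + apxT y + n := by
  have h := Complex.arg_mul_coe_angle hx hy
  rw [← Real.Angle.coe_add, Real.Angle.angle_eq_iff_two_pi_dvd_sub] at h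
  obtain ⟨n, h⟩ := h
  have := Real.pi_pos
  refine ⟨n, ?_⟩
  rw [apxT, apxT, apxT, eq_add_of_sub_eq h]
  field_simp
  ring

theorem apxT_at {w : ℂ} (h : w ∈ Complex.slitPlane) : ContDiffAt ℝ ∞ apxT w := by
  have e : apxT = fun w => Complex.imCLM (Complex.log w) / (2 * Real.pi) :=
    funext fun w => by rw [apxT, Complex.imCLM_apply, Complex.log_im]
  rw [e]
  exact (Complex.imCLM.contDiff.contDiffAt.comp w
    ((Complex.contDiffAt_log h).restrict_scalars ℝ)).div_const _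

/-- a map of period one is a map on the punctured plane -/
theorem per_to_circle {n : ℕ∞} {S : Set P} {F : P × ℝ → V} (hF : ContDiffOn ℝ n F (S ×ˢ univ))
    (per : ∀ p ∈ S, ∀ t, F (p, t + 1) = F (p, t)) :
    ContDiffOn ℝ n (fun q : P × ℂ => F (q.1, apxT q.2)) (S ×ˢ {0}ᶜ) ∧
      ∀ p ∈ S, ∀ t, F (p, apxT (apxE t)) = F (p, t) := by
  have int : ∀ p ∈ S, ∀ (t : ℝ) (k : ℤ), F (p, t + k) = F (p, t) := fun p hp t k => by
    simpa using (Function.Periodic.int_mul (f := fun t => F (p, t)) (per p hp) k) t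
  refine ⟨fun q hq => ?_, fun p hp t => ?_⟩
  · have q0 : q.2 ≠ 0 := hq.2
    have c : ContDiffAt ℝ n (fun r : P × ℂ => (r.1, apxT q.2 + apxT (r.2 / q.2))) q :=
      contDiffAt_fst.prodMk (contDiffAt_const.add (((apxT_at (by
        rw [div_self q0]; exact Complex.one_mem_slitPlane)).of_le (mod_cast le_top)).comp q
        (contDiffAt_snd.div_const _)))
    refine ((hF _ ⟨hq.1, mem_univ _⟩).comp q c.contDiffWithinAt fun r hr =>
      ⟨hr.1, mem_univ _⟩).congr_of_mem (fun r hr => ?_) hq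
    obtain ⟨k, e⟩ := apxT_mul q0 (div_ne_zero hr.2 q0)
    rw [mul_div_cancel₀ _ q0] at e
    rw [e]
    exact int _ hr.1 _ _
  · obtain ⟨k, e⟩ := apxT_E t
    rw [e, int p hp]

/-- loops of period one in an open set -/
theorem smooth_htpy_per {U : Set V} (hU : IsOpen U) {H : ℝ × ℝ → V}
    (hH : ContinuousOn H (Icc 0 1 ×ˢ univ)) (per : ∀ l ∈ Icc (0 : ℝ) 1, ∀ t, H (l, t + 1) = H (l, t))
    (HU : ∀ l ∈ Icc (0 : ℝ) 1, ∀ t, H (l, t) ∈ U) (c0 : ContDiff ℝ ∞ fun t => H (0, t))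
    (c1 : ContDiff ℝ ∞ fun t => H (1, t)) :
    ∃ G : ℝ × ℝ → V, ContDiff ℝ ∞ G ∧ ∀ l t, G (l, t + 1) = G (l, t) ∧ G (l, t) ∈ U ∧
      (l ≤ 0 → G (l, t) = H (0, t)) ∧ (1 ≤ l → G (l, t) = H (1, t)) := by
  have m0 : (0 : ℝ) ∈ Icc (0 : ℝ) 1 := ⟨le_rfl, zero_le_one⟩
  have m1 : (1 : ℝ) ∈ Icc (0 : ℝ) 1 := ⟨zero_le_one, le_rfl⟩
  have KO : sphere (0 : ℂ) 1 ⊆ {0}ᶜ := fun w hw e => by
    rw [mem_singleton_iff.1 e] at hw
    simp at hw
  obtain ⟨a, b⟩ := per_to_circle (n := 0) (contDiffOn_zero.2 hH) per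
  have ends : ∀ l ∈ Icc (0 : ℝ) 1, (ContDiff ℝ ∞ fun t => H (l, t)) →
      ContDiffOn ℝ ∞ (fun w => H (l, apxT w)) {0}ᶜ := fun l hl c =>
    (per_to_circle (n := ⊤) (S := univ) (F := fun q : ℝ × ℝ => H (l, q.2))
      (c.comp contDiff_snd).contDiffOn fun _ _ t => per l hl t).1.comp
      (f := fun w : ℂ => ((0 : ℝ), w)) (by fun_prop) fun w hw => ⟨mem_univ _, hw⟩
  obtain ⟨G, hG, k⟩ := smooth_htpy (isCompact_sphere (0 : ℂ) 1) isOpen_compl_singleton KO hU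
    ((contDiffOn_zero.1 a).mono (prod_mono_right KO)) (fun q hq => HU _ hq.1 _) (ends 0 m0 c0)
    (ends 1 m1 c1) (fun _ _ => rfl) fun _ _ => rfl
  refine ⟨fun q => G (q.1, apxE q.2), hG.comp (contDiff_fst.prodMk (apxE_smooth.comp contDiff_snd)),
    fun l t => ?_⟩
  obtain ⟨k1, k2, k3⟩ := k l (apxE t) (mem_sphere_zero_iff_norm.2 (apxE_norm t))
  exact ⟨by simp only [apxE_add_one], k1, fun h => (k2 h).trans (b 0 m0 t),
    fun h => (k3 h).trans (b 1 m1 t)⟩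

/-- loops of period one in a smooth neighbourhood retract -/
theorem smooth_htpy_ret {U A : Set V} (hU : IsOpen U) (AU : A ⊆ U) {R : V → V}
    (hR : ContDiffOn ℝ ∞ R U) (RA : MapsTo R U A) (Rid : ∀ a ∈ A, R a = a) {H : ℝ × ℝ → V}
    (hH : ContinuousOn H (Icc 0 1 ×ˢ univ)) (per : ∀ l ∈ Icc (0 : ℝ) 1, ∀ t, H (l, t + 1) = H (l, t))
    (HA : ∀ l ∈ Icc (0 : ℝ) 1, ∀ t, H (l, t) ∈ A) (c0 : ContDiff ℝ ∞ fun t => H (0, t))
    (c1 : ContDiff ℝ ∞ fun t => H (1, t)) :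
    ∃ G : ℝ × ℝ → V, ContDiff ℝ ∞ G ∧ ∀ l t, G (l, t + 1) = G (l, t) ∧ G (l, t) ∈ A ∧
      (l ≤ 0 → G (l, t) = H (0, t)) ∧ (1 ≤ l → G (l, t) = H (1, t)) := by
  obtain ⟨G, hG, k⟩ := smooth_htpy_per hU hH per (fun l hl t => AU (HA l hl t)) c0 c1
  refine ⟨R ∘ G, hR.comp_contDiff hG fun q => (k q.1 q.2).2.1, fun l t => ?_⟩
  obtain ⟨k0, k1, k2, k3⟩ := k l t
  exact ⟨congrArg R k0, RA k1,
    fun h => (congrArg R (k2 h)).trans (Rid _ (HA 0 ⟨le_rfl, zero_le_one⟩ t)),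
    fun h => (congrArg R (k3 h)).trans (Rid _ (HA 1 ⟨zero_le_one, le_rfl⟩ t))⟩

end Pool.Agent.Lib.MP_b2e238_gt
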