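import Pool.Agent.Lib.MP_b2e238_gt.Defs

/-! Diffeomorphisms of subsets, tubes round circles, surgery, framed loops. -/

open scoped ContDiff Topology
open Set Metric

noncomputable section

namespace Pool.Agent.Lib.MP_b2e238_gt

variable {P V W : Type} [NormedAddCommGroup P] [NormedSpace ℝ P] [NormedAddCommGroup V]
  [NormedSpace ℝ V] [NormedAddCommGroup W] [NormedSpace ℝ W]

/-- The normal space of a circle. -/
abbrev E3 := ℂ × ℝ

/-- The point of the unit circle at the angle `2 π t`. -/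
def ex (t : ℝ) : ℂ := Complex.exp (2 * Real.pi * t * .I)

/-- The unit sphere of `ℂ × ℝ`. -/
def S2 : Set E3 := {a | ‖a.1‖ ^ 2 + a.2 ^ 2 = 1}

/-- `F` is a diffeomorphism from `A` onto `B` with inverse `G`. -/
structure Dif (A : Set V) (B : Set W) (F : V → W) (G : W → V) : Prop where
  cF : ContDiffOn ℝ ∞ F A
  cG : ContDiffOn ℝ ∞ G B
  mF : MapsTo F A B
  mG : MapsTo G B A
  gf : ∀ a ∈ A, G (F a) = a
  fg : ∀ b ∈ B, F (G b) = b

/-- `A` is an open part of `M`. -/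
def Opn (A M : Set V) : Prop := A ⊆ M ∧ ∀ a ∈ A, A ∈ 𝓝[M] a

variable (P) in
/-- Submanifolds modelled on `P`. -/
def Mf (M : Set V) : Prop := ∀ a ∈ M, ∃ (φ : P → V) (U : Set P), Par M φ U ∧ a ∈ φ '' U

/-- An embedded `ℝ / ℤ × {‖x‖ < r}` in `M`. -/
def Tb (M : Set V) (T : ℝ × E3 → V) (r : ℝ) : Prop :=
  0 < r ∧ (∀ t x, T (t + 1, x) = T (t, x)) ∧ ∀ s : ℝ, Par M T (Ioo s (s + 1) ×ˢ ball 0 r)

/-- The core circle. -/
def core (T : ℝ × E3 → V) : Set V := range fun t => T (t, 0)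

/-- `X` is the surgery of `M` on the tube `T`. -/
def Surg (M : Set V) (T : ℝ × E3 → V) (X : Set W) : Prop :=
  ∃ (r : ℝ) (N : Set W) (e : ℂ × E3 → W) (e' : W → ℂ × E3) (F : V → W) (G : W → V), 0 < r ∧
    Opn N X ∧ Dif (ball 0 r ×ˢ S2) N e e' ∧ Dif (M \ core T) (X \ e '' ({0} ×ˢ S2)) F G ∧
      ∀ (t ρ : ℝ) (o : E3), 0 < ρ → ρ < r → o ∈ S2 → F (T (t, ρ • o)) = e (ρ * ex t, o)

/-- Tangent vectors. -/
def Tan (M : Set V) (a : V) : Set V :=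
  {v | ∃ c : ℝ → V, HasDerivAt c v 0 ∧ c 0 = a ∧ ∀ᶠ t in 𝓝 0, c t ∈ M}

/-- Smooth neighbourhood retracts. -/
def Rt (M : Set V) : Prop := ∃ (O : Set V) (R : V → V), IsOpen O ∧ M ⊆ O ∧
  ContDiffOn ℝ ∞ R O ∧ MapsTo R O M ∧ ∀ a ∈ M, R a = a

/-- `X` is the surgery of `M` on the loop `c` with the normal frame `N`. -/
def FL (M : Set V) (c : ℝ → V) (N : ℝ → E3 →L[ℝ] V) (X : Set W) : Prop :=
  ∃ (T : ℝ × E3 → V) (r : ℝ), Tb M T r ∧ (∀ t, T (t, 0) = c t) ∧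
    (∀ t x, fderiv ℝ T (t, 0) (0, x) = N t x) ∧ Surg M T X

/-- Free homotopies of loops of period one in `Y`. -/
def Hl {Z : Type} [TopologicalSpace Z] (Y : Set Z) (γ γ' : ℝ → Z) : Prop :=
  ∃ H : ℝ → ℝ → Z, ContinuousOn H.uncurry (Icc 0 1 ×ˢ univ) ∧
    (∀ l ∈ Icc (0 : ℝ) 1, ∀ t, H l t ∈ Y ∧ H l (t + 1) = H l t) ∧ H 0 = γ ∧ H 1 = γ'

variable (P) in
/-- Invertible endomorphisms. -/
def Inj : Set (P →L[ℝ] P) := {A | Function.Injective A}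

/-- A smooth coframe field of a three-dimensional `Y`. -/
def Cf (Y : Set V) (om : V → V →L[ℝ] E3) : Prop :=
  ContDiffOn ℝ ∞ om Y ∧ ∀ a ∈ Y, ∀ v ∈ Tan Y a, om a v = 0 → v = 0

/-- Surgery of `Y × S¹` on the graph of the smooth loop `γ`, framed by `A` against `om`. -/
def GF (Y : Set V) (om : V → V →L[ℝ] E3) (γ : ℝ → V) (A : ℝ → E3 →L[ℝ] E3) (X : Set W) : Prop :=
  ∃ N : ℝ → E3 →L[ℝ] V, (∀ t, om (γ t) ∘L N t = A t) ∧
    FL (Y ×ˢ sphere (0 : ℂ) 1) (fun t => (γ t, ex t)) (fun t => (N t).prod 0) X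

/-- The same for continuous loops, through a smooth loop in the homotopy class. -/
def Gq (Y : Set V) (om : V → V →L[ℝ] E3) (γ : ℝ → V) (A : ℝ → E3 →L[ℝ] E3) (X : Set W) : Prop :=
  ∃ (γ' : ℝ → V) (A' : ℝ → E3 →L[ℝ] E3), Hl Y γ γ' ∧ Hl (Inj E3) A A' ∧ GF Y om γ' A' X

/-- Multiplication of the complex coordinate. -/
def mu (g : ℂ) : E3 →L[ℝ] E3 :=
  (ContinuousLinearMap.mul ℝ ℂ g).prodMap (ContinuousLinearMap.id ℝ ℝ)

/-- Coordinates round the unit circle of `ℂ × ℂ`. -/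
def pol (u : ℝ × E3) : ℂ × ℂ := ((1 + u.2.2 : ℝ) * ex u.1, u.2.1)

/-- The neighbourhood of radius `r` of the unit circle. -/
def Ann (r : ℝ) : Set (ℂ × ℂ) := {u | |‖u.1‖ - 1| < r ∧ ‖u.2‖ < r}

/-- A periodic map as a map on the neighbourhood of the circle. -/
def rg (T : ℝ × E3 → V) (u : ℂ × ℂ) : V := T (u.1.arg / (2 * Real.pi), u.2, ‖u.1‖ - 1)

end Pool.Agent.Lib.MP_b2e238_gt
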