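import Pool.Agent.Lib.MP_b2e238_gt.K.TU

/-! Framed loops: families, shears and transport by diffeomorphisms. -/

open scoped ContDiff Topology
open Set Metric

noncomputable section

namespace Pool.Agent.Lib.MP_b2e238_gt

variable {P Q V W Z : Type} [NormedAddCommGroup P] [NormedSpace ℝ P] [NormedAddCommGroup Q]
  [NormedSpace ℝ Q] [NormedAddCommGroup V] [NormedSpace ℝ V] [NormedAddCommGroup W]
  [NormedSpace ℝ W] [NormedAddCommGroup Z] [NormedSpace ℝ Z]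

/-- The derivative of a tube along the core. -/
theorem fl_split {T : ℝ × E3 → V} {t : ℝ} (h : DifferentiableAt ℝ T (t, 0)) (a : ℝ) (x : E3) :
    fderiv ℝ T (t, 0) (a, x) = a • deriv (fun s => T (s, 0)) t + fderiv ℝ T (t, 0) (0, x) := by
  have k : HasDerivAt (fun s : ℝ => T (s, 0)) (fderiv ℝ T (t, 0) (1, 0)) t :=
    h.hasFDerivAt.comp_hasDerivAt t ((hasDerivAt_id t).prodMk (hasDerivAt_const t (0 : E3)))
  rw [k.deriv, ← map_smul, ← map_add]
  simp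

/-- A retraction fixes tangent vectors. -/
theorem fl_ret {M : Set V} {R : V → V} {a v : V} (d : DifferentiableAt ℝ R a)
    (h : ∀ b ∈ M, R b = b) (k : v ∈ Tan M a) : fderiv ℝ R a v = v := by
  obtain ⟨γ, k1, rfl, k3⟩ := k
  exact (d.hasFDerivAt.comp_hasDerivAt 0 k1).unique
    (k1.congr_of_eventuallyEq (k3.mono fun s hs => h _ hs))

theorem fl_tan {M : Set V} {c : ℝ → V} {t : ℝ} (d : DifferentiableAt ℝ c t) (m : ∀ s, c s ∈ M) :
    deriv c t ∈ Tan M (c t) :=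
  ⟨fun s => c (t + s), HasDerivAt.comp_const_add t 0 (by simpa using d.hasDerivAt), by simp,
    .of_forall fun _ => m _⟩

/-- The one-jet of the retracted affine tube. -/
theorem fl_jet {M : Set V} {R : V → V} {c : ℝ → V} {N : ℝ → E3 →L[ℝ] V} {t : ℝ}
    (d : DifferentiableAt ℝ R (c t)) (h : ∀ b ∈ M, R b = b) (dc : DifferentiableAt ℝ c t)
    (dN : DifferentiableAt ℝ N t) (m : ∀ s, c s ∈ M) (k : ∀ x, N t x ∈ Tan M (c t)) (a : ℝ)
    (x : E3) : fderiv ℝ (fun u : ℝ × E3 => R (c u.1 + N u.1 u.2)) (t, 0) (a, x) =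
      a • deriv c t + N t x := by
  have f1 : HasFDerivAt (Prod.fst : ℝ × E3 → ℝ) (.fst ℝ ℝ E3) (t, 0) := hasFDerivAt_fst
  have f2 : HasFDerivAt (Prod.snd : ℝ × E3 → E3) (.snd ℝ ℝ E3) (t, 0) := hasFDerivAt_snd
  have g := (dc.hasDerivAt.hasFDerivAt.comp (t, (0 : E3)) f1).add
    ((dN.hasFDerivAt.comp (t, (0 : E3)) f1).clm_apply f2)
  have d' : HasFDerivAt R (fderiv ℝ R (c t)) (c t + N t 0) := by simpa using d.hasFDerivAt
  refine (congrArg (· (a, x)) (d'.comp (t, (0 : E3)) g).fderiv).trans ?_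
  simp [fl_ret d h (fl_tan dc m), fl_ret d h (k x)]

variable [FiniteDimensional ℝ P] [FiniteDimensional ℝ Q] [FiniteDimensional ℝ V]
  [FiniteDimensional ℝ W] [FiniteDimensional ℝ Z]

variable {M : Set V} {M' : Set Z} {X : Set W} {T T' : ℝ × E3 → V} {r r' ε : ℝ}

theorem Tb.flAt (h : Tb M T r) (t : ℝ) : ContDiffAt ℝ ∞ T (t, 0) :=
  h.smooth.contDiffAt ((isOpen_univ.prod isOpen_ball).mem_nhds ⟨trivial, mem_ball_self h.1⟩)

theorem Tb.flJet (h : Tb M T r) (t : ℝ) : Function.Injective (fderiv ℝ T (t, 0)) ∧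
    Tan M (T (t, 0)) = range (fderiv ℝ T (t, 0)) := by
  have u : ((t, 0) : ℝ × E3) ∈ Ioo (t - 1 / 2) (t - 1 / 2 + 1) ×ˢ ball (0 : E3) r :=
    ⟨⟨by linarith, by linarith⟩, mem_ball_self h.1⟩
  exact ⟨((h.2.2 _).2.2.2.2 _ u).1, (h.2.2 _).tan u⟩

section FL
variable {c : ℝ → V} {N : ℝ → E3 →L[ℝ] V}

theorem FL.facts (z : FL M c N X) : ContDiff ℝ ∞ c ∧ ContDiff ℝ ∞ N ∧ (∀ t, c (t + 1) = c t) ∧
    (∀ t, N (t + 1) = N t) ∧ (∀ t, c t ∈ M) ∧ (∀ t x, N t x ∈ Tan M (c t)) ∧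
    (∀ t t', c t = c t' → ∃ n : ℤ, t' = t + n) ∧
    ∀ t (a : ℝ) x, a • deriv c t + N t x = 0 → a = 0 ∧ x = 0 := by
  obtain ⟨T, r, h, e, d, -⟩ := z
  obtain rfl : (fun t => T (t, 0)) = c := funext e
  obtain rfl : (fun t => fderiv ℝ T (t, 0) ∘L .inr ℝ ℝ E3) = N :=
    funext fun t => ContinuousLinearMap.ext (d t)
  have i : ContDiff ℝ ∞ fun t : ℝ => ((t, 0) : ℝ × E3) := contDiff_id.prodMk contDiff_const
  have r0 : ‖(0 : E3)‖ < r := by simpa using h.1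
  refine ⟨contDiff_iff_contDiffAt.2 fun t => (h.flAt t).comp t i.contDiffAt,
    contDiff_iff_contDiffAt.2 fun t => (((h.flAt t).fderiv_right (m := ∞) le_rfl).comp t
      i.contDiffAt).clm_comp contDiffAt_const, fun t => h.2.1 t 0, fun t => ?_,
    fun t => h.mem t r0, fun t x => (h.flJet t).2 ▸ mem_range_self _,
    fun t t' k => (h.inj r0 r0 k).2, fun t a x k => ?_⟩
  · have : (fun u : ℝ × E3 => T (u + (1, 0))) = T := funext fun ⟨a, x⟩ => by
      simpa using h.2.1 a x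
    have k := fderiv_comp_add_right (𝕜 := ℝ) (f := T) (x := (t, 0)) ((1, 0) : ℝ × E3)
    rw [this] at k
    simp [k]
  · have := (h.flJet t).1 (a₁ := (a, x)) (a₂ := 0) (by
      rw [fl_split ((h.flAt t).differentiableAt (by simp)), map_zero]; exact k)
    exact Prod.ext_iff.1 this

omit [FiniteDimensional ℝ W] in
theorem FL.tan (z : FL M c N X) (t a : ℝ) (x : E3) : a • deriv c t + N t x ∈ Tan M (c t) := by
  obtain ⟨T, r, h, e, d, -⟩ := z
  obtain rfl : (fun t => T (t, 0)) = c := funext e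
  rw [← d, ← fl_split ((h.flAt t).differentiableAt (by simp))]
  exact (h.flJet t).2 ▸ mem_range_self _

theorem flf (hM : Mf (ℝ × E3) M) (hR : Rt M) {c : ℝ → ℝ → V} {N : ℝ → ℝ → E3 →L[ℝ] V}
    (cc : ContDiffOn ℝ ∞ c.uncurry (Icc 0 1 ×ˢ univ))
    (cN : ContDiffOn ℝ ∞ N.uncurry (Icc 0 1 ×ˢ univ))
    (h : ∀ l ∈ Icc (0 : ℝ) 1, (∀ t, c l (t + 1) = c l t) ∧ (∀ t, N l (t + 1) = N l t) ∧
      (∀ t, c l t ∈ M) ∧ (∀ t x, N l t x ∈ Tan M (c l t)) ∧
      (∀ t t', c l t = c l t' → ∃ n : ℤ, t' = t + n) ∧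
      ∀ t (a : ℝ) x, a • deriv (c l) t + N l t x = 0 → a = 0 ∧ x = 0)
    (z : FL M (c 0) (N 0) X) : FL M (c 1) (N 1) X := by
  obtain ⟨O, R, o, mo, cR, mR, eR⟩ := hR
  let σ := Real.smoothTransition
  have hσ (l : ℝ) : σ l ∈ Icc (0 : ℝ) 1 :=
    ⟨Real.smoothTransition.nonneg l, Real.smoothTransition.le_one l⟩
  have s : ContDiff ℝ ∞ fun q : ℝ × ℝ => (σ q.1, q.2) :=
    (Real.smoothTransition.contDiff.comp contDiff_fst).prodMk contDiff_snd
  have c1 : ContDiff ℝ ∞ fun q : ℝ × ℝ => c (σ q.1) q.2 :=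
    cc.comp_contDiff s fun q => ⟨hσ _, trivial⟩
  have c2 : ContDiff ℝ ∞ fun q : ℝ × ℝ => N (σ q.1) q.2 :=
    cN.comp_contDiff s fun q => ⟨hσ _, trivial⟩
  have p : ContDiff ℝ ∞ fun q : ℝ × ℝ × E3 => (q.1, q.2.1) := by fun_prop
  have g : ContDiff ℝ ∞ fun q : ℝ × ℝ × E3 => c (σ q.1) q.2.1 + N (σ q.1) q.2.1 q.2.2 :=
    (c1.comp p).add ((c2.comp p).clm_apply (by fun_prop))
  have ev : ∀ᶠ x in 𝓝 (0 : E3), ∀ q ∈ Icc (0 : ℝ) 1 ×ˢ Icc (0 : ℝ) 1,
      c (σ q.1) q.2 + N (σ q.1) q.2 x ∈ O := by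
    refine (isCompact_Icc.prod isCompact_Icc).eventually_forall_of_forall_eventually fun q _ => ?_
    have : Continuous fun y : E3 × ℝ × ℝ => c (σ y.2.1) y.2.2 + N (σ y.2.1) y.2.2 y.1 :=
      g.continuous.comp (show Continuous fun y : E3 × ℝ × ℝ => (y.2.1, y.2.2, y.1) by fun_prop)
    exact this.continuousAt.preimage_mem_nhds
      (o.mem_nhds (by simpa using mo ((h _ (hσ _)).2.2.1 _)))
  obtain ⟨ε, a, hε⟩ := Metric.eventually_nhds_iff.1 ev
  have inO (l t : ℝ) (x : E3) (k : ‖x‖ < ε) : c (σ l) t + N (σ l) t x ∈ O := by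
    obtain ⟨l', k1, k2⟩ : ∃ l' ∈ Icc (0 : ℝ) 1, σ l = σ l' := by
      rcases le_total l 0 with e | e
      · exact ⟨0, by simp, by simp [σ, Real.smoothTransition.zero_of_nonpos e]⟩
      rcases le_total l 1 with e' | e'
      · exact ⟨l, ⟨e, e'⟩, rfl⟩
      · exact ⟨1, by simp, by simp [σ, Real.smoothTransition.one_of_one_le e']⟩
    have := hε (y := x) (by simpa using k) (l', Int.fract t)
      ⟨k1, Int.fract_nonneg t, (Int.fract_lt_one t).le⟩
    rw [k2, ← Int.fract_add_floor t, per_int (h _ (hσ _)).1, per_int (h _ (hσ _)).2.1]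
    exact this
  let S : ℝ → ℝ × E3 → V := fun l u => R (c (σ l) u.1 + N (σ l) u.1 u.2)
  have cS : ContDiffOn ℝ ∞ S.uncurry (univ ×ˢ univ ×ˢ ball 0 ε) :=
    cR.comp g.contDiffOn fun q k => inO _ _ _ (by simpa using k.2.2)
  have e0 (l t : ℝ) : S l (t, 0) = c (σ l) t := by simpa [S] using eR _ ((h _ (hσ _)).2.2.1 t)
  have j (l : ℝ) : ContDiff ℝ ∞ fun t : ℝ => (l, t) := by fun_prop
  have e1 (l t a : ℝ) (x : E3) :
      fderiv ℝ (S l) (t, 0) (a, x) = a • deriv (c (σ l)) t + N (σ l) t x :=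
    fl_jet ((cR.contDiffAt (o.mem_nhds (mo ((h _ (hσ _)).2.2.1 t)))).differentiableAt (by simp)) eR
      ((c1.comp (j l)).differentiable (by simp) t) ((c2.comp (j l)).differentiable (by simp) t)
      (h _ (hσ _)).2.2.1 ((h _ (hσ _)).2.2.2.1 t) a x
  have m (l t : ℝ) (x : E3) (k : ‖x‖ < ε) : S l (t, x) ∈ M := mR (inO l t x k)
  have tb (l : ℝ) : ∃ r, Tb M (S l) r := by
    obtain ⟨h1, h2, -, -, h5, h6⟩ := h _ (hσ l)
    refine tb_of_germ hM a (cS.comp (f := fun u => (l, u)) (by fun_prop) fun u k => ⟨trivial, k⟩)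
      (m l) (fun t x => by simp only [S, h1, h2]) (fun t t' k => h5 t t' (by rwa [e0, e0] at k))
      fun t => (injective_iff_map_eq_zero _).2 fun u k => ?_
    exact Prod.ext_iff.2 (h6 t u.1 u.2 ((e1 l t u.1 u.2).symm.trans k))
  obtain ⟨r0, t0⟩ := tb 0
  obtain ⟨r1, t1⟩ := tb 1
  exact ⟨S 1, r1, t1, fun t => by simp [e0, σ], fun t x => by simp [e1, σ],
    tf a cS m tb 0 1 (z.surg hM t0 (fun t => by simp [e0, σ]) fun t x => by simp [e1, σ])⟩

/-- The frame matters only modulo the tangent of the loop. -/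
theorem FL.shear (z : FL M c N X) (hM : Mf (ℝ × E3) M) (hR : Rt M) {β : ℝ → E3 →L[ℝ] ℝ}
    (cβ : ContDiff ℝ ∞ β) (p : ∀ t, β (t + 1) = β t) :
    FL M c (fun t => N t + (β t).smulRight (deriv c t)) X := by
  obtain ⟨h1, h2, h3, h4, h5, -, h7, h8⟩ := z.facts
  have d1 : ContDiff ℝ ∞ (deriv c) := (contDiff_infty_iff_deriv.1 h1).2
  have d2 (t : ℝ) : deriv c (t + 1) = deriv c t := by
    rw [← deriv_comp_add_const, show (fun s => c (s + 1)) = c from funext h3]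
  have := flf (X := X) hM hR (c := fun _ => c)
    (N := fun l t => N t + l • (β t).smulRight (deriv c t)) (h1.comp contDiff_snd).contDiffOn
    ((h2.comp contDiff_snd).add (contDiff_fst.smul ((cβ.smulRight d1).comp contDiff_snd))).contDiffOn
    (fun l _ => ⟨h3, fun t => by rw [h4, p, d2], h5, fun t x => ?_, h7, fun t a x k => ?_⟩)
    (by simpa using z)
  · simpa using this
  · simpa [add_comm, mul_smul] using z.tan t (l * β t x) x
  · obtain ⟨k1, rfl⟩ := h8 t (a + l * β t x) x (by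
      rw [← k]; simp [add_smul, mul_smul, add_comm, add_left_comm])
    simpa using k1

theorem FL.dif {Φ : V → Z} {Ψ : Z → V} (z : FL M c N X) (d : Dif M M' Φ Ψ)
    (k : ∀ t, DifferentiableAt ℝ Φ (c t)) :
    FL M' (Φ ∘ c) (fun t => fderiv ℝ Φ (c t) ∘L N t) X := by
  obtain ⟨T, r, h, e, f, s⟩ := z
  refine ⟨Φ ∘ T, r, h.dif d (.refl _) (.refl _) fun t x => h.mem t, fun t => congrArg Φ (e t),
    fun t x => ?_, s.of_dif' d.symm h.1 ?_ fun t x l => d.gf _ (h.mem t l)⟩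
  · rw [fderiv_comp _ (e t ▸ k t) ((h.flAt t).differentiableAt (by simp)), e]
    simp [f]
  · rintro _ ⟨t, rfl⟩
    exact d.mF (h.mem t (by simpa using h.1))
end FL

end Pool.Agent.Lib.MP_b2e238_gt
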