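import Pool.Agent.Lib.MP_b2e238_gt.K.Apx
import Pool.Agent.Lib.MP_b2e238_gt.K.Hl

/-! Smooth homotopies of smooth loops in a neighbourhood retract. -/

open scoped ContDiff Topology
open Set Metric

noncomputable section

namespace Pool.Agent.Lib.MP_b2e238_gt

variable {P V : Type} [NormedAddCommGroup P] [NormedSpace ℝ P] [NormedAddCommGroup V]
  [NormedSpace ℝ V] [FiniteDimensional ℝ P] [FiniteDimensional ℝ V] {Y : Set V} {γ γ' : ℝ → V}

/-- Smooth the homotopy inside `O`, apply `R`. -/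
theorem Hl.smooth (h : Hl Y γ γ') (hR : Rt Y) (c : ContDiff ℝ ∞ γ) (c' : ContDiff ℝ ∞ γ') :
    ∃ H : ℝ → ℝ → V, ContDiff ℝ ∞ H.uncurry ∧ (∀ l t, H l t ∈ Y ∧ H l (t + 1) = H l t) ∧
      H 0 = γ ∧ H 1 = γ' := by
  obtain ⟨H, a, k, rfl, rfl⟩ := h
  obtain ⟨O, R, o, s, r, m, e⟩ := hR
  obtain ⟨G, hG, g⟩ := smooth_htpy_ret o s r m e (H := H.uncurry) a (fun l hl t => (k l hl t).2)
    (fun l hl t => (k l hl t).1) c c'
  exact ⟨fun l t => G (l, t), hG, fun l t => ⟨(g l t).2.1, (g l t).1⟩,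
    funext fun t => (g 0 t).2.2.1 le_rfl, funext fun t => (g 1 t).2.2.2 le_rfl⟩

theorem rt_inj : Rt (Inj P) :=
  ⟨Inj P, id, ContinuousLinearMap.isOpen_injective, Subset.rfl, contDiffOn_id, mapsTo_id _,
    fun _ _ => rfl⟩

end Pool.Agent.Lib.MP_b2e238_gt
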