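import Pool.Agent.Lib.MP_b2e238_gt.K.FL
import Pool.Agent.Lib.MP_b2e238_gt.K.Hs

/-! Surgery on graph loops depends only on the homotopy class of the framed loop. -/

open scoped ContDiff Topology
open Set Metric

noncomputable section

namespace Pool.Agent.Lib.MP_b2e238_gt

variable {V W : Type} [NormedAddCommGroup V] [NormedSpace ℝ V] [NormedAddCommGroup W]
  [NormedSpace ℝ W] [FiniteDimensional ℝ V] [FiniteDimensional ℝ W] {X : Set W}
variable {Y : Set V} {om : V → V →L[ℝ] E3} {γ γ' : ℝ → V} {A A' : ℝ → E3 →L[ℝ] E3}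

theorem ht_ret {O : Set V} {R : V → V} (o : IsOpen O) (s : Y ⊆ O) (c : ContDiffOn ℝ ∞ R O)
    (m : MapsTo R O Y) (e : ∀ a ∈ Y, R a = a) {a : V} (ha : a ∈ Y) :
    (∀ v, fderiv ℝ R a v ∈ Tan Y a) ∧ ∀ v ∈ Tan Y a, fderiv ℝ R a v = v := by
  have d : HasFDerivAt R (fderiv ℝ R a) a :=
    ((c.contDiffAt (o.mem_nhds (s ha))).differentiableAt (by simp)).hasFDerivAt
  refine ⟨fun v => ?_, ?_⟩
  · have l : HasDerivAt (fun t : ℝ => a + t • v) v 0 := by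
      simpa using ((hasDerivAt_id (0 : ℝ)).smul_const v).const_add a
    refine ⟨fun t => R (a + t • v), d.comp_hasDerivAt_of_eq 0 l (by simp), by simpa using e a ha, ?_⟩
    exact (l.continuousAt.eventually (o.mem_nhds (by simpa using s ha))).mono fun t h => m h
  · rintro v ⟨g, h1, h2, h3⟩
    exact (d.comp_hasDerivAt_of_eq 0 h1 h2.symm).unique
      (h1.congr_of_eventuallyEq (h3.mono fun t h => e _ h))

theorem ht_sub (hY : Mf E3 Y) {a : V} (ha : a ∈ Y) :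
    ∃ L : E3 →L[ℝ] V, Function.Injective L ∧ Tan Y a = range L := by
  obtain ⟨φ, U, h, u, hu, rfl⟩ := hY a ha
  exact ⟨_, (h.2.2.2.2 u hu).1, h.tan hu⟩

theorem ht_inv {B : E3 →L[ℝ] E3} (h : Function.Injective B) : B.IsInvertible :=
  ⟨(LinearEquiv.ofInjectiveEndo (B : E3 →ₗ[ℝ] E3) h).toContinuousLinearEquiv, by ext <;> rfl⟩

theorem Cf.frame (h : Cf Y om) (hY : Mf E3 Y) (hR : Rt Y) : ∃ τ : V → E3 →L[ℝ] V,
    ContDiffOn ℝ ∞ τ Y ∧ ∀ a ∈ Y, (∀ x, τ a x ∈ Tan Y a ∧ om a (τ a x) = x) ∧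
      ∀ v ∈ Tan Y a, τ a (om a v) = v := by
  obtain ⟨O, R, o, s, c, m, e⟩ := hR
  have uq : ∀ a ∈ Y, ∀ v ∈ Tan Y a, ∀ w ∈ Tan Y a, om a v = om a w → v = w := by
    intro a ha v hv w hw k
    obtain ⟨L, -, hL⟩ := ht_sub hY ha
    rw [hL] at hv hw
    obtain ⟨⟨x, rfl⟩, y, rfl⟩ := And.intro hv hw
    exact sub_eq_zero.1 (h.2 a ha _ (hL ▸ ⟨x - y, map_sub ..⟩) (by rw [map_sub, k, sub_self]))
  have key : ∀ (L : E3 →L[ℝ] V), ∀ a ∈ Y, (om a ∘L fderiv ℝ R a ∘L L).IsInvertible → ∀ x,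
      (fderiv ℝ R a ∘L L ∘L (om a ∘L fderiv ℝ R a ∘L L).inverse) x ∈ Tan Y a ∧
      om a ((fderiv ℝ R a ∘L L ∘L (om a ∘L fderiv ℝ R a ∘L L).inverse) x) = x :=
    fun L a ha i x => ⟨(ht_ret o s c m e ha).1 _, i.self_apply_inverse x⟩
  have base : ∀ a ∈ Y, ∃ L : E3 →L[ℝ] V, (om a ∘L fderiv ℝ R a ∘L L).IsInvertible := by
    intro a ha
    obtain ⟨L, i, hL⟩ := ht_sub hY ha
    refine ⟨L, ht_inv fun x y k => i (uq a ha _ (hL ▸ ⟨x, rfl⟩) _ (hL ▸ ⟨y, rfl⟩) ?_)⟩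
    rwa [← (ht_ret o s c m e ha).2 (L x) (hL ▸ ⟨x, rfl⟩),
      ← (ht_ret o s c m e ha).2 (L y) (hL ▸ ⟨y, rfl⟩)]
  choose! L hL using base
  refine ⟨fun a => fderiv ℝ R a ∘L L a ∘L (om a ∘L fderiv ℝ R a ∘L L a).inverse, fun a ha => ?_,
    fun a ha => ⟨key _ a ha (hL a ha), fun v hv =>
      uq a ha _ (key _ a ha (hL a ha) _).1 _ hv (key _ a ha (hL a ha) _).2⟩⟩
  have cR : ContDiffWithinAt ℝ ∞ (fun b => fderiv ℝ R b) Y a :=
    ((c.contDiffAt (o.mem_nhds (s ha))).fderiv_right (m := ∞) (by simp)).contDiffWithinAt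
  have cB : ContDiffWithinAt ℝ ∞ (fun b => om b ∘L fderiv ℝ R b ∘L L a) Y a :=
    (h.1 a ha).clm_comp (cR.clm_comp contDiffWithinAt_const)
  have cI : ContDiffWithinAt ℝ ∞ (fun b => (om b ∘L fderiv ℝ R b ∘L L a).inverse) Y a :=
    ContDiffAt.comp_contDiffWithinAt (g := ContinuousLinearMap.inverse)
      (f := fun b => om b ∘L fderiv ℝ R b ∘L L a) a (hL a ha).contDiffAt_map_inverse cB
  have ev : ∀ᶠ b in 𝓝[Y] a, (om b ∘L fderiv ℝ R b ∘L L a).IsInvertible := by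
    obtain ⟨E, hE⟩ := hL a ha
    refine cB.continuousWithinAt.eventually (p := fun B : E3 →L[ℝ] E3 => B.IsInvertible) ?_
    beta_reduce
    rw [← hE]
    exact E.nhds
  refine (cR.clm_comp (contDiffWithinAt_const.clm_comp cI)).congr_of_eventuallyEq ?_ rfl
  filter_upwards [ev, self_mem_nhdsWithin] with b i hb
  exact ContinuousLinearMap.ext fun x => uq b hb _ (key _ b hb (hL b hb) x).1 _ (key _ b hb i x).1
    ((key _ b hb (hL b hb) x).2.trans (key _ b hb i x).2.symm)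

omit [FiniteDimensional ℝ V] in
theorem ht_fst {a v : V} {w z : ℂ} (h : (v, z) ∈ Tan (Y ×ˢ sphere (0 : ℂ) 1) (a, w)) :
    v ∈ Tan Y a := by
  obtain ⟨g, h1, h2, h3⟩ := h
  exact ⟨fun t => (g t).1, (ContinuousLinearMap.fst ℝ V ℂ).hasFDerivAt.comp_hasDerivAt 0 h1,
    congrArg Prod.fst h2, h3.mono fun t k => k.1⟩

omit [FiniteDimensional ℝ V] in
theorem ht_inl {a v : V} {w : ℂ} (h : v ∈ Tan Y a) (k : w ∈ sphere (0 : ℂ) 1) :
    (v, 0) ∈ Tan (Y ×ˢ sphere (0 : ℂ) 1) (a, w) := by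
  obtain ⟨g, h1, h2, h3⟩ := h
  exact ⟨fun t => (g t, w), h1.prodMk (hasDerivAt_const 0 w), Prod.ext h2 rfl, h3.mono fun t l => ⟨l, k⟩⟩

theorem GF.facts (z : GF Y om γ A X) (h : Cf Y om) : ContDiff ℝ ∞ γ ∧ ContDiff ℝ ∞ A ∧
    Hl Y γ γ ∧ Hl (Inj E3) A A := by
  obtain ⟨N, e, z⟩ := z
  obtain ⟨c1, c2, p1, p2, m, tn, -, d⟩ := z.facts
  have cγ : ContDiff ℝ ∞ γ := c1.fst
  have cN : ContDiff ℝ ∞ N := by
    have := (contDiff_const (c := ContinuousLinearMap.fst ℝ V ℂ)).clm_comp c2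
    exact this
  have mγ : ∀ t, γ t ∈ Y := fun t => (m t).1
  have pγ : ∀ t, γ (t + 1) = γ t := fun t => congrArg Prod.fst (p1 t)
  have pN : ∀ t, N (t + 1) = N t := fun t => ContinuousLinearMap.ext fun x =>
    congrArg (fun L : E3 →L[ℝ] V × ℂ => (L x).1) (p2 t)
  have cA : ContDiff ℝ ∞ A := by
    rw [← funext e]
    exact (h.1.comp_contDiff cγ mγ).clm_comp cN
  refine ⟨cγ, cA, .refl cγ.continuous mγ pγ, .refl cA.continuous (fun t => ?_) fun t => by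
    rw [← e, ← e, pγ, pN]⟩
  refine (injective_iff_map_eq_zero (A t)).2 fun x k => (d t 0 x ?_).2
  have : N t x = 0 := h.2 _ (mγ t) _ (ht_fst (tn t x)) (by rw [← e] at k; exact k)
  simp [this]

theorem GF.gq (z : GF Y om γ A X) (h : Cf Y om) : Gq Y om γ A X :=
  ⟨γ, A, (z.facts h).2.2.1, (z.facts h).2.2.2, z⟩

omit [FiniteDimensional ℝ V] [FiniteDimensional ℝ W] in
theorem Gq.hl (z : Gq Y om γ A X) (h : Hl Y γ γ') (k : Hl (Inj E3) A A') : Gq Y om γ' A' X := by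
  obtain ⟨g, B, a, b, c⟩ := z
  exact ⟨g, B, h.symm.trans a, k.symm.trans b, c⟩

theorem Gq.gf (z : Gq Y om γ A X) (h : Cf Y om) (hY : Mf E3 Y) (hR : Rt Y) (c : ContDiff ℝ ∞ γ)
    (c' : ContDiff ℝ ∞ A) : GF Y om γ A X := by
  obtain ⟨g, B, a, b, z⟩ := z
  obtain ⟨cg, cB, -, -⟩ := z.facts h
  obtain ⟨H, cH, mH, rfl, rfl⟩ := a.symm.smooth hR cg c
  obtain ⟨K, cK, mK, rfl, rfl⟩ := b.symm.smooth rt_inj cB c'
  obtain ⟨τ, cτ, hτ⟩ := h.frame hY hR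
  obtain ⟨N, e, z⟩ := z
  have e0 : (fun t => (N t).prod (0 : E3 →L[ℝ] ℂ)) = fun t => (τ (H 0 t) ∘L K 0 t).prod 0 := by
    refine funext fun t => congrArg (ContinuousLinearMap.prod · 0)
      (ContinuousLinearMap.ext fun x => ?_)
    rw [← e]
    exact ((hτ _ (mH 0 t).1).2 _ (ht_fst (z.facts.2.2.2.2.2.1 t x))).symm
  rw [e0] at z
  refine ⟨fun t => τ (H 1 t) ∘L K 1 t, fun t => ContinuousLinearMap.ext fun x =>
    ((hτ _ (mH 1 t).1).1 _).2, ?_⟩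
  refine flf (c := fun l t => (H l t, ex t)) (N := fun l t => (τ (H l t) ∘L K l t).prod 0)
    hY.circ hR.circ (cH.prodMk (contDiff_ex.comp contDiff_snd)).contDiffOn ?_
    (fun l _ => ⟨fun t => by rw [(mH l t).2, ex_one], fun t => by rw [(mH l t).2, (mK l t).2],
      fun t => ⟨(mH l t).1, by simp [norm_ex]⟩,
      fun t x => ht_inl ((hτ _ (mH l t).1).1 _).1 (by simp [norm_ex]),
      fun t t' k => ex_eq (congrArg Prod.snd k), fun t r x k => ?_⟩) z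
  · have := (contDiff_const (c := ContinuousLinearMap.inl ℝ V ℂ)).clm_comp
      ((cτ.comp_contDiff cH fun p => (mH p.1 p.2).1).clm_comp cK)
    exact this.contDiffOn
  · have d : HasDerivAt (fun t => (H l t, ex t)) (deriv (H l) t, 2 * Real.pi * .I * ex t) t :=
      (((cH.comp (contDiff_const.prodMk contDiff_id)).differentiable (by simp)
        t).hasDerivAt).prodMk (hasDerivAt_ex t)
    rw [d.deriv] at k
    have n : ex t ≠ 0 := norm_ne_zero_iff.1 (by simp [norm_ex])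
    have r0 : r = 0 := by simpa [n, Real.pi_ne_zero] using congrArg Prod.snd k
    refine ⟨r0, (injective_iff_map_eq_zero (K l t)).1 (mK l t).1 x ?_⟩
    have k1 : τ (H l t) (K l t x) = 0 := by simpa [r0] using congrArg Prod.fst k
    rw [← ((hτ _ (mH l t).1).1 (K l t x)).2, k1, map_zero]

end Pool.Agent.Lib.MP_b2e238_gt
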