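import Pool.Agent.Lib.MP_b2e238_gt.K.Dif

/-! Transport of surgeries. -/

open scoped ContDiff Topology
open Set Metric

noncomputable section

namespace Pool.Agent.Lib.MP_b2e238_gt

variable {P Q V W Z : Type} [NormedAddCommGroup P] [NormedSpace ℝ P] [NormedAddCommGroup Q]
  [NormedSpace ℝ Q] [NormedAddCommGroup V] [NormedSpace ℝ V] [NormedAddCommGroup W]
  [NormedSpace ℝ W] [NormedAddCommGroup Z] [NormedSpace ℝ Z]

theorem srg_opn {r r' : ℝ} (k : r' ≤ r) :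
    Opn (ball (0 : ℂ) r' ×ˢ S2) (ball (0 : ℂ) r ×ˢ S2) :=
  opn_iff.2 ⟨ball 0 r' ×ˢ univ, isOpen_ball.prod isOpen_univ, by
    ext p
    exact ⟨fun h => ⟨⟨ball_subset_ball k h.1, h.2⟩, h.1, trivial⟩, fun h => ⟨h.2.1, h.1.2⟩⟩⟩

theorem srg_opn' (r : ℝ) : Opn (ball (0 : ℂ) r ×ˢ S2) (univ ×ˢ S2) :=
  opn_iff.2 ⟨ball 0 r ×ˢ univ, isOpen_ball.prod isOpen_univ, by
    ext p
    exact ⟨fun h => ⟨⟨trivial, h.2⟩, h.1, trivial⟩, fun h => ⟨h.2.1, h.1.2⟩⟩⟩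

/-- The tube lemma round the zero section. -/
theorem srg_shrink {k : ℂ × E3 → ℂ × E3} {r r₀ : ℝ} (a : 0 < r) (b : 0 < r₀)
    (c : ContinuousOn k (ball 0 r ×ˢ S2)) (z : ∀ o ∈ S2, (k (0, o)).1 = 0) :
    ∃ r₁, 0 < r₁ ∧ r₁ ≤ r ∧ ∀ p ∈ ball (0 : ℂ) r₁ ×ˢ S2, ‖(k p).1‖ < r₀ := by
  obtain ⟨O, o, e⟩ := continuousOn_iff'.1 (continuous_fst.comp_continuousOn c) (ball 0 r₀)
    isOpen_ball
  have s : ({0} : Set ℂ) ×ˢ S2 ⊆ O := by
    rintro ⟨_, x⟩ ⟨rfl, m⟩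
    have : ((0 : ℂ), x) ∈ (Prod.fst ∘ k) ⁻¹' ball 0 r₀ ∩ ball 0 r ×ˢ S2 :=
      ⟨by simpa [z x m] using b, mem_ball_self a, m⟩
    exact (e ▸ this).1
  obtain ⟨u, v, hu, -, u0, v0, uv⟩ := generalized_tube_lemma isCompact_singleton isCompact_S2 o s
  obtain ⟨δ, d, hd⟩ := Metric.isOpen_iff.1 hu 0 (u0 rfl)
  refine ⟨min δ r, lt_min d a, min_le_right _ _, fun p m => ?_⟩
  have : p ∈ O ∩ ball 0 r ×ˢ S2 := ⟨uv ⟨hd (ball_subset_ball (min_le_left _ _) m.1), v0 m.2⟩,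
    ball_subset_ball (min_le_right _ _) m.1, m.2⟩
  exact mem_ball_zero_iff.1 (e.ge this).1

/-- The Euclidean norm. -/
def srgN (x : E3) : ℝ := √(‖x.1‖ ^ 2 + x.2 ^ 2)

theorem srg_pos {x : E3} (h : x ≠ 0) : 0 < ‖x.1‖ ^ 2 + x.2 ^ 2 := by
  rcases (add_nonneg (sq_nonneg ‖x.1‖) (sq_nonneg x.2)).lt_or_eq with k | k
  · exact k
  · have a : ‖x.1‖ ^ 2 = 0 := by nlinarith [sq_nonneg ‖x.1‖, sq_nonneg x.2]
    have b : x.2 ^ 2 = 0 := by nlinarith [sq_nonneg ‖x.1‖, sq_nonneg x.2]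
    exact (h (Prod.ext (by simpa using a) (by simpa using b))).elim

theorem srgN_pos {x : E3} (h : x ≠ 0) : 0 < srgN x := Real.sqrt_pos.2 (srg_pos h)

theorem srgN_smul {a : ℝ} (h : 0 ≤ a) (x : E3) : srgN (a • x) = a * srgN x := by
  have : ‖(a • x).1‖ ^ 2 + (a • x).2 ^ 2 = a ^ 2 * (‖x.1‖ ^ 2 + x.2 ^ 2) := by
    rw [Prod.smul_fst, Prod.smul_snd, norm_smul, Real.norm_of_nonneg h, smul_eq_mul]; ring
  rw [srgN, this, Real.sqrt_mul (sq_nonneg a), Real.sqrt_sq h, srgN]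

theorem srgN_one {x : E3} : x ∈ S2 ↔ srgN x = 1 := Real.sqrt_eq_one.symm

theorem srgN_mem {x : E3} (h : x ≠ 0) : (srgN x)⁻¹ • x ∈ S2 := by
  rw [srgN_one, srgN_smul (inv_nonneg.2 (srgN_pos h).le), inv_mul_cancel₀ (srgN_pos h).ne']

theorem srgN_smooth {x : E3} (h : x ≠ 0) : ContDiffAt ℝ ∞ srgN x :=
  (((contDiff_norm_sq ℝ).comp contDiff_fst).add (contDiff_snd.pow 2)).contDiffAt.sqrt
    (srg_pos h).ne'

/-- The extension of a linear map. -/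
def srgK (L : E3 ≃L[ℝ] E3) (p : ℂ × E3) : ℂ × E3 :=
  (srgN (L p.2) • p.1, (srgN (L p.2))⁻¹ • L p.2)

theorem srg_ne (L : E3 ≃L[ℝ] E3) {o : E3} (h : o ∈ S2) : L o ≠ 0 := by
  simpa using (S2.norm_le h).2

theorem srgK_smooth (L : E3 ≃L[ℝ] E3) : ContDiffOn ℝ ∞ (srgK L) (univ ×ˢ S2) := fun p m => by
  have a : ContDiffAt ℝ ∞ (fun p : ℂ × E3 => L p.2) p :=
    (L.contDiff.comp contDiff_snd).contDiffAt
  have b : ContDiffAt ℝ ∞ (fun p : ℂ × E3 => srgN (L p.2)) p :=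
    ContDiffAt.comp (g := srgN) p (srgN_smooth (srg_ne L m.2)) a
  exact ((b.smul contDiffAt_fst).prodMk
    ((b.inv (srgN_pos (srg_ne L m.2)).ne').smul a)).contDiffWithinAt

theorem srgK_inv (L : E3 ≃L[ℝ] E3) (p : ℂ × E3) (m : p ∈ (univ : Set ℂ) ×ˢ S2) :
    srgK L.symm (srgK L p) = p := by
  have a := srgN_pos (srg_ne L m.2)
  have b : srgN ((srgN (L p.2))⁻¹ • p.2) = (srgN (L p.2))⁻¹ := by
    rw [srgN_smul (inv_nonneg.2 a.le), srgN_one.1 m.2, mul_one]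
  simp only [srgK, map_smul, L.symm_apply_apply, b, inv_inv, smul_smul, inv_mul_cancel₀ a.ne',
    mul_inv_cancel₀ a.ne', one_smul]

theorem srgK_dif (L : E3 ≃L[ℝ] E3) :
    Dif (univ ×ˢ S2) (univ ×ˢ S2) (srgK L) (srgK L.symm) :=
  ⟨srgK_smooth L, srgK_smooth L.symm, fun _ m => ⟨trivial, srgN_mem (srg_ne L m.2)⟩,
    fun _ m => ⟨trivial, srgN_mem (srg_ne L.symm m.2)⟩, srgK_inv L, srgK_inv L.symm⟩

theorem srg_conj (t : ℝ) : (starRingEnd ℂ) (ex t) = ex (-t) := by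
  rw [ex, ex, ← Complex.exp_conj]
  simp [map_ofNat]

variable [FiniteDimensional ℝ P] [FiniteDimensional ℝ Q] [FiniteDimensional ℝ V]
  [FiniteDimensional ℝ W] [FiniteDimensional ℝ Z]

variable {M : Set V} {M' : Set Z} {X : Set W} {T T' : ℝ × E3 → V} {r r' ε : ℝ}

section Srg
variable {S : ℝ × E3 → Z} {Φ : V → Z} {Ψ : Z → V}

theorem Surg.of_ext (h : Surg M' S X) (d : Dif (M \ core T) (M' \ core S) Φ Ψ) {N : Set (ℂ × E3)}
    {k k' : ℂ × E3 → ℂ × E3} (a : 0 < r) (hk : Dif (ball 0 r ×ˢ S2) N k k')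
    (hN : Opn N (univ ×ˢ S2)) (h0 : k '' ({0} ×ˢ S2) = {0} ×ˢ S2)
    (c : ∀ (t ρ : ℝ) (o : E3), 0 < ρ → ρ < r → o ∈ S2 → ∃ (t' ρ' : ℝ) (o' : E3), 0 < ρ' ∧ o' ∈ S2 ∧
      k (ρ * ex t, o) = (ρ' * ex t', o') ∧ Φ (T (t, ρ • o)) = S (t', ρ' • o')) : Surg M T X := by
  obtain ⟨r₀, N₀, e, e', F, G, b, o₀, he, hF, q⟩ := h
  obtain ⟨r₁, a₁, l, s⟩ := srg_shrink a b hk.cF.continuousOn fun o m =>
    (h0.subset ⟨(0, o), ⟨rfl, m⟩, rfl⟩).1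
  have o₁ := srg_opn l
  have o₂ : Opn (k '' (ball 0 r₁ ×ˢ S2)) (univ ×ˢ S2) := (hk.opn o₁).trans hN
  have i : k '' (ball 0 r₁ ×ˢ S2) ⊆ ball 0 r₀ ×ˢ S2 := by
    rintro _ ⟨p, m, rfl⟩
    exact ⟨by simpa using s p m, (o₂.1 ⟨p, m, rfl⟩).2⟩
  have o₃ : Opn (k '' (ball 0 r₁ ×ˢ S2)) (ball 0 r₀ ×ˢ S2) :=
    ⟨i, fun p m => nhdsWithin_mono p (srg_opn' r₀).1 (o₂.2 p m)⟩
  refine ⟨r₁, _, e ∘ k, k' ∘ e', F ∘ Φ, Ψ ∘ G, a₁, (he.opn o₃).trans o₀,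
    (hk.mono o₁.1).trans (he.mono i), ?_, fun t ρ o p p' m => ?_⟩
  · rw [image_comp, h0]
    exact d.trans hF
  · obtain ⟨t', ρ', o', u, m', e₁, e₂⟩ := c t ρ o p (p'.trans_le l) m
    have n (ρ t : ℝ) (p : 0 < ρ) : ‖(ρ : ℂ) * ex t‖ = ρ := by
      rw [norm_mul, norm_ex, mul_one, Complex.norm_real, Real.norm_of_nonneg p.le]
    have := s (ρ * ex t, o) ⟨by rw [mem_ball_zero_iff, n _ _ p]; exact p', m⟩
    rw [e₁, n _ _ u] at this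
    rw [Function.comp_apply, Function.comp_apply, e₁, e₂, q t' ρ' o' u this m']

theorem Surg.of_dif (h : Surg M' S X) (d : Dif (M \ core T) (M' \ core S) Φ Ψ) (a : 0 < r)
    (c : ∀ t x, x ≠ 0 → ‖x‖ < r → Φ (T (t, x)) = S (t, x)) : Surg M T X :=
  h.of_ext d a (Dif.refl _) (srg_opn' r) (image_id _) fun t ρ o p p' m =>
    ⟨t, ρ, o, p, m, rfl, c t _ (smul_ne_zero p.ne' (S2.norm_le m).2) (by
      rw [norm_smul, Real.norm_of_nonneg p.le]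
      exact (mul_le_of_le_one_right p.le (S2.norm_le m).1).trans_lt p')⟩

theorem Surg.of_dif' (h : Surg M' S X) (d : Dif M M' Φ Ψ) (a : 0 < r) (m : core T ⊆ M)
    (c : ∀ t x, ‖x‖ < r → Φ (T (t, x)) = S (t, x)) : Surg M T X := by
  have e : Φ '' core T = core S := by
    rw [core, core, ← range_comp]
    exact congrArg range (funext fun t => c t 0 (by simpa using a))
  exact h.of_dif (e ▸ d.diff m) a fun t x _ k => c t x k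

theorem Surg.right {X' : Set Z} {F : W → Z} {G : Z → W} (h : Surg M T X) (d : Dif X X' F G) :
    Surg M T X' := by
  obtain ⟨r₀, N₀, e, e', F₀, G₀, b, o₀, he, hF, q⟩ := h
  refine ⟨r₀, F '' N₀, F ∘ e, e' ∘ G, F ∘ F₀, G₀ ∘ G, b, d.opn o₀, he.trans (d.mono o₀.1), ?_,
    fun t ρ o p p' m => congrArg F (q t ρ o p p' m)⟩
  rw [image_comp]
  refine hF.trans (d.diff ?_)
  rintro _ ⟨⟨_, x⟩, ⟨rfl, m⟩, rfl⟩
  exact o₀.1 (he.mF ⟨mem_ball_self b, m⟩)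

/-- Another tube with the same core and a global extension. -/
theorem Surg.of_glob (h : Surg M T X) (e : core T' = core T) {k k' : ℂ × E3 → ℂ × E3}
    (hk : Dif (univ ×ˢ S2) (univ ×ˢ S2) k k') (z : ∀ o, (k (0, o)).1 = 0)
    (z' : ∀ o, (k' (0, o)).1 = 0)
    (c : ∀ (t ρ : ℝ) (o : E3), 0 < ρ → o ∈ S2 → ∃ (t' ρ' : ℝ) (o' : E3), 0 < ρ' ∧ o' ∈ S2 ∧
      k (ρ * ex t, o) = (ρ' * ex t', o') ∧ T' (t, ρ • o) = T (t', ρ' • o')) : Surg M T' X := by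
  refine h.of_ext (Φ := id) (Ψ := id) (e ▸ Dif.refl _) one_pos (hk.mono (srg_opn' 1).1)
    (hk.opn (srg_opn' 1)) (Subset.antisymm ?_ ?_) fun t ρ o p _ m => c t ρ o p m
  · rintro _ ⟨⟨_, x⟩, ⟨rfl, m⟩, rfl⟩
    exact ⟨z x, (hk.mF (⟨trivial, m⟩ : ((0 : ℂ), x) ∈ univ ×ˢ S2)).2⟩
  · rintro ⟨_, x⟩ ⟨rfl, m⟩
    have n : ((0 : ℂ), x) ∈ univ ×ˢ S2 := ⟨trivial, m⟩
    exact ⟨k' (0, x), ⟨z' x, (hk.mG n).2⟩, hk.fg _ n⟩

/-- The orientation of the core and a constant isometry of the fibre do not matter. -/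
theorem Surg.flip (h : Surg M T X) : Surg M (fun u => T (-u.1, u.2)) X := by
  have s : ContDiff ℝ ∞ fun p : ℂ × E3 => ((starRingEnd ℂ) p.1, p.2) :=
    (Complex.conjCLE.contDiff.comp contDiff_fst).prodMk contDiff_snd
  refine h.of_glob (neg_surjective.range_comp fun t => T (t, 0))
    (k := fun p => ((starRingEnd ℂ) p.1, p.2)) (k' := fun p => ((starRingEnd ℂ) p.1, p.2))
    ⟨s.contDiffOn, s.contDiffOn, fun _ m => ⟨trivial, m.2⟩, fun _ m => ⟨trivial, m.2⟩,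
      fun _ _ => by simp, fun _ _ => by simp⟩ (fun _ => map_zero _) (fun _ => map_zero _)
    fun t ρ o p m => ⟨-t, ρ, o, p, m, by simp [srg_conj], rfl⟩

theorem Surg.shift (h : Surg M T X) (s : ℝ) : Surg M (fun u => T (u.1 + s, u.2)) X := by
  have c (s : ℝ) : ContDiff ℝ ∞ fun p : ℂ × E3 => (p.1 * ex s, p.2) :=
    (contDiff_fst.mul contDiff_const).prodMk contDiff_snd
  have e0 : ex 0 = 1 := by simp [ex]
  refine h.of_glob ((add_right_surjective s).range_comp fun t => T (t, 0))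
    (k := fun p => (p.1 * ex s, p.2)) (k' := fun p => (p.1 * ex (-s), p.2))
    ⟨(c s).contDiffOn, (c _).contDiffOn, fun _ m => ⟨trivial, m.2⟩, fun _ m => ⟨trivial, m.2⟩,
      fun _ _ => by simp [mul_assoc, ← ex_add, e0], fun _ _ => by simp [mul_assoc, ← ex_add, e0]⟩
    (fun _ => zero_mul _) (fun _ => zero_mul _)
    fun t ρ o p m => ⟨t + s, ρ, o, p, m, by simp [ex_add, mul_assoc], rfl⟩

theorem Surg.lin (h : Surg M T X) (L : E3 ≃L[ℝ] E3) : Surg M (fun u => T (u.1, L u.2)) X := by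
  refine h.of_glob (by simp only [core, map_zero]) (srgK_dif L) (fun _ => smul_zero _)
    (fun _ => smul_zero _) fun t ρ o p m => ?_
  have a := srgN_pos (srg_ne L m)
  refine ⟨t, srgN (L o) * ρ, _, mul_pos a p, srgN_mem (srg_ne L m), ?_, ?_⟩
  · simp [srgK, mul_assoc]
  · rw [smul_smul, mul_comm _ ρ, mul_assoc, mul_inv_cancel₀ a.ne', mul_one, map_smul]

end Srg

end Pool.Agent.Lib.MP_b2e238_gt
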