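import Pool.Agent.Lib.MP_b2e238_gt.K.Ring
import Pool.Agent.Lib.MP_b2e238_gt.K.Srg
import Pool.Agent.Lib.MP_b2e238_gt.K.Inv

/-! Smooth families of tubes have the same surgery. -/

open scoped ContDiff Topology
open Set Metric

noncomputable section

namespace Pool.Agent.Lib.MP_b2e238_gt

variable {V W : Type} [NormedAddCommGroup V] [NormedSpace ℝ V] [NormedAddCommGroup W]
  [NormedSpace ℝ W] [FiniteDimensional ℝ V] [FiniteDimensional ℝ W]
  {M : Set V} {X : Set W} {ε : ℝ}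

theorem tf_low {x : E3} {r : ℝ} (h : ‖x‖ < r) (k : r ≤ 1) : -1 < x.2 := by
  have := (abs_lt.1 (((norm_snd_le x).trans_lt h).trans_le k)).1
  exact this

/-- A bijection that is the identity off `C` preserves every set that contains `C`. -/
theorem tf_maps {E : Type} {H G : E → E} {C U : Set E} (s : C ⊆ U) (gh : ∀ x, G (H x) = x)
    (e : ∀ x, x ∉ C → H x = x) : MapsTo H U U := fun x hx => by
  by_contra hn
  have k := congrArg G (e (H x) fun h => hn (s h))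
  rw [gh, gh] at k
  exact hn (k.symm ▸ hx)

/-- Nearby tubes of a family are ambient diffeomorphic. -/
theorem tf_loc {S : ℝ → ℝ × E3 → V} (a : 0 < ε)
    (c : ContDiffOn ℝ ∞ S.uncurry (univ ×ˢ univ ×ˢ ball 0 ε))
    (m : ∀ l t x, ‖x‖ < ε → S l (t, x) ∈ M) (h : ∀ l, ∃ r, Tb M (S l) r) (l₀ : ℝ) :
    ∀ᶠ l in 𝓝 l₀, ∃ (Φ Ψ : V → V) (δ : ℝ), 0 < δ ∧ Dif M M Φ Ψ ∧
      ∀ t x, ‖x‖ < δ → Φ (S l₀ (t, x)) = S l (t, x) := by
  classical
  have p : ∀ l t x, S l (t + 1, x) = S l (t, x) := fun l => (h l).choose_spec.2.1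
  obtain ⟨r₀, h₀⟩ := h l₀
  obtain ⟨r, r0, r1, r2, r3⟩ : ∃ r, 0 < r ∧ r ≤ r₀ ∧ r ≤ ε ∧ r ≤ 1 :=
    ⟨min r₀ (min ε 1), lt_min h₀.1 (lt_min a one_pos), min_le_left _ _,
      (min_le_right _ _).trans (min_le_left _ _), (min_le_right _ _).trans (min_le_right _ _)⟩
  have hφ := (h₀.mono r0 r1).ring r3
  obtain ⟨ψ, d⟩ := hφ.dif
  obtain ⟨O, oO, eO⟩ := opn_iff.1 hφ.opn
  have cR := rg_smooth (S := S) isOpen_univ r3 p
    (c.mono (prod_mono_right (prod_mono_right (ball_subset_ball r2))))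
  have mR : ∀ l, ∀ w ∈ Ann r, rg (S l) w ∈ M := fun l w hw => by
    obtain ⟨u, hu, rfl⟩ := pol_surj r3 hw
    rw [rg_pol (p l) (tf_low hu r3)]
    exact m l u.1 u.2 (hu.trans_le r2)
  have oW := cR.continuousOn.isOpen_inter_preimage (isOpen_univ.prod (isOpen_Ann r)) oO
  have mW : ∀ q ∈ univ ×ˢ Ann r ∩ (fun q : ℝ × ℂ × ℂ => rg (S q.1) q.2) ⁻¹' O,
      rg (S q.1) q.2 ∈ rg (S l₀) '' Ann r := fun q hq => eO ▸ ⟨mR _ _ hq.1.2, hq.2⟩
  obtain ⟨L, N, C, H, G, oL, hL, oN, KN, NC, cC, CU, LW, cH, cG, -, k⟩ :=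
    cut_off (F := fun q : ℝ × ℂ × ℂ => ψ (rg (S q.1) q.2)) oW
      (d.cG.comp (cR.mono inter_subset_left) mW) (l₀ := l₀)
      ((isCompact_sphere (0 : ℂ) 1).prod (isCompact_singleton (x := (0 : ℂ)))) (isOpen_Ann r)
      (fun w hw => by
        have h1 : ‖w.1‖ = 1 := by simpa using hw.1
        have h2 : w.2 = 0 := hw.2
        exact ⟨by simpa [h1] using r0, by simpa [h2] using r0⟩)
      (fun w hw => ⟨⟨trivial, hw⟩, (eO.le ⟨w, hw, rfl⟩).2⟩) fun w hw => d.gf w hw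
  obtain ⟨δ, δ0, δ1, δ2⟩ := ann_sub oN fun t => KN ⟨by simp [norm_ex], rfl⟩
  filter_upwards [oL.mem_nhds hL] with l hl
  have sm : ∀ {H : ℝ × ℂ × ℂ → ℂ × ℂ}, ContDiffOn ℝ ∞ H (L ×ˢ univ) →
      ContDiffOn ℝ ∞ (fun w => H (l, w)) (Ann r) := fun cH =>
    cH.comp (contDiffOn_const.prodMk contDiffOn_id) fun w _ => ⟨hl, trivial⟩
  have dH : Dif (Ann r) (Ann r) (fun w => H (l, w)) fun w => G (l, w) :=
    ⟨sm cH, sm cG, tf_maps (G := fun w => G (l, w)) CU (fun w => (k l hl w).1)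
      fun w => (k l hl w).2.2.2.1, tf_maps (G := fun w => H (l, w)) CU (fun w => (k l hl w).2.1)
      fun w hw => by
        have := (k l hl w).1
        rwa [(k l hl w).2.2.2.1 hw] at this,
      fun w _ => (k l hl w).1, fun w _ => (k l hl w).2.1⟩
  have cK : IsCompact (rg (S l₀) '' C) := cC.image_of_continuousOn (d.cF.continuousOn.mono CU)
  refine ⟨_, _, δ, δ0, ((d.symm.trans dH).trans d).extend hφ.opn (image_mono CU)
    (opn_iff.2 ⟨_, cK.isClosed.isOpen_compl, rfl⟩) ?_, fun t x hx => ?_⟩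
  · rintro _ ⟨⟨w, hw, rfl⟩, hn⟩
    simp only [Function.comp, d.gf w hw]
    rw [(k l hl w).2.2.2.1 fun h => hn ⟨w, h, rfl⟩]
  · have n := δ2 (pol_mem (u := (t, x)) δ1 hx)
    have e := fun l => rg_pol (u := (t, x)) (p l) (tf_low hx δ1)
    rw [← e, ← e, piecewise_eq_of_mem _ _ _ (mem_image_of_mem _ (CU (NC n)))]
    simp only [Function.comp, d.gf _ (CU (NC n))]
    rw [(k l hl _).2.2.1 n]
    exact d.fg _ (mW (l, pol (t, x)) (LW ⟨hl, NC n⟩))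

theorem tf {S : ℝ → ℝ × E3 → V} (a : 0 < ε)
    (c : ContDiffOn ℝ ∞ S.uncurry (univ ×ˢ univ ×ˢ ball 0 ε))
    (m : ∀ l t x, ‖x‖ < ε → S l (t, x) ∈ M) (h : ∀ l, ∃ r, Tb M (S l) r) (l l' : ℝ)
    (z : Surg M (S l) X) : Surg M (S l') X := by
  have co : ∀ l, core (S l) ⊆ M := fun l => by
    rintro _ ⟨t, rfl⟩
    exact m l t 0 (by simpa using a)
  have k : IsLocallyConstant fun l => Surg M (S l) X := by
    refine (IsLocallyConstant.iff_eventually_eq _).2 fun l₀ => (tf_loc a c m h l₀).mono ?_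
    rintro l ⟨Φ, Ψ, δ, δ0, d, e⟩
    refine propext ⟨fun z => z.of_dif' d δ0 (co l₀) e,
      fun z => z.of_dif' d.symm (lt_min δ0 a) (co l) fun t x hx => ?_⟩
    rw [← e t x (lt_min_iff.1 hx).1, d.gf _ (m l₀ t x (lt_min_iff.1 hx).2)]
  exact (k.apply_eq_of_preconnectedSpace l l').mp z

end Pool.Agent.Lib.MP_b2e238_gt
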