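import Pool.Agent.Lib.MP_b2e238_gt.K.TF

/-! Tubes with the same core and the same normal frame have the same surgeries. -/

open scoped ContDiff Topology
open Set Metric

noncomputable section

namespace Pool.Agent.Lib.MP_b2e238_gt

variable {V W : Type} [NormedAddCommGroup V] [NormedSpace ℝ V] [NormedAddCommGroup W]
  [NormedSpace ℝ W] [FiniteDimensional ℝ V] [FiniteDimensional ℝ W]
  {M : Set V} {X : Set W} {T T' : ℝ × E3 → V} {r r' : ℝ}

/-- A periodic property that holds near the core holds on a uniform neighbourhood. -/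
theorem tu_unif {p : ℝ × E3 → Prop} (h : ∀ t x, p (t + 1, x) ↔ p (t, x))
    (k : ∀ t, ∀ᶠ u in 𝓝 ((t, 0) : ℝ × E3), p u) : ∃ ε, 0 < ε ∧ ∀ t x, ‖x‖ < ε → p (t, x) := by
  have := (isCompact_Icc (a := (0 : ℝ)) (b := 1)).eventually_forall_of_forall_eventually
    (x₀ := (0 : E3)) (P := fun x t => p (t, x)) fun t _ =>
      (continuous_swap.tendsto ((0, t) : E3 × ℝ)).eventually (k t)
  obtain ⟨ε, a, b⟩ := Metric.eventually_nhds_iff.1 this
  refine ⟨ε, a, fun t x hx => ?_⟩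
  have e := per_int (c := fun t => p (t, x)) (fun t => propext (h t x)) (Int.fract t) ⌊t⌋
  rw [Int.fract_add_floor] at e
  exact e ▸ b (by rwa [dist_zero_right]) _ ⟨Int.fract_nonneg t, (Int.fract_lt_one t).le⟩

theorem tu_ann {u : ℝ × E3} {d : ℂ × ℂ} (k : r ≤ 1) (h : ‖u.2‖ < r / 2) (hd : ‖d‖ < r / 2) :
    pol u + d ∈ Ann r := by
  obtain ⟨a, b⟩ := pol_mem (r := r / 2) (by linarith [norm_nonneg d]) h
  have a1 := abs_norm_sub_norm_le ((pol u).1 + d.1) (pol u).1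
  rw [add_sub_cancel_left] at a1
  have a2 := abs_sub_le ‖(pol u).1 + d.1‖ ‖(pol u).1‖ 1
  have a3 := norm_add_le (pol u).2 d.2
  have a4 := norm_fst_le d
  have a5 := norm_snd_le d
  exact ⟨by change |‖(pol u).1 + d.1‖ - 1| < r; linarith, by change ‖(pol u).2 + d.2‖ < r; linarith⟩

omit [FiniteDimensional ℝ V] in
theorem tu_jet {t : ℝ} (h : DifferentiableAt ℝ T (t, 0)) (h' : DifferentiableAt ℝ T' (t, 0))
    (e : ∀ t, T' (t, 0) = T (t, 0))
    (d : ∀ x, fderiv ℝ T' (t, 0) (0, x) = fderiv ℝ T (t, 0) (0, x)) :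
    fderiv ℝ T' (t, 0) = fderiv ℝ T (t, 0) := by
  have c : HasDerivAt (fun s : ℝ => ((s, 0) : ℝ × E3)) (1, 0) t :=
    (hasDerivAt_id t).prodMk (hasDerivAt_const t 0)
  have a := h.hasFDerivAt.comp_hasDerivAt t c
  have a' := h'.hasFDerivAt.comp_hasDerivAt t c
  have b := (a'.congr_of_eventuallyEq (.of_forall fun s => (e s).symm)).unique a
  refine ContinuousLinearMap.ext fun v => ?_
  have : v = v.1 • ((1, 0) : ℝ × E3) + (0, v.2) := by simp
  rw [this, map_add, map_add, map_smul, map_smul, b, d]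

theorem tu_at (h : Tb M T r) (t : ℝ) : ContDiffAt ℝ ∞ T (t, 0) :=
  h.smooth.contDiffAt ((isOpen_univ.prod isOpen_ball).mem_nhds ⟨trivial, mem_ball_self h.1⟩)

theorem tu_one (hM : Mf (ℝ × E3) M) (h : Tb M T r) (k : r ≤ 1) (h' : Tb M T' r')
    (e : ∀ t, T' (t, 0) = T (t, 0))
    (d : ∀ t x, fderiv ℝ T' (t, 0) (0, x) = fderiv ℝ T (t, 0) (0, x)) (z : Surg M T X) :
    Surg M T' X := by
  have P := h.ring k
  obtain ⟨ψ, D⟩ := P.dif
  have r0 := h.1
  have pp : ∀ t x, pol (t + 1, x) = pol (t, x) := fun t x => by simp only [pol, ex_one]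
  have lo : ∀ {x : E3}, ‖x‖ < r → -1 < x.2 := fun {x} hx => by
    have := (abs_lt.1 ((norm_snd_le x).trans_lt hx)).1
    linarith
  have g : ∀ u : ℝ × E3, ‖u.2‖ < r → T u ∈ rg T '' Ann r ∧ ψ (T u) = pol u := fun u hu => by
    rw [← rg_pol h.2.1 (lo hu)]
    exact ⟨mem_image_of_mem _ (pol_mem k hu), D.gf _ (pol_mem k hu)⟩
  have z0 : ‖(0 : E3)‖ < r := by simpa using r0
  have sm : ∀ {s : ℝ} (t : ℝ), 0 < s → ∀ᶠ u in 𝓝 ((t, 0) : ℝ × E3), ‖u.2‖ < s := fun t hs =>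
    (continuous_snd.norm.tendsto _).eventually_lt_const (by simpa using hs)
  have n1 : ∀ t, ∀ᶠ u in 𝓝 ((t, 0) : ℝ × E3), T' u ∈ rg T '' Ann r := fun t =>
    (tendsto_nhdsWithin_iff.2 ⟨(tu_at h' t).continuousAt, (sm t h'.1).mono fun u hu =>
      h'.mem u.1 hu⟩).eventually (P.opn.2 _ ((e t).symm ▸ (g (t, 0) z0).1))
  have jet : ∀ t, HasFDerivAt (fun u => ψ (T' u) - pol u) (0 : ℝ × E3 →L[ℝ] ℂ × ℂ) (t, 0) := by
    intro t
    obtain ⟨L, hL⟩ := (D.cG _ (g (t, 0) z0).1).differentiableWithinAt (by simp)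
    have a := (tu_at h t).differentiableAt (by simp)
    have a' := (tu_at h' t).differentiableAt (by simp)
    have b := hL.comp_hasFDerivAt (t, 0) a.hasFDerivAt ((sm t r0).mono fun u hu => (g u hu).1)
    have b' := ((e t).symm ▸ hL :).comp_hasFDerivAt (t, 0) a'.hasFDerivAt (n1 t)
    rw [tu_jet a a' e (d t)] at b'
    have c := b'.sub b
    rw [sub_self] at c
    exact c.congr_of_eventuallyEq ((sm t r0).mono fun u hu => by simp [(g u hu).2])
  have d0 : ∀ t, ψ (T' (t, 0)) - pol (t, 0) = 0 := fun t => by rw [e, (g _ z0).2, sub_self]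
  obtain ⟨ε, a, b⟩ := tu_unif (p := fun u => (‖u.2‖ < r' ∧ ‖u.2‖ < r / 2) ∧
      T' u ∈ rg T '' Ann r ∧ ‖ψ (T' u) - pol u‖ < r / 2) (fun t x => by simp only [h'.2.1, pp])
    fun t => ((sm t h'.1).and (sm t (half_pos r0))).and ((n1 t).and
      ((jet t).continuousAt.norm.eventually_lt_const (by simp only [d0, norm_zero]; exact half_pos r0)))
  let q : ℝ → ℝ × E3 → ℂ × ℂ := fun l u => pol u + Real.smoothTransition l • (ψ (T' u) - pol u)
  have qm : ∀ l t x, ‖x‖ < ε → q l (t, x) ∈ Ann r := fun l t x hx =>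
    tu_ann k (b t x hx).1.2 (lt_of_le_of_lt (by
      rw [norm_smul, Real.norm_of_nonneg (Real.smoothTransition.nonneg l)]
      exact mul_le_of_le_one_left (norm_nonneg _) (Real.smoothTransition.le_one l)) (b t x hx).2.2)
  have q0 : ∀ l t, q l (t, 0) = pol (t, 0) := fun l t => by simp only [q, d0, smul_zero, add_zero]
  have c1 : ContDiffOn ℝ ∞ (fun u => ψ (T' u)) (univ ×ˢ ball 0 ε) :=
    D.cG.comp (h'.smooth.mono fun u hu => ⟨trivial, mem_ball_zero_iff.2
      (b u.1 u.2 (mem_ball_zero_iff.1 hu.2)).1.1⟩) fun u hu =>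
        (b u.1 u.2 (mem_ball_zero_iff.1 hu.2)).2.1
  have c2 : ContDiffOn ℝ ∞ (Function.uncurry fun l u => rg T (q l u))
      (univ ×ˢ univ ×ˢ ball 0 ε) := by
    refine D.cF.comp (f := fun v : ℝ × ℝ × E3 => q v.1 v.2) ?_ fun v hv =>
      qm v.1 v.2.1 v.2.2 (mem_ball_zero_iff.1 hv.2.2)
    have c3 : ContDiffOn ℝ ∞ (fun v : ℝ × ℝ × E3 => pol v.2) (univ ×ˢ univ ×ˢ ball 0 ε) :=
      (contDiff_pol.comp contDiff_snd).contDiffOn
    exact c3.add ((Real.smoothTransition.contDiff.comp contDiff_fst).contDiffOn.smul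
      ((c1.comp contDiffOn_snd fun v hv => hv.2).sub c3))
  have s0 : ∀ l t, rg T (q l (t, 0)) = T (t, 0) := fun l t => by
    rw [q0, rg_pol h.2.1 (lo z0)]
  have mm : ∀ l t x, ‖x‖ < ε → rg T (q l (t, x)) ∈ M := fun l t x hx => P.2.2.2.1 (qm l t x hx)
  have tb : ∀ l, ∃ s, Tb M (fun u => rg T (q l u)) s := fun l => by
    refine tb_of_germ hM a (c2.comp (f := fun u => (l, u)) (by fun_prop) fun u hu => ⟨trivial, hu⟩)
      (mm l) (fun t x => by simp only [q, h'.2.1, pp])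
      (fun t t' m => (h.inj z0 z0 (by rwa [s0, s0] at m)).2) fun t => ?_
    have a1 : HasFDerivAt (q l) (fderiv ℝ pol (t, 0)) (t, 0) := by
      have := (contDiff_pol.differentiable (by simp) (t, 0)).hasFDerivAt.add
        ((jet t).const_smul (Real.smoothTransition l))
      rwa [smul_zero, add_zero] at this
    have m := pol_mem (u := (t, 0)) k z0
    have a2 : HasFDerivAt (rg T) (fderiv ℝ (rg T) (pol (t, 0))) (q l (t, 0)) :=
      (q0 l t).symm ▸ ((P.2.1.contDiffAt (P.1.mem_nhds m)).differentiableAt (by simp)).hasFDerivAt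
    rw [show fderiv ℝ (fun u => rg T (q l u)) (t, 0) = _ from (a2.comp (t, 0) a1).fderiv]
    exact (P.2.2.2.2 _ m).1.comp (pol_inj (lo z0)).1
  have z1 : Surg M (fun u => rg T (q 0 u)) X :=
    z.of_dif' (Dif.refl M) a (by rintro _ ⟨t, rfl⟩; exact mm 0 t 0 (by simpa using a)) fun t x hx => by
      simp only [q, Real.smoothTransition.zero, zero_smul, add_zero, id]
      exact rg_pol h.2.1 (lo ((b t x hx).1.2.trans (half_lt_self r0)))
  refine (tf (S := fun l u => rg T (q l u)) a c2 mm tb 0 1 z1).of_dif' (Dif.refl M) a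
    (by rintro _ ⟨t, rfl⟩; exact h'.mem t (by simpa using h'.1)) fun t x hx => ?_
  simp only [q, Real.smoothTransition.one, one_smul, add_sub_cancel, id]
  exact (D.fg _ (b t x hx).2.1).symm

theorem tu (hM : Mf (ℝ × E3) M) (h : Tb M T r) (h' : Tb M T' r') (e : ∀ t, T' (t, 0) = T (t, 0))
    (d : ∀ t x, fderiv ℝ T' (t, 0) (0, x) = fderiv ℝ T (t, 0) (0, x)) (z : Surg M T X) :
    Surg M T' X :=
  tu_one hM (h.mono (lt_min h.1 one_pos) (min_le_left _ _)) (min_le_right _ _) h' e d z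

theorem FL.surg {c : ℝ → V} {N : ℝ → E3 →L[ℝ] V} (z : FL M c N X) (hM : Mf (ℝ × E3) M)
    (h : Tb M T r) (e : ∀ t, T (t, 0) = c t) (d : ∀ t x, fderiv ℝ T (t, 0) (0, x) = N t x) :
    Surg M T X :=
  let ⟨_, _, h1, h2, h3, h4⟩ := z
  tu hM h1 h (fun t => (e t).trans (h2 t).symm) (fun t x => (d t x).trans (h3 t x).symm) h4

end Pool.Agent.Lib.MP_b2e238_gt
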